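import Pool.Agent.Lib.MP_3f0e40_al.OS.Defs

set_option autoImplicit false

/-!
# Replacing one letter by a word outside the other letters is injective
-/

namespace Pool.Agent.MP3f0e40.OS

/-- finitely generated residually finite groups are Hopfian -/
theorem hopf {F : Type} [Group F] (hrf : Group.ResiduallyFinite F)
    (hfin : ∀ (Q : Type) [Group Q] [Finite Q], Finite (F →* Q)) (T : F →* F)
    (hT : Function.Surjective T) : Function.Injective T := by
  rw [injective_iff_map_eq_one]
  intro g hg
  by_contra hne
  obtain ⟨N, h1, h2, h3⟩ := (rf_iff F).1 hrf g hne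
  haveI := h1
  haveI := h2
  haveI := hfin (F ⧸ N)
  have hinj : Function.Injective (fun β : F →* F ⧸ N => β.comp T) :=
    fun β β' h => (MonoidHom.cancel_right hT).1 h
  obtain ⟨β, hβ⟩ := (Finite.injective_iff_surjective.1 hinj) (QuotientGroup.mk' N)
  apply h3
  have h4 := DFunLike.congr_fun hβ g
  simp only [MonoidHom.comp_apply, hg, map_one] at h4
  exact (QuotientGroup.eq_one_iff g).1 h4.symm

theorem free_hopf {X : Type} [Finite X] (T : FreeGroup X →* FreeGroup X)
    (hT : Function.Surjective T) : Function.Injective T :=
  hopf (free_rf X) (fun Q _ _ => finite_hom Q) T hT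

theorem rank_le {X Z : Type} [Finite X] (f : FreeGroup X →* FreeGroup Z)
    (hf : Function.Surjective f) : Finite Z ∧ Nat.card Z ≤ Nat.card X := by
  classical
  have hinj : Function.Injective (fun (φ : Z → Multiplicative (ZMod 2)) (x : X) =>
      (FreeGroup.lift φ) (f (FreeGroup.of x))) := by
    intro φ φ' h
    have h1 : (FreeGroup.lift φ).comp f = (FreeGroup.lift φ').comp f := by
      ext x
      exact congrArg _ (congrFun h x)
    exact FreeGroup.lift.injective ((MonoidHom.cancel_right hf).1 h1)
  haveI : Finite (Z → Multiplicative (ZMod 2)) := Finite.of_injective _ hinj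
  have hfin : Finite Z := by
    refine Finite.of_injective
      (fun z : Z => (Pi.mulSingle z (Multiplicative.ofAdd 1) : Z → Multiplicative (ZMod 2))) ?_
    intro z z' h
    by_contra hne
    have h1 := congrFun h z
    simp only [Pi.mulSingle_eq_same] at h1
    rw [Pi.mulSingle_eq_of_ne hne] at h1
    exact absurd h1 (by decide)
  refine ⟨hfin, ?_⟩
  have h1 := Nat.card_le_card_of_injective _ hinj
  rw [Nat.card_fun, Nat.card_fun] at h1
  have h2 : Nat.card (Multiplicative (ZMod 2)) = 2 := by
    rw [Nat.card_eq_fintype_card]
    rfl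
  rw [h2] at h1
  exact (Nat.pow_le_pow_iff_right (by norm_num)).1 h1

theorem map_val_mem {X : Type} (x₀ : X) (w : FreeGroup {x : X // x ≠ x₀}) :
    FreeGroup.map Subtype.val w ∈ Subgroup.closure (FreeGroup.of '' {x : X | x ≠ x₀}) := by
  induction w using FreeGroup.induction_on with
  | C1 => simp only [map_one]; exact Subgroup.one_mem _
  | of x =>
    simp only [FreeGroup.map.of]
    exact Subgroup.subset_closure ⟨x.1, x.2, rfl⟩
  | inv_of x hx =>
    rw [map_inv]
    exact Subgroup.inv_mem _ hx
  | mul x y hx hy =>
    rw [map_mul]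
    exact Subgroup.mul_mem _ hx hy

theorem lift_update_injective {X : Type} [Finite X] [DecidableEq X] (x₀ : X) (u : FreeGroup X)
    (hu : u ∉ Subgroup.closure (FreeGroup.of '' {x : X | x ≠ x₀})) :
    Function.Injective (FreeGroup.lift (Function.update FreeGroup.of x₀ u)) := by
  classical
  set η := FreeGroup.lift (Function.update FreeGroup.of x₀ u) with hη
  have hηx : ∀ x, x ≠ x₀ → η (FreeGroup.of x) = FreeGroup.of x := by
    intro x hx
    rw [hη, FreeGroup.lift_apply_of, Function.update_of_ne hx]
  have hηu : η (FreeGroup.of x₀) = u := by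
    rw [hη, FreeGroup.lift_apply_of, Function.update_self]
  let G0 : Type := IsFreeGroup.Generators η.range
  let e : η.range ≃* FreeGroup G0 := IsFreeGroup.toFreeGroup η.range
  obtain ⟨hfin, hle⟩ := rank_le (e.toMonoidHom.comp η.rangeRestrict)
    (e.surjective.comp η.rangeRestrict_surjective)
  haveI : Finite G0 := hfin
  haveI := Fintype.ofFinite X
  haveI := Fintype.ofFinite G0
  rw [Nat.card_eq_fintype_card, Nat.card_eq_fintype_card] at hle
  have hcard : Fintype.card G0 = Fintype.card X := by
    refine le_antisymm hle ?_
    by_contra hlt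
    push Not at hlt
    -- the retraction
    let ρ : FreeGroup X →* FreeGroup {x : X // x ≠ x₀} :=
      FreeGroup.lift fun x => if h : x = x₀ then 1 else FreeGroup.of ⟨x, h⟩
    have hρ : ∀ x (h : x ≠ x₀), ρ (FreeGroup.of x) = FreeGroup.of ⟨x, h⟩ := by
      intro x h
      simp only [ρ, FreeGroup.lift_apply_of, dif_neg h]
    let s' : FreeGroup {x : X // x ≠ x₀} →* η.range :=
      FreeGroup.lift fun x => ⟨FreeGroup.of x.1, ⟨FreeGroup.of x.1, hηx x.1 x.2⟩⟩
    have hs' : ∀ w, ((s' w : η.range) : FreeGroup X) = FreeGroup.map Subtype.val w := by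
      intro w
      have : (η.range.subtype.comp s') = FreeGroup.map Subtype.val := by
        ext x
        simp [s']
      exact DFunLike.congr_fun this w
    have hρs : ∀ w, ρ (s' w : FreeGroup X) = w := by
      intro w
      rw [hs']
      have : ρ.comp (FreeGroup.map Subtype.val) = MonoidHom.id _ := by
        ext x
        simp only [MonoidHom.comp_apply, FreeGroup.map.of, MonoidHom.id_apply]
        rw [hρ x.1 x.2]
      exact DFunLike.congr_fun this w
    have hcX : Fintype.card G0 ≤ Fintype.card {x : X // x ≠ x₀} := by
      have : Fintype.card {x : X // x ≠ x₀} = Fintype.card X - 1 := by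
        rw [Fintype.card_subtype_compl (fun x => x = x₀)]
        simp
      omega
    obtain ⟨j⟩ := Function.Embedding.nonempty_of_card_le hcX
    let g : FreeGroup {x : X // x ≠ x₀} →* FreeGroup G0 :=
      FreeGroup.lift (Function.extend j FreeGroup.of 1)
    have hg : Function.Surjective g := by
      intro w
      refine ⟨FreeGroup.map j w, ?_⟩
      have : g.comp (FreeGroup.map j) = MonoidHom.id _ := by
        ext z
        simp only [MonoidHom.comp_apply, FreeGroup.map.of, MonoidHom.id_apply, g,
          FreeGroup.lift_apply_of, j.injective.extend_apply]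
      exact DFunLike.congr_fun this w
    let T : FreeGroup {x : X // x ≠ x₀} →* FreeGroup {x : X // x ≠ x₀} :=
      (ρ.comp η.range.subtype).comp (e.symm.toMonoidHom.comp g)
    have hT : Function.Surjective T := by
      intro w
      obtain ⟨v, hv⟩ := hg (e (s' w))
      refine ⟨v, ?_⟩
      change ρ ((e.symm (g v) : η.range) : FreeGroup X) = w
      rw [hv, e.symm_apply_apply, hρs]
    have hTi := free_hopf T hT
    have hρi : Function.Injective (fun k : η.range => ρ (k : FreeGroup X)) := by
      intro k k' h
      obtain ⟨v, hv⟩ := hg (e k)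
      obtain ⟨v', hv'⟩ := hg (e k')
      have h1 : T v = T v' := by
        change ρ ((e.symm (g v) : η.range) : FreeGroup X) =
          ρ ((e.symm (g v') : η.range) : FreeGroup X)
        rw [hv, hv', e.symm_apply_apply, e.symm_apply_apply]
        exact h
      have h2 := hTi h1
      apply e.injective
      rw [← hv, ← hv', h2]
    have huK : u ∈ η.range := ⟨FreeGroup.of x₀, hηu⟩
    have h3 : (⟨u, huK⟩ : η.range) = s' (ρ u) := hρi (by
      change ρ u = ρ (s' (ρ u) : FreeGroup X)
      rw [hρs])
    apply hu
    have h4 : u = ((s' (ρ u) : η.range) : FreeGroup X) := congrArg Subtype.val h3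
    rw [h4, hs']
    exact map_val_mem x₀ _
  let c : G0 ≃ X := Fintype.equivOfCardEq hcard
  have hT : Function.Surjective (((FreeGroup.freeGroupCongr c).toMonoidHom.comp
      e.toMonoidHom).comp η.rangeRestrict) :=
    ((FreeGroup.freeGroupCongr c).surjective.comp e.surjective).comp η.rangeRestrict_surjective
  have hTi := free_hopf _ hT
  intro a b hab
  apply hTi
  have h5 : η.rangeRestrict a = η.rangeRestrict b := Subtype.ext hab
  simp only [MonoidHom.comp_apply, h5]

end Pool.Agent.MP3f0e40.OS
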