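import Pool.Agent.Lib.MP_3f0e40_al.OS.BorisovSapir
import Pool.Agent.Lib.MP_3f0e40_al.OS.Inj

set_option autoImplicit false

/-!
# The rows `0, ..., m` are detected by finite quotients
-/

namespace Pool.Agent.MP3f0e40.OS

open scoped commutatorElement

namespace Base

/-- the letters of the free group on which the endomorphism is defined -/
abbrev LL (Y : Type) (m : ℕ) : Type := (Y × Fin (m + 1)) ⊕ Y

variable {Y : Type} [DecidableEq Y] (a c : Y) (m : ℕ)

/-- the endomorphism: row `j + 1` goes to row `j` -/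
def psiL (U : FreeGroup (LL Y m)) : LL Y m → FreeGroup (LL Y m)
  | Sum.inl (y, j) => Fin.cases (motive := fun _ => FreeGroup (LL Y m))
      (if y = a then U else FreeGroup.of (Sum.inr y) *
        FreeGroup.of (Sum.inl (Equiv.swap a c y, Fin.last m)))
      (fun j => FreeGroup.of (Sum.inl (y, j.castSucc))) j
  | Sum.inr b => FreeGroup.of (Sum.inr b)

/-- the endomorphism -/
def psi (U : FreeGroup (LL Y m)) : FreeGroup (LL Y m) →* FreeGroup (LL Y m) :=
  FreeGroup.lift (psiL a c m U)

/-- left inverse of `psi` for `U = (c, last)` -/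
def lamL : LL Y m → FreeGroup (LL Y m)
  | Sum.inl (y, j) => Fin.lastCases (motive := fun _ => FreeGroup (LL Y m))
      (if y = c then FreeGroup.of (Sum.inl (a, 0)) else
        (FreeGroup.of (Sum.inr (Equiv.swap a c y)))⁻¹ *
        FreeGroup.of (Sum.inl (Equiv.swap a c y, 0)))
      (fun j => FreeGroup.of (Sum.inl (y, j.succ))) j
  | Sum.inr b => FreeGroup.of (Sum.inr b)

theorem psi_succ (U : FreeGroup (LL Y m)) (y : Y) (j : Fin m) :
    psi a c m U (FreeGroup.of (Sum.inl (y, j.succ))) = FreeGroup.of (Sum.inl (y, j.castSucc)) := by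
  simp [psi, psiL]

theorem psi_zero (U : FreeGroup (LL Y m)) (b : Y) (hb : b ≠ a) :
    psi a c m U (FreeGroup.of (Sum.inl (b, 0))) = FreeGroup.of (Sum.inr b) *
      FreeGroup.of (Sum.inl (Equiv.swap a c b, Fin.last m)) := by
  simp [psi, psiL, hb]

theorem psi_a (U : FreeGroup (LL Y m)) : psi a c m U (FreeGroup.of (Sum.inl (a, 0))) = U := by
  simp [psi, psiL]

theorem psi_inr (U : FreeGroup (LL Y m)) (b : Y) :
    psi a c m U (FreeGroup.of (Sum.inr b)) = FreeGroup.of (Sum.inr b) := by
  simp [psi, psiL]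

theorem swap_ne {b : Y} (hb : b ≠ a) : Equiv.swap a c b ≠ c := by
  intro h
  apply hb
  have h1 : Equiv.swap a c (Equiv.swap a c b) = Equiv.swap a c c := by rw [h]
  rw [Equiv.swap_apply_self, Equiv.swap_apply_right] at h1
  exact h1

theorem chi_injective :
    Function.Injective (psi a c m (FreeGroup.of (Sum.inl (c, Fin.last m)))) := by
  have h : (FreeGroup.lift (lamL a c m)).comp
      (psi a c m (FreeGroup.of (Sum.inl (c, Fin.last m)))) = MonoidHom.id _ := by
    ext l
    rcases l with ⟨y, j⟩ | b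
    · refine Fin.cases ?_ (fun j => ?_) j
      · by_cases hy : y = a
        · subst hy
          simp [psi_a, lamL]
        · have h1 := swap_ne a c hy
          rw [MonoidHom.comp_apply, psi_zero a c m _ y hy]
          simp [lamL, h1]
      · rw [MonoidHom.comp_apply, psi_succ]
        simp [lamL]
    · rw [MonoidHom.comp_apply, psi_inr]
      simp [lamL]
  intro x y hxy
  have h1 := DFunLike.congr_fun h x
  have h2 := DFunLike.congr_fun h y
  simp only [MonoidHom.comp_apply, MonoidHom.id_apply] at h1 h2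
  rw [← h1, ← h2, hxy]

theorem psi_eq (U : FreeGroup (LL Y m)) :
    psi a c m U = (FreeGroup.lift (Function.update FreeGroup.of (Sum.inl (c, Fin.last m)) U)).comp
      (psi a c m (FreeGroup.of (Sum.inl (c, Fin.last m)))) := by
  ext l
  rcases l with ⟨y, j⟩ | b
  · refine Fin.cases ?_ (fun j => ?_) j
    · by_cases hy : y = a
      · subst hy
        rw [MonoidHom.comp_apply, psi_a, psi_a]
        simp
      · have h1 := swap_ne a c hy
        rw [MonoidHom.comp_apply, psi_zero a c m _ y hy, psi_zero a c m _ y hy]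
        simp [h1]
    · rw [MonoidHom.comp_apply, psi_succ, psi_succ]
      have h1 : (Sum.inl (y, j.castSucc) : LL Y m) ≠ Sum.inl (c, Fin.last m) := by
        intro h
        have h2 := (Prod.mk.inj (Sum.inl.inj h)).2
        exact absurd h2 (Fin.castSucc_lt_last j).ne
      rw [FreeGroup.lift_apply_of, Function.update_of_ne h1]
  · rw [MonoidHom.comp_apply, psi_inr, psi_inr]
    simp

/-- words of the rows `0, ..., m + 1` -/
def zc : FreeGroup (Low a) →* FreeGroup (LL Y m) :=
  FreeGroup.lift fun p => if p.1.2 = 0 then FreeGroup.of (Sum.inr p.1.1) *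
      FreeGroup.of (Sum.inl (Equiv.swap a c p.1.1, Fin.last m))
    else if h : p.1.2 - 1 < m + 1 then FreeGroup.of (Sum.inl (p.1.1, ⟨p.1.2 - 1, h⟩)) else 1

theorem zc_zero (b : Y) (hb : b ≠ a) (h : (b, 0) ≠ (a, 0)) :
    zc a c m (FreeGroup.of ⟨(b, 0), h⟩) = psi a c m 1 (FreeGroup.of (Sum.inl (b, 0))) := by
  rw [psi_zero a c m _ b hb]
  simp [zc]

theorem zc_succ (y : Y) (i : ℕ) (hi : i < m + 1) (h : (y, i + 1) ≠ (a, 0)) :
    zc a c m (FreeGroup.of ⟨(y, i + 1), h⟩) = FreeGroup.of (Sum.inl (y, ⟨i, hi⟩)) := by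
  have hi' : i ≤ m := by omega
  simp [zc, hi']

/-- the way back -/
def back : FreeGroup (LL Y m) →* FreeGroup (Low a) :=
  FreeGroup.lift fun l => match l with
    | Sum.inl (y, j) => FreeGroup.of ⟨(y, (j : ℕ) + 1), by simp⟩
    | Sum.inr b => if h : b = a then 1 else FreeGroup.of ⟨(b, 0), by simp [h]⟩ *
        (FreeGroup.of ⟨(Equiv.swap a c b, m + 1), by simp⟩)⁻¹

theorem back_zc (x : FreeGroup (Low a)) (hx : x ∈ low a (m + 1)) : back a c m (zc a c m x) = x := by
  have h : Set.EqOn ((back a c m).comp (zc a c m)) (MonoidHom.id _)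
      (FreeGroup.of '' {p : Low a | p.1.2 ≤ m + 1}) := by
    rintro _ ⟨⟨⟨y, i⟩, hp⟩, hi, rfl⟩
    simp only [Set.mem_ofPred_eq] at hi
    rcases i with _ | i
    · have hy : y ≠ a := fun h => hp (by rw [h])
      rw [MonoidHom.comp_apply, zc_zero a c m y hy, psi_zero a c m _ y hy]
      simp [back, hy]
    · rw [MonoidHom.comp_apply, zc_succ a c m y i (by omega)]
      simp [back]
  exact MonoidHom.eqOn_closure h hx

theorem back_mem (x : FreeGroup (LL Y m))
    (hx : x ∈ Subgroup.closure (FreeGroup.of '' {l : LL Y m | l ≠ Sum.inl (c, Fin.last m)})) :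
    back a c m x ∈ Subgroup.closure (FreeGroup.of '' {p : Low a | p.1 ≠ (c, m + 1)}) := by
  have h : Subgroup.closure (FreeGroup.of '' {l : LL Y m | l ≠ Sum.inl (c, Fin.last m)}) ≤
      (Subgroup.closure (FreeGroup.of '' {p : Low a | p.1 ≠ (c, m + 1)})).comap (back a c m) := by
    rw [Subgroup.closure_le]
    rintro _ ⟨l, hl, rfl⟩
    simp only [Set.mem_ofPred_eq] at hl
    rw [SetLike.mem_coe, Subgroup.mem_comap]
    rcases l with ⟨y, j⟩ | b
    · simp only [back, FreeGroup.lift_apply_of]
      apply Subgroup.subset_closure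
      refine ⟨_, ?_, rfl⟩
      simp only [Set.mem_ofPred_eq]
      intro h
      apply hl
      have h1 := Prod.mk.inj h
      have h2 : j = Fin.last m := by
        apply Fin.ext
        rw [Fin.val_last]
        omega
      rw [h1.1, h2]
    · simp only [back, FreeGroup.lift_apply_of]
      split_ifs with hb
      · exact Subgroup.one_mem _
      · refine Subgroup.mul_mem _ ?_ (Subgroup.inv_mem _ ?_)
        · apply Subgroup.subset_closure
          refine ⟨_, ?_, rfl⟩
          simp
        · apply Subgroup.subset_closure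
          refine ⟨_, ?_, rfl⟩
          simp only [Set.mem_ofPred_eq]
          intro h
          exact swap_ne a c hb (Prod.mk.inj h).1
  exact h hx

theorem psi_injective [Finite Y] (U : FreeGroup (LL Y m))
    (hU : U ∉ Subgroup.closure (FreeGroup.of '' {l : LL Y m | l ≠ Sum.inl (c, Fin.last m)})) :
    Function.Injective (psi a c m U) := by
  rw [psi_eq]
  exact (lift_update_injective _ U hU).comp (chi_injective a c m)

end Base

section

variable {Y : Type} (a : Y) (v s : FreeGroup (Low a))

open Base in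
theorem base [Finite Y] (m : ℕ) (hv : v ∈ low a (m + 1)) (hs : s ∈ low a (m + 1)) (c : Y) (N : ℕ)
    (hN : s ^ N * v⁻¹ ∉ Subgroup.closure (FreeGroup.of '' {p : Low a | p.1 ≠ (c, m + 1)})) :
    Det (rows a v s (m + 1)) := by
  classical
  set U : FreeGroup (LL Y m) := zc a c m (s ^ N * v⁻¹) with hUdef
  have hU : U ∉ Subgroup.closure (FreeGroup.of '' {l : LL Y m | l ≠ Sum.inl (c, Fin.last m)}) := by
    intro h
    have h1 := back_mem a c m U h
    rw [hUdef, back_zc a c m _ (Subgroup.mul_mem _ (Subgroup.pow_mem _ hs _)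
      (Subgroup.inv_mem _ hv))] at h1
    exact hN h1
  have hinj := psi_injective a c m U hU
  intro g hg hg1
  -- a word for `g`
  obtain ⟨w, hw⟩ : ∃ w : FreeGroup (Y × Fin (m + 1)),
      FreeGroup.lift (fun p : Y × Fin (m + 1) => gg a v s p.1 (p.2 : ℕ)) w = g := by
    have h1 : rows a v s (m + 1) ≤
        (FreeGroup.lift (fun p : Y × Fin (m + 1) => gg a v s p.1 (p.2 : ℕ))).range := by
      unfold rows
      rw [Subgroup.closure_le]
      rintro _ ⟨y, i, hi, rfl⟩
      exact ⟨FreeGroup.of (y, ⟨i, hi⟩), by simp⟩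
    exact h1 hg
  have hw1 : w ≠ 1 := by
    rintro rfl
    rw [map_one] at hw
    exact hg1 hw.symm
  have hw2 : FreeGroup.map (Sum.inl : Y × Fin (m + 1) → LL Y m) w ≠ 1 := by
    intro h
    exact hw1 (FreeGroup.map_injective Sum.inl_injective (h.trans (map_one _).symm))
  obtain ⟨Q, hQ1, hQ2, θ, φ, h1, h2⟩ := bs_free (psi a c m U) hinj _ hw2
  -- the values
  set x : Y → ℕ → Q := fun y i => (φ.symm)^[i] (θ (FreeGroup.of (Sum.inl (y, 0)))) with hx
  have hxs : ∀ y i, φ (x y (i + 1)) = x y i := by
    intro y i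
    simp only [hx, Function.iterate_succ_apply']
    exact φ.apply_symm_apply _
  have hxj : ∀ (y : Y) (j : ℕ) (hj : j < m + 1),
      θ (FreeGroup.of (Sum.inl (y, ⟨j, hj⟩))) = x y j := by
    intro y j
    induction j with
    | zero => intro hj; rfl
    | succ j ih =>
      intro hj
      have h3 := h1 (FreeGroup.of (Sum.inl (y, (⟨j, by omega⟩ : Fin m).succ)))
      rw [psi_succ] at h3
      have h4 := ih (by omega)
      have h5 : φ (x y (j + 1)) = φ (θ (FreeGroup.of (Sum.inl (y, ⟨j + 1, hj⟩)))) := by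
        rw [hxs, ← h4]
        exact h3
      exact (φ.injective h5).symm
  have hz : ∀ z ∈ low a (m + 1), θ (zc a c m z) =
      φ (FreeGroup.lift (fun p : Low a => x p.1.1 p.1.2) z) := by
    intro z hz
    have h : Set.EqOn (θ.comp (zc a c m))
        ((φ : Q →* Q).comp (FreeGroup.lift (fun p : Low a => x p.1.1 p.1.2)))
        (FreeGroup.of '' {p : Low a | p.1.2 ≤ m + 1}) := by
      rintro _ ⟨⟨⟨y, i⟩, hp⟩, hi, rfl⟩
      simp only [Set.mem_ofPred_eq] at hi
      simp only [MonoidHom.comp_apply, FreeGroup.lift_apply_of, MonoidHom.coe_coe]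
      rcases i with _ | i
      · have hy : y ≠ a := fun h => hp (by rw [h])
        have h3 := h1 (FreeGroup.of (Sum.inl (y, 0)))
        rw [psi_zero a c m _ y hy] at h3
        rw [zc_zero a c m y hy, psi_zero a c m _ y hy, h3]
        rfl
      · rw [zc_succ a c m y i (by omega), hxj, hxs]
    exact MonoidHom.eqOn_closure h hz
  have ha : x a 0 * FreeGroup.lift (fun p : Low a => x p.1.1 p.1.2) v =
      (FreeGroup.lift (fun p : Low a => x p.1.1 p.1.2) s) ^ N := by
    have h3 := h1 (FreeGroup.of (Sum.inl (a, 0)))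
    rw [psi_a, hUdef, hz _ (Subgroup.mul_mem _ (Subgroup.pow_mem _ hs _)
      (Subgroup.inv_mem _ hv))] at h3
    have h4 := φ.injective h3
    rw [map_mul, map_pow, map_inv] at h4
    have h5 : x a 0 = θ (FreeGroup.of (Sum.inl (a, 0))) := rfl
    rw [h5, ← h4]
    group
  have hxi : ∀ y i j, x y (j + i) = (φ.symm)^[i] (x y j) := by
    intro y i j
    simp only [hx, ← Function.iterate_add_apply]
    rw [Nat.add_comm]
  have hlev : ∀ i (z : FreeGroup (Low a)),
      FreeGroup.lift (fun p : Y × ℕ => x p.1 p.2) (lev i z) =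
        (φ.symm)^[i] (FreeGroup.lift (fun p : Low a => x p.1.1 p.1.2) z) := by
    intro i
    induction i with
    | zero =>
      intro z
      have : (FreeGroup.lift (fun p : Y × ℕ => x p.1 p.2)).comp (lev (a := a) 0) =
          FreeGroup.lift (fun p : Low a => x p.1.1 p.1.2) := by
        ext p
        simp [lev]
      exact DFunLike.congr_fun this z
    | succ i ih =>
      intro z
      rw [Function.iterate_succ_apply', ← ih]
      have : (FreeGroup.lift (fun p : Y × ℕ => x p.1 p.2)).comp (lev (a := a) (i + 1)) =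
          (φ.symm : Q →* Q).comp
            ((FreeGroup.lift (fun p : Y × ℕ => x p.1 p.2)).comp (lev (a := a) i)) := by
        ext p
        simp only [lev, MonoidHom.comp_apply, FreeGroup.map.of, FreeGroup.lift_apply_of,
          MonoidHom.coe_coe]
        have h3 := hxs p.1.1 (p.1.2 + i)
        rw [← h3]
        exact (φ.symm_apply_apply _).symm
      exact DFunLike.congr_fun this z
  have hrel : ∀ r ∈ Set.range (rel a v s), FreeGroup.lift (fun p : Y × ℕ => x p.1 p.2) r = 1 := by
    rintro _ ⟨i, rfl⟩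
    unfold rel
    rw [map_commutatorElement, map_mul, FreeGroup.lift_apply_of, hlev, hlev]
    have h3 : x a i = (φ.symm)^[i] (x a 0) := by
      have := hxi a i 0
      rwa [Nat.zero_add] at this
    simp only [h3]
    have h4 : ∀ (i : ℕ) (p q : Q), (φ.symm)^[i] (p * q) = (φ.symm)^[i] p * (φ.symm)^[i] q :=
      fun i p q => iterate_map_mul φ.symm i p q
    rw [← h4, ha, commutatorElement_eq_one_iff_mul_comm, ← h4, ← h4, pow_mul_comm']
  set Θ : Gam a v s →* Q := PresentedGroup.toGroup hrel with hΘ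
  have hΘg : ∀ y i, Θ (gg a v s y i) = x y i := by
    intro y i
    exact PresentedGroup.toGroup.of hrel
  refine ⟨Θ.ker, inferInstance, ?_, ?_⟩
  · exact Subgroup.finiteIndex_ker Θ
  · rw [MonoidHom.mem_ker]
    intro h3
    apply h2
    rw [← h3, ← hw]
    have h4 : Θ.comp (FreeGroup.lift (fun p : Y × Fin (m + 1) => gg a v s p.1 (p.2 : ℕ))) =
        θ.comp (FreeGroup.map (Sum.inl : Y × Fin (m + 1) → LL Y m)) := by
      ext p
      simp only [MonoidHom.comp_apply, FreeGroup.lift_apply_of, FreeGroup.map.of]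
      rw [hΘg]
      exact (hxj p.1 p.2 p.2.2).symm
    exact (DFunLike.congr_fun h4 w).symm

end

end Pool.Agent.MP3f0e40.OS
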