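import Pool.Agent.Lib.MP_3f0e40_al.OS.Defs

/-!
# Project OS, module WA: words in 2 × 2 matrices with adjugates
-/

set_option autoImplicit false

namespace Pool.Agent.MP3f0e40.OS

theorem ev_nil {L R : Type} [CommRing R] (A : L → Matrix (Fin 2) (Fin 2) R) :
    ev A [] = 1 := rfl

theorem ev_cons {L R : Type} [CommRing R] (A : L → Matrix (Fin 2) (Fin 2) R) (x : L × Bool)
    (l : List (L × Bool)) :
    ev A (x :: l) = (if x.2 then A x.1 else (A x.1).adjugate) * ev A l := by
  simp [ev]

theorem ev_append {L R : Type} [CommRing R] (A : L → Matrix (Fin 2) (Fin 2) R)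
    (l m : List (L × Bool)) : ev A (l ++ m) = ev A l * ev A m := by
  simp [ev]

theorem adj_adj {R : Type} [CommRing R] (M : Matrix (Fin 2) (Fin 2) R) :
    M.adjugate.adjugate = M := by
  ext i j
  fin_cases i <;> fin_cases j <;> simp [Matrix.adjugate_fin_two]

theorem ev_map {L R R' : Type} [CommRing R] [CommRing R'] (φ : R →+* R')
    (A : L → Matrix (Fin 2) (Fin 2) R) (l : List (L × Bool)) :
    (ev A l).map φ = ev (fun x => (A x).map φ) l := by
  induction l with
  | nil =>
    rw [ev_nil, ev_nil]
    exact Matrix.map_one φ (map_zero φ) (map_one φ)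
  | cons x l ih =>
    rw [ev_cons, ev_cons, Matrix.map_mul, ih]
    congr 1
    rcases x with ⟨x, b⟩
    cases b
    · simp only [Bool.false_eq_true, if_false]
      exact RingHom.map_adjugate φ (A x)
    · simp

theorem ev_invRev {L R : Type} [CommRing R] (A : L → Matrix (Fin 2) (Fin 2) R)
    (l : List (L × Bool)) : ev A (FreeGroup.invRev l) = (ev A l).adjugate := by
  induction l with
  | nil =>
    rw [ev_nil, Matrix.adjugate_one]
    rfl
  | cons x l ih =>
    have h : FreeGroup.invRev (x :: l) = FreeGroup.invRev l ++ [(x.1, !x.2)] := by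
      simp [FreeGroup.invRev]
    rw [h, ev_append, ih, ev_cons A x l, Matrix.adjugate_mul_distrib]
    congr 1
    rcases x with ⟨x, b⟩
    cases b
    · simp [ev, adj_adj]
    · simp [ev]

theorem ev_sub {L R : Type} [CommRing R] (A : L → Matrix (Fin 2) (Fin 2) R)
    (S : L → List (L × Bool)) (l : List (L × Bool)) :
    ev A (sub S l) = ev (fun x => ev A (S x)) l := by
  induction l with
  | nil => rfl
  | cons x l ih =>
    have h : sub S (x :: l) = (if x.2 then S x.1 else FreeGroup.invRev (S x.1)) ++ sub S l := by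
      simp [sub]
    rw [h, ev_append, ih, ev_cons]
    congr 1
    rcases x with ⟨x, b⟩
    cases b
    · simp [ev_invRev]
    · simp

theorem mk_sub {L : Type} (S : L → List (L × Bool)) (l : List (L × Bool)) :
    FreeGroup.mk (sub S l) = FreeGroup.lift (fun x => FreeGroup.mk (S x)) (FreeGroup.mk l) := by
  induction l with
  | nil => rfl
  | cons x l ih =>
    have h : sub S (x :: l) = (if x.2 then S x.1 else FreeGroup.invRev (S x.1)) ++ sub S l := by
      simp [sub]
    have h2 : (FreeGroup.mk (x :: l) : FreeGroup L) = FreeGroup.mk [x] * FreeGroup.mk l := by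
      rw [FreeGroup.mul_mk]; rfl
    rw [h, ← FreeGroup.mul_mk, ih, h2, map_mul]
    congr 1
    rcases x with ⟨x, b⟩
    cases b
    · simp [FreeGroup.lift_mk, FreeGroup.inv_mk]
    · simp [FreeGroup.lift_mk]

theorem det_gen_ne_zero {L k : Type} [Field k] (x : L) : (gen L k x).det ≠ 0 := by
  intro h
  rw [Matrix.det_fin_two] at h
  have h2 := congrArg (MvPolynomial.eval fun p : L × Fin 2 × Fin 2 =>
    if p.2.1 = p.2.2 then (1 : k) else 0) h
  simp [gen] at h2

theorem det_ev_ne_zero {L k : Type} [Field k] (l : List (L × Bool)) :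
    (ev (gen L k) l).det ≠ 0 := by
  induction l with
  | nil => rw [ev_nil, Matrix.det_one]; exact one_ne_zero
  | cons x l ih =>
    rw [ev_cons, Matrix.det_mul]
    refine mul_ne_zero ?_ ih
    rcases x with ⟨x, b⟩
    cases b
    · simp only [Bool.false_eq_true, if_false]
      rw [Matrix.det_adjugate]
      exact pow_ne_zero _ (det_gen_ne_zero x)
    · simpa using det_gen_ne_zero x

end Pool.Agent.MP3f0e40.OS
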