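import Pool.Agent.Lib.MP_3f0e40_al.OS.Defs

set_option autoImplicit false

/-!
# Module WB: reduced words in generic matrices have a nonzero entry
-/

namespace Pool.Agent.MP3f0e40.OS

section WB

variable {L R : Type} [CommRing R]

theorem wb_ev_append (A : L → Matrix (Fin 2) (Fin 2) R) (l₁ l₂ : List (L × Bool)) :
    ev A (l₁ ++ l₂) = ev A l₁ * ev A l₂ := by
  simp [ev]

theorem wb_ev_cons (A : L → Matrix (Fin 2) (Fin 2) R) (x : L × Bool) (l : List (L × Bool)) :
    ev A (x :: l) = (if x.2 then A x.1 else (A x.1).adjugate) * ev A l := by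
  simp [ev]

theorem wb_ev_cancel (A : L → Matrix (Fin 2) (Fin 2) R) (x : L) (b : Bool)
    (l : List (L × Bool)) : ev A ((x, b) :: (x, !b) :: l) = (A x).det • ev A l := by
  rw [wb_ev_cons, wb_ev_cons, ← mul_assoc]
  cases b
  · simp [Matrix.adjugate_mul]
  · simp [Matrix.mul_adjugate]

theorem wb_ev_step (A : L → Matrix (Fin 2) (Fin 2) R) {l l' : List (L × Bool)}
    (h : FreeGroup.Red.Step l l') : ∃ x, ev A l = (A x).det • ev A l' := by
  obtain ⟨⟩ := h
  rename_i l₁ l₂ x b
  refine ⟨x, ?_⟩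
  rw [wb_ev_append, wb_ev_cancel, wb_ev_append, Matrix.mul_smul]

theorem wb_ev_red [IsDomain R] (A : L → Matrix (Fin 2) (Fin 2) R) (hA : ∀ x, (A x).det ≠ 0)
    {l l' : List (L × Bool)} (h : FreeGroup.Red l l') : ∃ c : R, c ≠ 0 ∧ ev A l = c • ev A l' := by
  induction h with
  | refl => exact ⟨1, one_ne_zero, by rw [one_smul]⟩
  | tail _ hs ih =>
    obtain ⟨c, hc, h1⟩ := ih
    obtain ⟨x, h2⟩ := wb_ev_step A hs
    exact ⟨c * (A x).det, mul_ne_zero hc (hA x), by rw [h1, h2, smul_smul]⟩

theorem wb_ev_map {S : Type} [CommRing S] (s : R →+* S) (A : L → Matrix (Fin 2) (Fin 2) R)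
    (l : List (L × Bool)) : s.mapMatrix (ev A l) = ev (fun x => s.mapMatrix (A x)) l := by
  rw [ev, ev, map_list_prod, List.map_map]
  congr 1
  refine List.map_congr_left fun x _ => ?_
  simp only [Function.comp_apply]
  split_ifs
  · rfl
  · exact RingHom.map_adjugate s (A x.1)

end WB

section WB2

variable (L k : Type) [Field k]

/-- the special matrices of rank one -/
noncomputable def wbN (x : L) : Matrix (Fin 2) (Fin 2) (MvPolynomial (L × Bool) k) :=
  !![MvPolynomial.X (x, false), -1;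
    MvPolynomial.X (x, true) * MvPolynomial.X (x, false), -MvPolynomial.X (x, true)]

variable {L}

/-- the column of a letter -/
noncomputable def wbCol (f : L × Bool) (i : Fin 2) : MvPolynomial (L × Bool) k :=
  ![1, MvPolynomial.X f] i

/-- the row of a letter -/
noncomputable def wbRow (f : L × Bool) (j : Fin 2) : MvPolynomial (L × Bool) k :=
  (if f.2 then 1 else -1) * ![MvPolynomial.X (f.1, !f.2), -1] j

theorem wb_letter (f : L × Bool) (i j : Fin 2) :
    (if f.2 then wbN L k f.1 else (wbN L k f.1).adjugate) i j = wbCol k f i * wbRow k f j := by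
  obtain ⟨x, b⟩ := f
  cases b
  · fin_cases i <;> fin_cases j <;>
      simp [wbN, wbCol, wbRow, Matrix.adjugate_fin_two, mul_comm]
  · fin_cases i <;> fin_cases j <;> simp [wbN, wbCol, wbRow]

theorem wb_pair (f g : L × Bool) (h : f.1 = g.1 → f.2 = g.2) :
    wbRow k f 0 * wbCol k g 0 + wbRow k f 1 * wbCol k g 1 ≠ 0 := by
  have h1 : wbRow k f 0 * wbCol k g 0 + wbRow k f 1 * wbCol k g 1 =
      (if f.2 then 1 else -1) * (MvPolynomial.X (f.1, !f.2) - MvPolynomial.X g) := by
    simp only [wbRow, wbCol, Matrix.cons_val_zero, Matrix.cons_val_one]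
    ring
  rw [h1]
  refine mul_ne_zero ?_ ?_
  · split_ifs
    · exact one_ne_zero
    · exact neg_ne_zero.mpr one_ne_zero
  · rw [sub_ne_zero]
    intro h2
    have h3 : (f.1, !f.2) = g := MvPolynomial.X_injective h2
    have h4 : f.1 = g.1 := by
      have := congrArg Prod.fst h3
      exact this
    have h5 : (!f.2) = g.2 := by
      have := congrArg Prod.snd h3
      exact this
    have h6 := h h4
    rw [← h6] at h5
    cases hf : f.2 <;> simp [hf] at h5

theorem wb_product (l : List (L × Bool)) : ∀ (f : L × Bool),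
    (f :: l).IsChain (fun a b => a.1 = b.1 → a.2 = b.2) →
    ∃ c : MvPolynomial (L × Bool) k, c ≠ 0 ∧ ∀ i, ev (wbN L k) (f :: l) i 1 = c * wbCol k f i := by
  induction l with
  | nil =>
    intro f _
    refine ⟨wbRow k f 1, ?_, fun i => ?_⟩
    · simp only [wbRow, Matrix.cons_val_one]
      split_ifs <;> simp
    · rw [wb_ev_cons]
      have h1 : ev (wbN L k) ([] : List (L × Bool)) = 1 := rfl
      rw [h1, mul_one, wb_letter, mul_comm]
  | cons g l ih =>
    intro f hf
    obtain ⟨hfg, hg⟩ := List.isChain_cons_cons.mp hf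
    obtain ⟨c, hc, h1⟩ := ih g hg
    refine ⟨c * (wbRow k f 0 * wbCol k g 0 + wbRow k f 1 * wbCol k g 1),
      mul_ne_zero hc (wb_pair k f g hfg), fun i => ?_⟩
    rw [wb_ev_cons, Matrix.mul_apply, Fin.sum_univ_two, h1, h1, wb_letter, wb_letter]
    ring

end WB2

theorem ev_gen_ne_zero {L k : Type} [Field k] (l : List (L × Bool)) (hl : FreeGroup.mk l ≠ 1) :
    (ev (gen L k) l) 0 1 ≠ 0 := by
  classical
  have hdet : ∀ x, (gen L k x).det ≠ 0 := by
    intro x h
    rw [Matrix.det_fin_two] at h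
    have h1 := congrArg (MvPolynomial.eval fun p : L × Fin 2 × Fin 2 =>
      if p.2.1 = p.2.2 then (1 : k) else 0) h
    simp [gen] at h1
  obtain ⟨c, hc, h1⟩ := wb_ev_red (gen L k) hdet (FreeGroup.reduce.red (L := l))
  have hne : FreeGroup.reduce l ≠ [] := by
    intro h2
    apply hl
    rw [← FreeGroup.toWord_eq_nil_iff, FreeGroup.toWord_mk, h2]
  have hred : (FreeGroup.reduce l).IsChain (fun a b => a.1 = b.1 → a.2 = b.2) := by
    have := FreeGroup.isReduced_toWord (x := FreeGroup.mk l)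
    rw [FreeGroup.toWord_mk] at this
    exact this
  obtain ⟨f, l', hfl⟩ := List.exists_cons_of_ne_nil hne
  rw [hfl] at hred h1
  obtain ⟨c', hc', h2⟩ := wb_product k l' f hred
  let s : MvPolynomial (L × Fin 2 × Fin 2) k →+* MvPolynomial (L × Bool) k :=
    (MvPolynomial.aeval fun p => wbN L k p.1 p.2.1 p.2.2 :
      MvPolynomial (L × Fin 2 × Fin 2) k →ₐ[k] MvPolynomial (L × Bool) k).toRingHom
  have hs : (fun x => s.mapMatrix (gen L k x)) = wbN L k := by
    funext x
    ext i j
    simp [s, gen]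
  have h3 := wb_ev_map s (gen L k) (f :: l')
  rw [hs] at h3
  have h4 : s (ev (gen L k) (f :: l') 0 1) = c' * wbCol k f 0 := by
    rw [← h2, ← h3]
    rfl
  intro h5
  rw [h1, Matrix.smul_apply, smul_eq_mul] at h5
  rcases mul_eq_zero.mp h5 with h6 | h6
  · exact hc h6
  · rw [h6, map_zero] at h4
    have h7 : wbCol k f 0 = 1 := rfl
    rw [h7, mul_one] at h4
    exact hc' h4.symm

end Pool.Agent.MP3f0e40.OS
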