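import Pool.Agent.Lib.MP_3f0e40_al.OS.PolyE
import Pool.Agent.Lib.MP_3f0e40_al.OS.WordA
import Pool.Agent.Lib.MP_3f0e40_al.OS.WordB

set_option autoImplicit false

/-!
# Finite quotients of a free group compatible with an injective endomorphism (project OS, module BS)
-/

namespace Pool.Agent.MP3f0e40.OS

/-- conjugation of matrices by units -/
def bsConj (F : Type) [Field F] :
    (Matrix (Fin 2) (Fin 2) F)ˣ →* Equiv.Perm (Matrix (Fin 2) (Fin 2) F) where
  toFun U :=
    { toFun := fun A => U * A * (↑U⁻¹ : Matrix (Fin 2) (Fin 2) F)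
      invFun := fun A => (↑U⁻¹ : Matrix (Fin 2) (Fin 2) F) * A * U
      left_inv := fun A => by
        simp only [← mul_assoc, Units.inv_mul, one_mul]
        rw [mul_assoc, Units.inv_mul, mul_one]
      right_inv := fun A => by
        simp only [← mul_assoc, Units.mul_inv, one_mul]
        rw [mul_assoc, Units.mul_inv, mul_one] }
  map_one' := by
    ext A
    simp
  map_mul' U V := by
    apply Equiv.ext
    intro A
    simp only [Equiv.coe_fn_mk, Equiv.Perm.coe_mul, Function.comp_apply, Units.val_mul, mul_inv_rev,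
      mul_assoc]

theorem bsConj_apply {F : Type} [Field F] (U : (Matrix (Fin 2) (Fin 2) F)ˣ)
    (A : Matrix (Fin 2) (Fin 2) F) : bsConj F U A * U = U * A := by
  change (U : Matrix (Fin 2) (Fin 2) F) * A * (↑U⁻¹ : Matrix (Fin 2) (Fin 2) F) * U = U * A
  rw [mul_assoc, Units.inv_mul, mul_one]

theorem bsConj_inv_apply {F : Type} [Field F] (U : (Matrix (Fin 2) (Fin 2) F)ˣ)
    (A : Matrix (Fin 2) (Fin 2) F) : (bsConj F U)⁻¹ A * (U : Matrix (Fin 2) (Fin 2) F).adjugate =
      (U : Matrix (Fin 2) (Fin 2) F).adjugate * A := by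
  have h1 : (bsConj F U)⁻¹ A = (↑U⁻¹ : Matrix (Fin 2) (Fin 2) F) * A * U := rfl
  have h2 : (U : Matrix (Fin 2) (Fin 2) F).adjugate =
      (U : Matrix (Fin 2) (Fin 2) F).det • (↑U⁻¹ : Matrix (Fin 2) (Fin 2) F) := by
    have h3 := Matrix.mul_adjugate (U : Matrix (Fin 2) (Fin 2) F)
    calc (U : Matrix (Fin 2) (Fin 2) F).adjugate
        = (↑U⁻¹ : Matrix (Fin 2) (Fin 2) F) * (U * (U : Matrix (Fin 2) (Fin 2) F).adjugate) := by
          rw [← mul_assoc, Units.inv_mul, one_mul]
      _ = _ := by rw [h3, mul_smul_comm, mul_one]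
  rw [h1, h2, mul_smul_comm, smul_mul_assoc, mul_assoc, mul_assoc, Units.mul_inv, mul_one]

section

variable {L F : Type} [Field F] (X : L → Matrix (Fin 2) (Fin 2) F)
  (U : L → (Matrix (Fin 2) (Fin 2) F)ˣ) (hU : ∀ x, (U x : Matrix (Fin 2) (Fin 2) F) = X x)

include hU in
theorem bs_lift_mk (l : List (L × Bool)) (A : Matrix (Fin 2) (Fin 2) F) :
    FreeGroup.lift (fun x => bsConj F (U x)) (FreeGroup.mk l) A * ev X l = ev X l * A := by
  induction l generalizing A with
  | nil =>
    have h1 : (FreeGroup.mk [] : FreeGroup L) = 1 := rfl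
    rw [h1, map_one]
    simp [ev]
  | cons p l ih =>
    obtain ⟨x, b⟩ := p
    have h1 : (FreeGroup.mk ((x, b) :: l) : FreeGroup L) =
        FreeGroup.mk [(x, b)] * FreeGroup.mk l := by
      rw [FreeGroup.mul_mk]
      rfl
    have h2 : ev X ((x, b) :: l) = (if b then X x else (X x).adjugate) * ev X l := by
      simp [ev]
    rw [h1, map_mul, h2, Equiv.Perm.mul_apply]
    set B := FreeGroup.lift (fun x => bsConj F (U x)) (FreeGroup.mk l) A with hB
    have h3 : FreeGroup.lift (fun x => bsConj F (U x)) (FreeGroup.mk [(x, b)]) B *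
        (if b then X x else (X x).adjugate) = (if b then X x else (X x).adjugate) * B := by
      cases b with
      | true =>
        have h4 : (FreeGroup.mk [(x, true)] : FreeGroup L) = FreeGroup.of x := rfl
        rw [h4, FreeGroup.lift_apply_of, if_pos rfl, ← hU x]
        exact bsConj_apply _ _
      | false =>
        have h4 : (FreeGroup.mk [(x, false)] : FreeGroup L) = (FreeGroup.of x)⁻¹ := rfl
        rw [h4, map_inv, FreeGroup.lift_apply_of, if_neg (by simp), ← hU x]
        exact bsConj_inv_apply _ _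
    rw [← mul_assoc, h3, mul_assoc, ih A, mul_assoc]

end

theorem bs_free {L : Type} [Finite L] (ψ : FreeGroup L →* FreeGroup L)
    (hψ : Function.Injective ψ) (w : FreeGroup L) (hw : w ≠ 1) :
    ∃ (Q : Type) (_ : Group Q) (_ : Finite Q) (θ : FreeGroup L →* Q) (φ : Q ≃* Q),
      (∀ g, θ (ψ g) = φ (θ g)) ∧ θ w ≠ 1 := by
  classical
  have : Fintype L := Fintype.ofFinite L
  have : Fact (Nat.Prime 2) := ⟨Nat.prime_two⟩
  set S : L → List (L × Bool) := fun x => (ψ (FreeGroup.of x)).toWord with hS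
  have hmkS : ∀ x, FreeGroup.mk (S x) = ψ (FreeGroup.of x) := fun x => FreeGroup.mk_toWord
  set G := gen L (ZMod 2) with hG
  set f : MvPolynomial (L × Fin 2 × Fin 2) (ZMod 2) →ₐ[ZMod 2]
      MvPolynomial (L × Fin 2 × Fin 2) (ZMod 2) :=
    MvPolynomial.aeval (fun q : L × Fin 2 × Fin 2 => (ev G (S q.1)) q.2.1 q.2.2) with hf
  have hgen : ∀ x, (G x).map f = ev G (S x) := by
    intro x
    ext1 i j
    rw [Matrix.map_apply, hG, gen, Matrix.of_apply, hf, MvPolynomial.aeval_X]
  have hev : ∀ l, (ev G l).map f = ev G (sub S l) := by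
    intro l
    have h1 := ev_map (f : MvPolynomial (L × Fin 2 × Fin 2) (ZMod 2) →+*
      MvPolynomial (L × Fin 2 × Fin 2) (ZMod 2)) G l
    have h2 : (fun x => (G x).map (f : MvPolynomial (L × Fin 2 × Fin 2) (ZMod 2) →+*
      MvPolynomial (L × Fin 2 × Fin 2) (ZMod 2))) = fun x => ev G (S x) := by
      funext x
      exact hgen x
    rw [h2, ← ev_sub] at h1
    exact h1
  have hiter : ∀ (j : ℕ) (l : List (L × Bool)), (ev G l).map (f^[j]) = ev G ((sub S)^[j] l) := by
    intro j
    induction j with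
    | zero =>
      intro l
      ext1 i j
      rfl
    | succ j ih =>
      intro l
      rw [Function.iterate_succ_apply, ← ih, ← hev]
      ext1 a b
      rfl
  have hψl : FreeGroup.lift (fun x => FreeGroup.mk (S x)) = ψ := by
    apply FreeGroup.ext_hom
    intro x
    rw [FreeGroup.lift_apply_of, hmkS]
  have hmk : ∀ (j : ℕ) (l : List (L × Bool)),
      FreeGroup.mk ((sub S)^[j] l) = ψ^[j] (FreeGroup.mk l) := by
    intro j
    induction j with
    | zero => intro l; rfl
    | succ j ih =>
      intro l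
      rw [Function.iterate_succ_apply, ih, mk_sub, hψl, Function.iterate_succ_apply]
  set n := Nat.card (L × Fin 2 × Fin 2) with hn
  have hfn : ∀ g, (f ^ n) g = f^[n] g := fun g => by rw [AlgHom.coe_pow]
  set D : MvPolynomial (L × Fin 2 × Fin 2) (ZMod 2) :=
    (∏ x, (G x).det) * (ev G w.toWord) 0 1 with hD
  have hD0 : f^[n] D ≠ 0 := by
    rw [← hfn, hD, map_mul, map_prod]
    apply mul_ne_zero
    · rw [Finset.prod_ne_zero_iff]
      intro x _
      rw [AlgHom.map_det]
      have h1 : (f ^ n).mapMatrix (G x) = ev G ((sub S)^[n] [(x, true)]) := by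
        rw [← hiter]
        have h2 : ev G [(x, true)] = G x := by simp [ev]
        rw [h2]
        ext1 a b
        simp only [AlgHom.mapMatrix_apply, Matrix.map_apply, hfn]
      rw [h1]
      exact det_ev_ne_zero _
    · have h1 : (f ^ n) ((ev G w.toWord) 0 1) = (ev G ((sub S)^[n] w.toWord)) 0 1 := by
        rw [← hiter, Matrix.map_apply, hfn]
      rw [h1]
      apply ev_gen_ne_zero
      rw [hmk, FreeGroup.mk_toWord]
      have h2 : ψ^[n] 1 = 1 := Function.iterate_fixed (map_one ψ) n
      rw [← h2]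
      exact fun h => hw (hψ.iterate n h)
  obtain ⟨F, _, _, _, k, e, he, heD⟩ := quasi_fixed 2 (L × Fin 2 × Fin 2) f D hD0
  set X : L → Matrix (Fin 2) (Fin 2) F := fun x => (G x).map e with hX
  rw [hD, map_mul, map_prod] at heD
  have hdet : ∀ x, (X x).det ≠ 0 := by
    intro x
    have h1 := (Finset.prod_ne_zero_iff.1 (left_ne_zero_of_mul heD)) x (Finset.mem_univ x)
    rw [RingHom.map_det] at h1
    exact h1
  have hW : (ev X w.toWord) 0 1 ≠ 0 := by
    have h1 := right_ne_zero_of_mul heD
    have h2 := ev_map e G w.toWord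
    rw [← h2, Matrix.map_apply]
    exact h1
  set U : L → (Matrix (Fin 2) (Fin 2) F)ˣ := fun x =>
    ((Matrix.isUnit_iff_isUnit_det (X x)).2 (isUnit_iff_ne_zero.2 (hdet x))).unit with hU'
  have hU : ∀ x, (U x : Matrix (Fin 2) (Fin 2) F) = X x := fun x => IsUnit.unit_spec _
  set θ : FreeGroup L →* Equiv.Perm (Matrix (Fin 2) (Fin 2) F) :=
    FreeGroup.lift (fun x => bsConj F (U x)) with hθ
  have hθmk : ∀ l A, θ (FreeGroup.mk l) A * ev X l = ev X l * A := bs_lift_mk X U hU
  set Fr : F →+* F := iterateFrobenius F 2 k with hFr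
  have hFrdef : ∀ c, Fr c = c ^ (2 ^ k) := fun c => iterateFrobenius_def 2 k c
  have hFrinj : Function.Injective (fun A : Matrix (Fin 2) (Fin 2) F => A.map Fr) := by
    intro A B h
    ext1 i j
    have h1 := congrFun (congrFun h i) j
    simp only [Matrix.map_apply] at h1
    exact Fr.injective h1
  set Φ : Equiv.Perm (Matrix (Fin 2) (Fin 2) F) :=
    Equiv.ofBijective _ (Finite.injective_iff_bijective.1 hFrinj) with hΦ
  have hΦa : ∀ A, Φ A = A.map Fr := fun A => rfl
  refine ⟨Equiv.Perm (Matrix (Fin 2) (Fin 2) F), inferInstance, inferInstance, θ, MulAut.conj Φ,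
    ?_, ?_⟩
  · have hmain : θ.comp ψ = ((MulAut.conj Φ).toMonoidHom).comp θ := by
      apply FreeGroup.ext_hom
      intro x
      change θ (ψ (FreeGroup.of x)) = Φ * θ (FreeGroup.of x) * Φ⁻¹
      rw [eq_mul_inv_iff_mul_eq]
      apply Equiv.ext
      intro B
      rw [Equiv.Perm.mul_apply, Equiv.Perm.mul_apply, hΦa, hΦa, ← hmkS]
      have h1 : ev X (S x) = (X x).map Fr := by
        have h2 := ev_map e G (S x)
        rw [← hgen] at h2
        change _ = ev X (S x) at h2
        rw [← h2]
        ext1 i j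
        simp only [Matrix.map_apply, hX]
        rw [he, hFrdef]
      have h3 := hθmk (S x) (B.map Fr)
      rw [h1] at h3
      have h4 := hθmk [(x, true)] B
      have h5 : ev X [(x, true)] = X x := by simp [ev]
      have h6 : (FreeGroup.mk [(x, true)] : FreeGroup L) = FreeGroup.of x := rfl
      rw [h5, h6] at h4
      have h7 : (θ (FreeGroup.of x) B).map Fr * (X x).map Fr = (X x).map Fr * B.map Fr := by
        rw [← Matrix.map_mul, ← Matrix.map_mul, h4]
      have h8 : IsUnit ((X x).map Fr) := by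
        rw [Matrix.isUnit_iff_isUnit_det, isUnit_iff_ne_zero]
        have h9 : ((X x).map Fr).det = Fr (X x).det := (RingHom.map_det Fr (X x)).symm
        rw [h9]
        exact (map_ne_zero Fr).2 (hdet x)
      exact h8.mul_right_cancel (h3.trans h7.symm)
    intro g
    exact DFunLike.congr_fun hmain g
  · intro h1
    have h2 := hθmk w.toWord !![1, 0; 0, 0]
    rw [FreeGroup.mk_toWord, h1, Equiv.Perm.one_apply] at h2
    have h3 := congrFun (congrFun h2 0) 1
    simp [Matrix.mul_apply, Fin.sum_univ_two] at h3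
    exact hW h3

end Pool.Agent.MP3f0e40.OS
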