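import Pool.Agent.Lib.MP_3f0e40_al.OS.Defs

set_option autoImplicit false

/-!
# The base group: shift and universal properties (module UP of project OS)
-/

namespace Pool.Agent.MP3f0e40.OS

open scoped commutatorElement

section

variable {Y : Type} (a : Y) (v s : FreeGroup (Low a))

theorem lift_lev {U : Type} [Group U] (f : Y × ℕ → U) (i : ℕ) (w : FreeGroup (Low a)) :
    FreeGroup.lift f (lev i w) =
      FreeGroup.lift (fun p : Low a => f (p.1.1, p.1.2 + i)) w := by
  have h : (FreeGroup.lift f).comp (lev i) =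
      FreeGroup.lift (fun p : Low a => f (p.1.1, p.1.2 + i)) := by
    refine FreeGroup.ext_hom _ _ fun p => ?_
    simp [lev]
  exact DFunLike.congr_fun h w

theorem lift_rel {U : Type} [Group U] (f : Y × ℕ → U) (i : ℕ) :
    FreeGroup.lift f (rel a v s i) =
      ⁅f (a, i) * FreeGroup.lift (fun p : Low a => f (p.1.1, p.1.2 + i)) v,
        FreeGroup.lift (fun p : Low a => f (p.1.1, p.1.2 + i)) s⁆ := by
  unfold rel
  rw [map_commutatorElement, map_mul, lift_lev, lift_lev, FreeGroup.lift_apply_of]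

theorem mk_eq_lift (w : FreeGroup (Y × ℕ)) :
    (PresentedGroup.mk (Set.range (rel a v s)) w : Gam a v s) =
      FreeGroup.lift (fun p : Y × ℕ => gg a v s p.1 p.2) w := by
  have h : PresentedGroup.mk (Set.range (rel a v s)) =
      FreeGroup.lift (fun p : Y × ℕ => gg a v s p.1 p.2) := by
    refine FreeGroup.ext_hom _ _ fun p => ?_
    rw [FreeGroup.lift_apply_of]
    rfl
  exact DFunLike.congr_fun h w

theorem lift_gg_rel (i : ℕ) :
    FreeGroup.lift (fun p : Y × ℕ => gg a v s p.1 p.2) (rel a v s i) = 1 := by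
  rw [← mk_eq_lift]
  exact PresentedGroup.one_of_mem ⟨i, rfl⟩

theorem gg_comm (i : ℕ) :
    ⁅gg a v s a i * FreeGroup.lift (fun p : Low a => gg a v s p.1.1 (p.1.2 + i)) v,
      FreeGroup.lift (fun p : Low a => gg a v s p.1.1 (p.1.2 + i)) s⁆ = 1 := by
  have h := lift_gg_rel a v s i
  rwa [lift_rel] at h

/-- homomorphisms from the base group -/
theorem exists_hom {U : Type} [Group U] (f : Y × ℕ → U)
    (h : ∀ i, ⁅f (a, i) * FreeGroup.lift (fun p : Low a => f (p.1.1, p.1.2 + i)) v,
        FreeGroup.lift (fun p : Low a => f (p.1.1, p.1.2 + i)) s⁆ = 1) :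
    ∃ F : Gam a v s →* U, (∀ y i, F (gg a v s y i) = f (y, i)) ∧
      ∀ w, F (PresentedGroup.mk _ w) = FreeGroup.lift f w := by
  have hr : ∀ r ∈ Set.range (rel a v s), FreeGroup.lift f r = 1 := by
    rintro _ ⟨i, rfl⟩
    rw [lift_rel]
    exact h i
  exact ⟨PresentedGroup.toGroup hr, fun y i => PresentedGroup.toGroup.of hr, fun w => rfl⟩

theorem exists_sh : ∃ sh : Gam a v s →* Gam a v s, ∀ y i, sh (gg a v s y i) = gg a v s y (i + 1) := by
  obtain ⟨F, hF, -⟩ := exists_hom a v s (fun p => gg a v s p.1 (p.2 + 1)) fun i => gg_comm a v s (i + 1)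
  exact ⟨F, hF⟩

/-- the value of a word in the letters of `Low a` -/
theorem rr_eq : rr a v s = gg a v s a 0 *
    FreeGroup.lift (fun p : Low a => gg a v s p.1.1 p.1.2) v := by
  unfold rr
  rw [mk_eq_lift, map_mul, lift_lev, FreeGroup.lift_apply_of]
  rfl

theorem rr_comm : rr a v s * FreeGroup.lift (fun p : Low a => gg a v s p.1.1 p.1.2) s =
    FreeGroup.lift (fun p : Low a => gg a v s p.1.1 p.1.2) s * rr a v s := by
  rw [rr_eq]
  exact commutatorElement_eq_one_iff_mul_comm.1 (gg_comm a v s 0)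

/-- homomorphisms to a group in which all values of `s` are central -/
theorem exists_hom_of_central {U : Type} [Group U]
    (hU : ∀ (ρ : FreeGroup (Low a) →* U) (x : U), ρ s * x = x * ρ s) (f : Y × ℕ → U) :
    ∃ F : Gam a v s →* U, ∀ y i, F (gg a v s y i) = f (y, i) := by
  obtain ⟨F, hF, -⟩ := exists_hom a v s f fun i => commutatorElement_eq_one_iff_mul_comm.2
    (hU (FreeGroup.lift (fun p : Low a => f (p.1.1, p.1.2 + i))) _).symm
  exact ⟨F, hF⟩

theorem up {Q : Type} [Group Q] (θ : Gam a v s →* Q) (τ : Y → Q) (ρ : Q)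
    (h : ρ * FreeGroup.lift (join (fun y i => θ (gg a v s y i)) τ) s =
      FreeGroup.lift (join (fun y i => θ (gg a v s y i)) τ) s * ρ) :
    ∃ Φ : Gam a v s →* Q, (∀ y i, Φ (gg a v s y (i + 1)) = θ (gg a v s y i)) ∧
      (∀ b, b ≠ a → Φ (gg a v s b 0) = τ b) ∧ Φ (rr a v s) = ρ := by
  classical
  set J : Low a → Q := join (fun y i => θ (gg a v s y i)) τ with hJ
  let f : Y × ℕ → Q := fun p => match p.2 with
    | 0 => if p.1 = a then ρ * (FreeGroup.lift J v)⁻¹ else τ p.1
    | i + 1 => θ (gg a v s p.1 i)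
  have hf0 : f (a, 0) = ρ * (FreeGroup.lift J v)⁻¹ := if_pos rfl
  have hfb : ∀ b, b ≠ a → f (b, 0) = τ b := fun b hb => if_neg hb
  have hfs : ∀ y i, f (y, i + 1) = θ (gg a v s y i) := fun y i => rfl
  have hfJ : (fun p : Low a => f (p.1.1, p.1.2)) = J := by
    funext p
    obtain ⟨⟨y, i⟩, hp⟩ := p
    cases i with
    | zero =>
      have hy : y ≠ a := fun e => hp (by rw [e])
      exact hfb y hy
    | succ i => rfl
  obtain ⟨F, hF, hF'⟩ := exists_hom a v s f fun i => by
    cases i with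
    | zero =>
      change ⁅f (a, 0) * FreeGroup.lift (fun p : Low a => f (p.1.1, p.1.2)) v,
        FreeGroup.lift (fun p : Low a => f (p.1.1, p.1.2)) s⁆ = 1
      rw [hfJ, hf0, inv_mul_cancel_right]
      exact commutatorElement_eq_one_iff_mul_comm.2 h
    | succ i =>
      have h1 : (fun p : Low a => f (p.1.1, p.1.2 + (i + 1))) =
          fun p : Low a => θ (gg a v s p.1.1 (p.1.2 + i)) := rfl
      rw [h1, hfs]
      have h2 : ∀ w, FreeGroup.lift (fun p : Low a => θ (gg a v s p.1.1 (p.1.2 + i))) w =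
          θ (FreeGroup.lift (fun p : Low a => gg a v s p.1.1 (p.1.2 + i)) w) := fun w => by
        have h3 : FreeGroup.lift (fun p : Low a => θ (gg a v s p.1.1 (p.1.2 + i))) =
            θ.comp (FreeGroup.lift (fun p : Low a => gg a v s p.1.1 (p.1.2 + i))) := by
          refine FreeGroup.ext_hom _ _ fun p => ?_
          simp
        exact DFunLike.congr_fun h3 w
      rw [h2, h2, ← map_mul, ← map_commutatorElement, gg_comm, map_one]
  refine ⟨F, fun y i => (hF y (i + 1)).trans (hfs y i), fun b hb => (hF b 0).trans (hfb b hb), ?_⟩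
  unfold rr
  rw [hF', map_mul, lift_lev, FreeGroup.lift_apply_of, hf0]
  change _ * FreeGroup.lift (fun p : Low a => f (p.1.1, p.1.2)) v = ρ
  rw [hfJ, inv_mul_cancel_right]

theorem exists_del : ∃ δ : Gam a v s →* Gam a v s,
    ∀ y i, δ (gg a v s y (i + 1)) = gg a v s y i := by
  obtain ⟨Φ, hΦ, -⟩ := up a v s (MonoidHom.id _) (fun _ => 1) 1 (by rw [one_mul, mul_one])
  exact ⟨Φ, hΦ⟩

end

end Pool.Agent.MP3f0e40.OS
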