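import Pool.Agent.Lib.MP_3f0e40_al.OS.Defs
import Pool.Agent.Lib.MP_3f0e40_al.OS.Univ

set_option autoImplicit false

/-!
# Finite quotients of `I` from finite quotients of the base group (windows)
-/

namespace Pool.Agent.MP3f0e40.OS

open scoped commutatorElement

section

variable {Y : Type} (a : Y) (v s : FreeGroup (Low a))

/-- iterates of the shift -/
def caUp {P : Type} [Group P] (sh : Gam a v s →* Gam a v s) (θ : Gam a v s →* P) :
    ℕ → (Gam a v s →* P)
  | 0 => θ
  | n + 1 => (caUp sh θ n).comp sh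

/-- the two-sided sequence of homomorphisms -/
def caSeq {P : Type} [Group P] (sh del : Gam a v s →* Gam a v s) (θ : Gam a v s →* P) :
    ℤ → (Gam a v s →* P)
  | Int.ofNat n => caUp a v s sh θ n
  | Int.negSucc n => caUp a v s del θ (n + 1)

theorem caSeq_succ {P : Type} [Group P] (sh del : Gam a v s →* Gam a v s)
    (h : del.comp sh = MonoidHom.id _) (θ : Gam a v s →* P) (n : ℤ) :
    caSeq a v s sh del θ (n + 1) = (caSeq a v s sh del θ n).comp sh := by
  have hd : ∀ k, (caUp a v s del θ (k + 1)).comp sh = caUp a v s del θ k := by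
    intro k
    change ((caUp a v s del θ k).comp del).comp sh = _
    rw [MonoidHom.comp_assoc, h, MonoidHom.comp_id]
  rcases n with k | k
  · rfl
  · change _ = (caUp a v s del θ (k + 1)).comp sh
    rw [hd]
    rcases k with _ | j
    · rfl
    · have e : (Int.negSucc (j + 1) + 1 : ℤ) = Int.negSucc j := by omega
      rw [e]
      rfl

/-- the words in the rows `0, ..., l` -/
def caLow (Y : Type) (l : ℕ) : Subgroup (FreeGroup (Y × ℕ)) :=
  Subgroup.closure (FreeGroup.of '' {p : Y × ℕ | p.2 ≤ l})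

theorem caLow_mono {l m : ℕ} (h : l ≤ m) : caLow Y l ≤ caLow Y m :=
  Subgroup.closure_mono (Set.image_mono fun _ hp => le_trans hp h)

theorem exists_caLow (x : FreeGroup (Y × ℕ)) : ∃ l, x ∈ caLow Y l := by
  induction x using FreeGroup.induction_on with
  | C1 => exact ⟨0, one_mem _⟩
  | of p => exact ⟨p.2, Subgroup.subset_closure ⟨p, by simp, rfl⟩⟩
  | inv_of p h =>
    obtain ⟨l, hl⟩ := h
    exact ⟨l, inv_mem hl⟩
  | mul x y hx hy =>
    obtain ⟨l, hl⟩ := hx
    obtain ⟨m, hm⟩ := hy
    exact ⟨max l m, mul_mem (caLow_mono (le_max_left _ _) hl) (caLow_mono (le_max_right _ _) hm)⟩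

theorem eq_of_caLow {Q : Type} [Group Q] {l : ℕ} (f g : FreeGroup (Y × ℕ) →* Q)
    (h : ∀ y i, i ≤ l → f (FreeGroup.of (y, i)) = g (FreeGroup.of (y, i)))
    {x : FreeGroup (Y × ℕ)} (hx : x ∈ caLow Y l) : f x = g x := by
  have h1 : caLow Y l ≤ f.eqLocus g := by
    refine (Subgroup.closure_le _).2 ?_
    rintro _ ⟨p, hp, rfl⟩
    exact h p.1 p.2 hp
  exact h1 hx

theorem window [Finite Y] (h : Group.ResiduallyFinite (Gam a v s)) (γ : FreeGroup (Y × ℕ))
    (hγ : (PresentedGroup.mk _ γ : Gam a v s) ≠ 1) :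
    ∃ (Q : Type) (_ : Group Q) (_ : Finite Q) (Φ : FreeGroup (Option Y) →* Q),
      Φ (relI a v s) = 1 ∧ Φ (shf γ) ≠ 1 := by
  classical
  obtain ⟨N, hN1, hN2, hN3⟩ := (rf_iff _).1 h _ hγ
  obtain ⟨sh, hsh⟩ := exists_sh a v s
  obtain ⟨del, hdel⟩ := exists_del a v s
  have hds : del.comp sh = MonoidHom.id _ := by
    refine PresentedGroup.ext fun p => ?_
    obtain ⟨y, i⟩ := p
    change del (sh (gg a v s y i)) = gg a v s y i
    rw [hsh, hdel]
  let P : Type := Gam a v s ⧸ N
  have : Finite P := inferInstanceAs (Finite (Gam a v s ⧸ N))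
  let θ₀ : Gam a v s →* P := QuotientGroup.mk' N
  have hθ₀ : θ₀ (PresentedGroup.mk _ γ) ≠ 1 := by
    intro h1
    exact hN3 ((QuotientGroup.eq_one_iff _).1 h1)
  let θ : ℤ → (Gam a v s →* P) := caSeq a v s sh del θ₀
  have hθ : ∀ n y i, θ (n + 1) (gg a v s y i) = θ n (gg a v s y (i + 1)) := by
    intro n y i
    have := caSeq_succ a v s sh del hds θ₀ n
    change caSeq a v s sh del θ₀ (n + 1) (gg a v s y i) = _
    rw [this, MonoidHom.comp_apply, hsh]
  obtain ⟨l, hl1, hl2⟩ : ∃ l, γ ∈ caLow Y l ∧ rel a v s 0 ∈ caLow Y l := by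
    obtain ⟨l, hl⟩ := exists_caLow γ
    obtain ⟨m, hm⟩ := exists_caLow (rel a v s 0)
    exact ⟨max l m, caLow_mono (le_max_left _ _) hl, caLow_mono (le_max_right _ _) hm⟩
  let W : ℤ → (Y × Fin (l + 1) → P) := fun n p => θ n (gg a v s p.1 p.2)
  let E : Type := Set.range W
  have : Finite E := inferInstanceAs (Finite (Set.range W))
  let num : E → ℤ := fun e => e.2.choose
  have hnum : ∀ e : E, W (num e) = e.1 := fun e => e.2.choose_spec
  let mkE : ℤ → E := fun n => ⟨W n, n, rfl⟩
  have hmk : ∀ n y i, i ≤ l → θ (num (mkE n)) (gg a v s y i) = θ n (gg a v s y i) := by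
    intro n y i hi
    have h1 : W (num (mkE n)) = W n := hnum (mkE n)
    exact congrFun h1 (y, ⟨i, by omega⟩)
  let G : Type := E → P
  have : Finite G := inferInstanceAs (Finite (E → P))
  let X : Y × ℕ → G := fun p e => θ (num e) (gg a v s p.1 p.2)
  have hX : ∀ (x : FreeGroup (Y × ℕ)) (e : E),
      (FreeGroup.lift X x) e = θ (num e) (PresentedGroup.mk _ x) := by
    intro x e
    have h1 : (Pi.evalMonoidHom (fun _ : E => P) e).comp (FreeGroup.lift X) =
        (θ (num e)).comp (PresentedGroup.mk _) := by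
      refine FreeGroup.ext_hom _ _ fun p => ?_
      rw [MonoidHom.comp_apply, FreeGroup.lift_apply_of]
      rfl
    exact DFunLike.congr_fun h1 x
  let lam : G →* Equiv.Perm G := MulAction.toPermHom G G
  have hlam : ∀ g x : G, lam g x = g * x := fun g x => rfl
  let c1 : FreeGroup (Y × Fin l) →* G := FreeGroup.lift fun p => X (p.1, (p.2 : ℕ) + 1)
  let c0 : FreeGroup (Y × Fin l) →* G := FreeGroup.lift fun p => X (p.1, (p.2 : ℕ))
  have hc1 : ∀ (c : FreeGroup (Y × Fin l)) (e : E),
      c1 c e = FreeGroup.lift (fun p : Y × Fin l => θ (num e) (gg a v s p.1 ((p.2 : ℕ) + 1))) c := by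
    intro c e
    have h1 : (Pi.evalMonoidHom (fun _ : E => P) e).comp c1 = FreeGroup.lift
        (fun p : Y × Fin l => θ (num e) (gg a v s p.1 ((p.2 : ℕ) + 1))) := by
      refine FreeGroup.ext_hom _ _ fun p => ?_
      rw [MonoidHom.comp_apply, FreeGroup.lift_apply_of, FreeGroup.lift_apply_of]
      rfl
    exact DFunLike.congr_fun h1 c
  have hc0 : ∀ (c : FreeGroup (Y × Fin l)) (e : E),
      c0 c e = FreeGroup.lift (fun p : Y × Fin l => θ (num e) (gg a v s p.1 (p.2 : ℕ))) c := by
    intro c e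
    have h1 : (Pi.evalMonoidHom (fun _ : E => P) e).comp c0 = FreeGroup.lift
        (fun p : Y × Fin l => θ (num e) (gg a v s p.1 (p.2 : ℕ))) := by
      refine FreeGroup.ext_hom _ _ fun p => ?_
      rw [MonoidHom.comp_apply, FreeGroup.lift_apply_of, FreeGroup.lift_apply_of]
      rfl
    exact DFunLike.congr_fun h1 c
  have h10 : ∀ c, c1 c = 1 ↔ c0 c = 1 := by
    intro c
    constructor
    · intro hc
      funext e
      have h1 := congrFun hc (mkE (num e - 1))
      rw [hc1] at h1
      rw [hc0]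
      have h2 : (fun p : Y × Fin l => θ (num (mkE (num e - 1))) (gg a v s p.1 ((p.2 : ℕ) + 1))) =
          fun p : Y × Fin l => θ (num e) (gg a v s p.1 (p.2 : ℕ)) := by
        funext p
        rw [hmk _ _ _ (by have := p.2.2; omega), ← hθ, sub_add_cancel]
      rw [h2] at h1
      exact h1
    · intro hc
      funext e
      have h1 := congrFun hc (mkE (num e + 1))
      rw [hc0] at h1
      rw [hc1]
      have h2 : (fun p : Y × Fin l => θ (num (mkE (num e + 1))) (gg a v s p.1 (p.2 : ℕ))) =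
          fun p : Y × Fin l => θ (num e) (gg a v s p.1 ((p.2 : ℕ) + 1)) := by
        funext p
        rw [hmk _ _ _ (by have := p.2.2; omega), hθ]
      rw [h2] at h1
      exact h1
  obtain ⟨τ, hτ, -⟩ := ext_equivariant (J := Empty) (lam.comp c1) (lam.comp c0) (by
    intro c x y
    rw [MonoidHom.comp_apply, MonoidHom.comp_apply, hlam, hlam, mul_eq_right, mul_eq_right]
    exact h10 c) (fun j => j.elim) (fun j => j.elim) (fun j => j.elim) (fun j => j.elim)
  have hτX : ∀ y i, i < l → τ⁻¹ * lam (X (y, i)) * τ = lam (X (y, i + 1)) := by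
    intro y i hi
    have h1 : τ * lam (X (y, i + 1)) = lam (X (y, i)) * τ := by
      ext1 x
      have h2 := hτ (FreeGroup.of (y, (⟨i, hi⟩ : Fin l))) x
      rw [MonoidHom.comp_apply, MonoidHom.comp_apply] at h2
      have h3 : c1 (FreeGroup.of (y, (⟨i, hi⟩ : Fin l))) = X (y, i + 1) := FreeGroup.lift_apply_of
      have h4 : c0 (FreeGroup.of (y, (⟨i, hi⟩ : Fin l))) = X (y, i) := FreeGroup.lift_apply_of
      rw [h3, h4] at h2
      exact h2
    rw [mul_assoc, ← h1, inv_mul_cancel_left]
  let Φ : FreeGroup (Option Y) →* Equiv.Perm G := FreeGroup.lift fun o => match o with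
    | none => τ
    | some y => lam (X (y, 0))
  have hΦ0 : Φ (FreeGroup.of none) = τ := FreeGroup.lift_apply_of
  have hΦ1 : ∀ y, Φ (FreeGroup.of (some y)) = lam (X (y, 0)) := fun y => FreeGroup.lift_apply_of
  have hpow : ∀ y i, i ≤ l → (τ ^ i)⁻¹ * lam (X (y, 0)) * τ ^ i = lam (X (y, i)) := by
    intro y i
    induction i with
    | zero => intro _; simp
    | succ i ih =>
      intro hi
      rw [← hτX y i (by omega), ← ih (by omega), pow_succ, mul_inv_rev]
      simp only [mul_assoc]
  have hshf : ∀ x ∈ caLow Y l, Φ (shf x) = lam (FreeGroup.lift X x) := by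
    intro x hx
    refine eq_of_caLow (Φ.comp shf) (lam.comp (FreeGroup.lift X)) ?_ hx
    intro y i hi
    rw [MonoidHom.comp_apply, MonoidHom.comp_apply, FreeGroup.lift_apply_of, ← hpow y i hi]
    unfold shf
    rw [FreeGroup.lift_apply_of, map_mul, map_mul, map_inv, map_pow, hΦ0, hΦ1]
  refine ⟨Equiv.Perm G, inferInstance, inferInstance, Φ, ?_, ?_⟩
  · unfold relI
    rw [hshf _ hl2]
    have h1 : FreeGroup.lift X (rel a v s 0) = 1 := by
      funext e
      rw [hX]
      have h2 : (PresentedGroup.mk _ (rel a v s 0) : Gam a v s) = 1 :=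
        PresentedGroup.one_of_mem ⟨0, rfl⟩
      rw [h2, map_one]
      rfl
    rw [h1, map_one]
  · rw [hshf _ hl1]
    intro h1
    have h2 : FreeGroup.lift X γ = 1 := by
      have h3 := congrArg (fun p : Equiv.Perm G => p 1) h1
      change lam (FreeGroup.lift X γ) 1 = 1 at h3
      rw [hlam, mul_one] at h3
      exact h3
    have h3 := congrFun h2 (mkE 0)
    rw [hX] at h3
    have h4 : θ (num (mkE 0)) (PresentedGroup.mk _ γ) = θ 0 (PresentedGroup.mk _ γ) := by
      refine eq_of_caLow ((θ (num (mkE 0))).comp (PresentedGroup.mk _))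
        ((θ 0).comp (PresentedGroup.mk _)) ?_ hl1
      intro y i hi
      exact hmk 0 y i hi
    rw [h4] at h3
    exact hθ₀ h3

end

end Pool.Agent.MP3f0e40.OS
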