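import Pool.Agent.Lib.MP_3f0e40_al.Pres

set_option autoImplicit false

/-!
# Definitions for the one-letter theorem (project OS)
-/

namespace Pool.Agent.MP3f0e40.OS

open scoped commutatorElement

/-- all nontrivial elements of `H` survive in finite quotients of `G` -/
def Det {G : Type} [Group G] (H : Subgroup G) : Prop :=
  ∀ g ∈ H, g ≠ 1 → ∃ N : Subgroup G, N.Normal ∧ N.FiniteIndex ∧ g ∉ N

/-- the letters `(y, i)` other than `(a, 0)` -/
abbrev Low {Y : Type} (a : Y) : Type := {p : Y × ℕ // p ≠ (a, 0)}

section

variable {Y : Type} {a : Y}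

/-- all letters raised by `i` rows -/
def lev (i : ℕ) : FreeGroup (Low a) →* FreeGroup (Y × ℕ) :=
  FreeGroup.map fun p => (p.1.1, p.1.2 + i)

variable (a) (v s : FreeGroup (Low a))

/-- the `i`-th relator of the base group -/
def rel (i : ℕ) : FreeGroup (Y × ℕ) :=
  ⁅FreeGroup.of (a, i) * lev i v, lev i s⁆

/-- the base group -/
abbrev Gam : Type := PresentedGroup (Set.range (rel a v s))

/-- the generators of the base group -/
def gg (y : Y) (i : ℕ) : Gam a v s := PresentedGroup.of (y, i)

/-- the element `r` of row `0` of the base group -/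
def rr : Gam a v s := PresentedGroup.mk _ (FreeGroup.of (a, 0) * lev 0 v)

/-- the subgroup generated by the rows `0, ..., n - 1` -/
def rows (n : ℕ) : Subgroup (Gam a v s) :=
  Subgroup.closure {x | ∃ y i, i < n ∧ x = gg a v s y i}

/-- the words in the letters of the rows `0, ..., m` other than `(a, 0)` -/
def low (m : ℕ) : Subgroup (FreeGroup (Low a)) :=
  Subgroup.closure (FreeGroup.of '' {p : Low a | p.1.2 ≤ m})

end

/-- values of the letters of `Low a`: the row `i + 1` is given by `f`, the row `0` by `τ` -/
def join {Y Q : Type} {a : Y} (f : Y → ℕ → Q) (τ : Y → Q) (p : Low a) : Q :=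
  match p.1.2 with
  | 0 => τ p.1.1
  | i + 1 => f p.1.1 i

/-- `(y, i)` read as `t⁻ⁱ y tⁱ`, where `t` is `none` -/
def shf {Y : Type} : FreeGroup (Y × ℕ) →* FreeGroup (Option Y) :=
  FreeGroup.lift fun p => (FreeGroup.of none ^ p.2)⁻¹ * FreeGroup.of (some p.1) *
    FreeGroup.of none ^ p.2

/-- the relator of the group `I` -/
def relI {Y : Type} (a : Y) (v s : FreeGroup (Low a)) : FreeGroup (Option Y) := shf (rel a v s 0)

/-- value of a word in `2 × 2` matrices, adjugates for the inverses -/
def ev {L R : Type} [CommRing R] (A : L → Matrix (Fin 2) (Fin 2) R) (l : List (L × Bool)) :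
    Matrix (Fin 2) (Fin 2) R :=
  (l.map fun x => if x.2 then A x.1 else (A x.1).adjugate).prod

/-- substitution in words -/
def sub {L : Type} (S : L → List (L × Bool)) (l : List (L × Bool)) : List (L × Bool) :=
  l.flatMap fun x => if x.2 then S x.1 else FreeGroup.invRev (S x.1)

/-- the generic matrices -/
noncomputable def gen (L k : Type) [CommRing k] (x : L) :
    Matrix (Fin 2) (Fin 2) (MvPolynomial (L × Fin 2 × Fin 2) k) :=
  Matrix.of fun i j => MvPolynomial.X (x, i, j)

end Pool.Agent.MP3f0e40.OS
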