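import Pool.Agent.Lib.MP_3f0e40_al.OS.Defs

set_option autoImplicit false

/-!
# A unitriangular group in which all values of a word are central; relative separation

For `s ≠ 1` in a free group we take the least size in which some integral unitriangular
representation does not kill `s`. Then every value of `s` is concentrated in the corner.
-/

namespace Pool.Agent.MP3f0e40.OS

open scoped commutatorElement

section

variable {k : ℕ}

theorem D00_of {A : Matrix (Fin (k + 1)) (Fin (k + 1)) ℤ} (hA : D 0 1 (A - 1)) : D 0 0 A := by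
  have := (hA.mono (by omega : 0 ≤ 1)).add (D_one 0)
  rwa [sub_add_cancel] at this

theorem D_mul_sub_one {A B : Matrix (Fin (k + 1)) (Fin (k + 1)) ℤ} (hA : D 0 1 (A - 1))
    (hB : D 0 1 (B - 1)) : D 0 1 (A * B - 1) := by
  have h1 : A * B - 1 = (A - 1) * (B - 1) + ((A - 1) + (B - 1)) := by noncomm_ring
  rw [h1]
  exact ((hA.mul hB).mono (by omega)).add (hA.add hB)

theorem eq_zero_of_D {A : Matrix (Fin (k + 1)) (Fin (k + 1)) ℤ} (hA : D 0 (k + 1) A) : A = 0 := by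
  ext i j
  exact zero_dvd_iff.1 (hA i j (by omega))

/-- the integral unitriangular matrices -/
def UT (k : ℕ) : Subgroup (Matrix (Fin (k + 1)) (Fin (k + 1)) ℤ)ˣ where
  carrier := {u | D 0 1 ((u : Matrix (Fin (k + 1)) (Fin (k + 1)) ℤ) - 1) ∧
    D 0 1 (((u⁻¹ : (Matrix (Fin (k + 1)) (Fin (k + 1)) ℤ)ˣ) :
      Matrix (Fin (k + 1)) (Fin (k + 1)) ℤ) - 1)}
  mul_mem' := by
    intro a b ha hb
    simp only [Set.mem_ofPred_eq] at ha hb ⊢
    refine ⟨?_, ?_⟩
    · rw [Units.val_mul]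
      exact D_mul_sub_one ha.1 hb.1
    · rw [mul_inv_rev, Units.val_mul]
      exact D_mul_sub_one hb.2 ha.2
  one_mem' := by
    simp only [Set.mem_ofPred_eq, inv_one, Units.val_one, sub_self]
    exact ⟨D_zero 0 1, D_zero 0 1⟩
  inv_mem' := by
    intro a ha
    simp only [Set.mem_ofPred_eq] at ha ⊢
    rw [inv_inv]
    exact ⟨ha.2, ha.1⟩

theorem trunc_castSucc {A B : Matrix (Fin (k + 1 + 1)) (Fin (k + 1 + 1)) ℤ} (hB : D 0 0 B) :
    (A * B).submatrix Fin.castSucc Fin.castSucc =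
      A.submatrix Fin.castSucc Fin.castSucc * B.submatrix Fin.castSucc Fin.castSucc := by
  ext i j
  rw [Matrix.submatrix_apply, Matrix.mul_apply, Matrix.mul_apply, Fin.sum_univ_castSucc,
    zero_dvd_iff.1 (hB (Fin.last (k + 1)) j.castSucc (by
      have := j.2
      simp only [Fin.val_castSucc, Fin.val_last]
      omega)), mul_zero, add_zero]
  rfl

theorem trunc_succ {A B : Matrix (Fin (k + 1 + 1)) (Fin (k + 1 + 1)) ℤ} (hA : D 0 0 A) :
    (A * B).submatrix Fin.succ Fin.succ =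
      A.submatrix Fin.succ Fin.succ * B.submatrix Fin.succ Fin.succ := by
  ext i j
  rw [Matrix.submatrix_apply, Matrix.mul_apply, Matrix.mul_apply, Fin.sum_univ_succ,
    zero_dvd_iff.1 (hA i.succ 0 (by simp)), zero_mul, zero_add]
  rfl

/-- the upper left truncation of a representation -/
def truncA {Z : Type} (ρ : FreeGroup Z →* Matrix (Fin (k + 1 + 1)) (Fin (k + 1 + 1)) ℤ)
    (hρ : ∀ g, D 0 1 (ρ g - 1)) : FreeGroup Z →* Matrix (Fin (k + 1)) (Fin (k + 1)) ℤ where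
  toFun g := (ρ g).submatrix Fin.castSucc Fin.castSucc
  map_one' := by
    rw [map_one, Matrix.submatrix_one _ (Fin.castSucc_injective _)]
  map_mul' a b := by
    rw [map_mul, trunc_castSucc (D00_of (hρ b))]

/-- the lower right truncation of a representation -/
def truncB {Z : Type} (ρ : FreeGroup Z →* Matrix (Fin (k + 1 + 1)) (Fin (k + 1 + 1)) ℤ)
    (hρ : ∀ g, D 0 1 (ρ g - 1)) : FreeGroup Z →* Matrix (Fin (k + 1)) (Fin (k + 1)) ℤ where
  toFun g := (ρ g).submatrix Fin.succ Fin.succ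
  map_one' := by
    rw [map_one, Matrix.submatrix_one _ (Fin.succ_injective _)]
  map_mul' a b := by
    rw [map_mul, trunc_succ (D00_of (hρ a))]

theorem truncA_D {Z : Type} (ρ : FreeGroup Z →* Matrix (Fin (k + 1 + 1)) (Fin (k + 1 + 1)) ℤ)
    (hρ : ∀ g, D 0 1 (ρ g - 1)) (g : FreeGroup Z) : D 0 1 (truncA ρ hρ g - 1) := by
  intro i j h
  have h1 := hρ g i.castSucc j.castSucc (by simpa using h)
  rw [Matrix.sub_apply] at h1 ⊢
  have h2 : (1 : Matrix (Fin (k + 1)) (Fin (k + 1)) ℤ) i j =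
      (1 : Matrix (Fin (k + 1 + 1)) (Fin (k + 1 + 1)) ℤ) i.castSucc j.castSucc := by
    simp [Matrix.one_apply]
  rw [h2]
  exact h1

theorem truncB_D {Z : Type} (ρ : FreeGroup Z →* Matrix (Fin (k + 1 + 1)) (Fin (k + 1 + 1)) ℤ)
    (hρ : ∀ g, D 0 1 (ρ g - 1)) (g : FreeGroup Z) : D 0 1 (truncB ρ hρ g - 1) := by
  intro i j h
  have h1 := hρ g i.succ j.succ (by simp only [Fin.val_succ]; omega)
  rw [Matrix.sub_apply] at h1 ⊢
  have h2 : (1 : Matrix (Fin (k + 1)) (Fin (k + 1)) ℤ) i j =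
      (1 : Matrix (Fin (k + 1 + 1)) (Fin (k + 1 + 1)) ℤ) i.succ j.succ := by
    simp [Matrix.one_apply]
  rw [h2]
  exact h1

/-- if both truncations kill `s`, only the corner entry of `ρ s - 1` survives -/
theorem corner {Z : Type} (ρ : FreeGroup Z →* Matrix (Fin (k + 1 + 1)) (Fin (k + 1 + 1)) ℤ)
    (hρ : ∀ g, D 0 1 (ρ g - 1)) (s : FreeGroup Z) (hA : truncA ρ hρ s = 1)
    (hB : truncB ρ hρ s = 1) : D 0 (k + 1) (ρ s - 1) := by
  intro i j h
  rcases Nat.lt_or_ge (j : ℕ) (i + 1) with h1 | h1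
  · exact hρ s i j h1
  · rw [Matrix.sub_apply, Matrix.one_apply_ne (fun h2 => by rw [h2] at h1; omega), sub_zero,
      zero_dvd_iff]
    by_cases hi : (i : ℕ) = 0
    · have hj : (j : ℕ) < k + 1 := by omega
      have h2 := congrFun (congrFun hA (⟨i, by omega⟩ : Fin (k + 1))) (⟨j, hj⟩ : Fin (k + 1))
      rw [Matrix.one_apply_ne (fun h3 => by
        have := congrArg Fin.val h3
        simp only at this
        omega)] at h2
      exact h2
    · have h2 := congrFun (congrFun hB (⟨i - 1, by omega⟩ : Fin (k + 1)))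
        (⟨j - 1, by omega⟩ : Fin (k + 1))
      rw [Matrix.one_apply_ne (fun h3 => by
        have := congrArg Fin.val h3
        simp only at this
        omega)] at h2
      have h3 : (⟨i - 1, by omega⟩ : Fin (k + 1)).succ = i := Fin.ext (by simp; omega)
      have h4 : (⟨j - 1, by omega⟩ : Fin (k + 1)).succ = j := Fin.ext (by simp; omega)
      have h5 : ρ s (⟨i - 1, by omega⟩ : Fin (k + 1)).succ (⟨j - 1, by omega⟩ : Fin (k + 1)).succ
          = 0 := h2
      rwa [h3, h4] at h5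

theorem val_zpow {R : Type} [Ring R] (u : Rˣ) (S : R) (hu : (u : R) = 1 + S) (hS : S * S = 0)
    (i : ℤ) : ((u ^ i : Rˣ) : R) = 1 + i • S := by
  have hinv : ((u⁻¹ : Rˣ) : R) = 1 - S := by
    have h1 : (u : R) * (1 - S) = 1 := by
      have h2 : (1 + S) * (1 - S) = 1 - S * S := by noncomm_ring
      rw [hu, h2, hS, sub_zero]
    calc ((u⁻¹ : Rˣ) : R) = (u⁻¹ : Rˣ) * ((u : R) * (1 - S)) := by rw [h1, mul_one]
      _ = 1 - S := by rw [Units.inv_mul_cancel_left]
  induction i using Int.induction_on with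
  | zero => simp
  | succ i ih =>
    rw [zpow_add_one, Units.val_mul, ih, hu, add_mul, mul_add, mul_add, smul_mul_assoc,
      smul_mul_assoc, hS, smul_zero, add_zero, one_mul, one_mul, mul_one, add_smul, one_smul]
    abel
  | pred i ih =>
    rw [zpow_sub_one, Units.val_mul, ih, hinv, add_mul, mul_sub, mul_sub, smul_mul_assoc,
      smul_mul_assoc, hS, smul_zero, sub_zero, one_mul, one_mul, mul_one, sub_smul, one_smul]
    abel

end

section Main

variable {Z : Type}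

/-- there is an integral unitriangular representation of size `k + 1` which does not kill `s` -/
def Big (s : FreeGroup Z) (k : ℕ) : Prop :=
  ∃ ρ : FreeGroup Z →* Matrix (Fin (k + 1)) (Fin (k + 1)) ℤ, (∀ g, D 0 1 (ρ g - 1)) ∧ ρ s ≠ 1

theorem not_big_zero (s : FreeGroup Z) : ¬ Big s 0 := by
  rintro ⟨ρ, hρ, h⟩
  exact h (sub_eq_zero.1 (eq_zero_of_D (hρ s)))

theorem corner_of_not_big {k : ℕ} (s : FreeGroup Z) (hk : ¬ Big s k)
    (ρ : FreeGroup Z →* Matrix (Fin (k + 1 + 1)) (Fin (k + 1 + 1)) ℤ)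
    (hρ : ∀ g, D 0 1 (ρ g - 1)) : D 0 (k + 1) (ρ s - 1) := by
  refine corner ρ hρ s ?_ ?_
  · by_contra h
    exact hk ⟨truncA ρ hρ, truncA_D ρ hρ, h⟩
  · by_contra h
    exact hk ⟨truncB ρ hρ, truncB_D ρ hρ, h⟩

/-- the matrices of a homomorphism to `UT` -/
def mats {k : ℕ} (ρ : FreeGroup Z →* UT k) :
    FreeGroup Z →* Matrix (Fin (k + 1)) (Fin (k + 1)) ℤ :=
  (Units.coeHom _).comp ((UT k).subtype.comp ρ)

theorem mats_D {k : ℕ} (ρ : FreeGroup Z →* UT k) (g : FreeGroup Z) : D 0 1 (mats ρ g - 1) :=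
  (ρ g).2.1

/-- the homomorphism to `UT` of a representation -/
def toUT {k : ℕ} (ρ : FreeGroup Z →* Matrix (Fin (k + 1)) (Fin (k + 1)) ℤ)
    (hρ : ∀ g, D 0 1 (ρ g - 1)) : FreeGroup Z →* UT k :=
  (MonoidHom.toHomUnits ρ).codRestrict (UT k) fun g => ⟨hρ g, by
    rw [← map_inv]
    exact hρ g⁻¹⟩

theorem potent_corner {k : ℕ} (u : UT (k + 1))
    (hu : D 0 (k + 1) (((u : (Matrix (Fin (k + 1 + 1)) (Fin (k + 1 + 1)) ℤ)ˣ) :
      Matrix (Fin (k + 1 + 1)) (Fin (k + 1 + 1)) ℤ) - 1)) (hne : u ≠ 1) : Potent u := by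
  classical
  set S : Matrix (Fin (k + 1 + 1)) (Fin (k + 1 + 1)) ℤ :=
    ((u : (Matrix (Fin (k + 1 + 1)) (Fin (k + 1 + 1)) ℤ)ˣ) :
      Matrix (Fin (k + 1 + 1)) (Fin (k + 1 + 1)) ℤ) - 1 with hS
  have huS : ((u : (Matrix (Fin (k + 1 + 1)) (Fin (k + 1 + 1)) ℤ)ˣ) :
      Matrix (Fin (k + 1 + 1)) (Fin (k + 1 + 1)) ℤ) = 1 + S := by rw [hS]; abel
  have hSS : S * S = 0 := eq_zero_of_D ((hu.mul hu).mono (by omega))
  set e : Fin (k + 1 + 1) := Fin.last (k + 1) with he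
  have hS0 : S 0 e ≠ 0 := by
    intro h
    apply hne
    have h1 : S = 0 := by
      ext i j
      by_cases hij : (j : ℕ) < i + (k + 1)
      · exact zero_dvd_iff.1 (hu i j hij)
      · have hi : i = 0 := Fin.ext (by
          have := j.2
          simp only [Fin.val_zero]
          omega)
        have hj : j = e := Fin.ext (by
          have := j.2
          rw [he, Fin.val_last]
          omega)
        rw [hi, hj, h]
        rfl
    apply Subtype.ext
    apply Units.ext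
    rw [huS, h1, add_zero]
    rfl
  intro b
  set B : Matrix (Fin (k + 1 + 1)) (Fin (k + 1 + 1)) ℤ :=
    ((b : (Matrix (Fin (k + 1 + 1)) (Fin (k + 1 + 1)) ℤ)ˣ) :
      Matrix (Fin (k + 1 + 1)) (Fin (k + 1 + 1)) ℤ) with hB
  have hB00 : B 0 0 = 1 := by
    have h1 := zero_dvd_iff.1 (b.2.1 0 0 (by simp))
    rw [Matrix.sub_apply, Matrix.one_apply_eq, sub_eq_zero] at h1
    exact h1
  have hBS : (B * S) 0 e = S 0 e := by
    rw [Matrix.mul_apply, Finset.sum_eq_single (0 : Fin (k + 1 + 1))]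
    · rw [hB00, one_mul]
    · intro l _ hl
      have hl0 : 0 < (l : ℕ) := Nat.pos_of_ne_zero (fun h => hl (Fin.ext h))
      rw [zero_dvd_iff.1 (hu l e (by rw [he, Fin.val_last]; omega)), mul_zero]
    · intro h
      exact absurd (Finset.mem_univ _) h
  have hval : ∀ i : ℤ, ((((b * u ^ (-i) : UT (k + 1)) :
      (Matrix (Fin (k + 1 + 1)) (Fin (k + 1 + 1)) ℤ)ˣ)) :
      Matrix (Fin (k + 1 + 1)) (Fin (k + 1 + 1)) ℤ) 0 e = B 0 e - i * S 0 e := by
    intro i
    rw [Subgroup.coe_mul, Subgroup.coe_zpow, Units.val_mul, val_zpow _ S huS hSS, mul_add, mul_one,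
      mul_smul_comm, Matrix.add_apply, Matrix.smul_apply, hBS, ← hB]
    simp only [smul_eq_mul]
    ring
  refine ⟨B 0 e / S 0 e, fun n hn => ?_⟩
  let n' : ℕ := n * (S 0 e).natAbs
  have hn' : 0 < n' := Nat.mul_pos hn (Int.natAbs_pos.2 hS0)
  have : NeZero n' := ⟨hn'.ne'⟩
  let f : UT (k + 1) →* (Matrix (Fin (k + 1 + 1)) (Fin (k + 1 + 1)) (ZMod n'))ˣ :=
    (Units.map ((Int.castRingHom (ZMod n')).mapMatrix : _ →+* _).toMonoidHom).comp
      (UT (k + 1)).subtype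
  refine ⟨f.ker, inferInstance, Subgroup.finiteIndex_ker _, fun i hi => ?_⟩
  rw [MonoidHom.mem_ker] at hi
  have h0 : ((f (b * u ^ (-i)) : (Matrix (Fin (k + 1 + 1)) (Fin (k + 1 + 1)) (ZMod n'))ˣ) :
      Matrix (Fin (k + 1 + 1)) (Fin (k + 1 + 1)) (ZMod n')) = 1 := by
    rw [hi, Units.val_one]
  have h1 := congrFun (congrFun h0 0) e
  have h2 : (((((b * u ^ (-i) : UT (k + 1)) :
      (Matrix (Fin (k + 1 + 1)) (Fin (k + 1 + 1)) ℤ)ˣ)) :
      Matrix (Fin (k + 1 + 1)) (Fin (k + 1 + 1)) ℤ) 0 e : ZMod n') = 0 := by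
    refine Eq.trans h1 ?_
    rw [Matrix.one_apply_ne (fun h => by
      have := congrArg Fin.val h
      rw [he, Fin.val_last, Fin.val_zero] at this
      omega)]
  rw [hval i, ZMod.intCast_zmod_eq_zero_iff_dvd] at h2
  have h6 : (S 0 e) ∣ B 0 e := by
    have h7 : (S 0 e) ∣ (n' : ℤ) := by
      show _ ∣ ((n * (S 0 e).natAbs : ℕ) : ℤ)
      push_cast
      exact Dvd.dvd.mul_left (by rw [dvd_abs]) _
    have h8 := h7.trans h2
    exact (Int.dvd_iff_dvd_of_dvd_sub h8).2 (Dvd.intro_left i rfl)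
  obtain ⟨c, hc⟩ := h6
  rw [hc, Int.mul_ediv_cancel_left c hS0]
  rw [hc] at h2
  have h7 : S 0 e * c - i * S 0 e = (c - i) * S 0 e := by ring
  rw [h7] at h2
  have h8 : (n : ℤ) * |S 0 e| ∣ (c - i) * S 0 e := by
    have h9 : ((n' : ℕ) : ℤ) = (n : ℤ) * |S 0 e| := by
      show ((n * (S 0 e).natAbs : ℕ) : ℤ) = _
      push_cast
      rfl
    rwa [h9] at h2
  have h9 : (n : ℤ) * S 0 e ∣ (c - i) * S 0 e := by
    rcases abs_choice (S 0 e) with h | h
    · rwa [h] at h8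
    · rw [h, mul_neg] at h8
      exact (neg_dvd).1 h8
  have h10 := Int.dvd_of_mul_dvd_mul_right hS0 h9
  have h11 : (n : ℤ) ∣ -(c - i) := (dvd_neg).2 h10
  rwa [neg_sub] at h11

theorem exists_potent {Z : Type} (s : FreeGroup Z) (hs : s ≠ 1) :
    ∃ (U : Type) (_ : Group U) (ρ : FreeGroup Z →* U),
      (∀ (ρ' : FreeGroup Z →* U) (x : U), ρ' s * x = x * ρ' s) ∧ Potent (ρ s) := by
  classical
  have hex : ∃ k, Big s k := exists_rep_ne s hs
  obtain ⟨k, hk⟩ : ∃ k, Nat.find hex = k + 1 := by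
    refine Nat.exists_eq_succ_of_ne_zero (fun h => ?_)
    have := Nat.find_spec hex
    rw [h] at this
    exact not_big_zero s this
  obtain ⟨ρ, hρ, hne⟩ : Big s (k + 1) := by
    rw [← hk]
    exact Nat.find_spec hex
  have hnot : ¬ Big s k := Nat.find_min hex (by omega)
  refine ⟨UT (k + 1), inferInstance, toUT ρ hρ, fun ρ' x => ?_, ?_⟩
  · have h1 : D 0 (k + 1) (mats ρ' s - 1) := corner_of_not_big s hnot (mats ρ') (mats_D ρ')
    have h2 : (mats ρ' s - 1) * (((x : (Matrix (Fin (k + 1 + 1)) (Fin (k + 1 + 1)) ℤ)ˣ) :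
        Matrix (Fin (k + 1 + 1)) (Fin (k + 1 + 1)) ℤ) - 1) = 0 :=
      eq_zero_of_D ((h1.mul x.2.1).mono (by omega))
    have h3 : (((x : (Matrix (Fin (k + 1 + 1)) (Fin (k + 1 + 1)) ℤ)ˣ) :
        Matrix (Fin (k + 1 + 1)) (Fin (k + 1 + 1)) ℤ) - 1) * (mats ρ' s - 1) = 0 :=
      eq_zero_of_D ((x.2.1.mul h1).mono (by omega))
    apply Subtype.ext
    apply Units.ext
    show mats ρ' s * _ = _ * mats ρ' s
    rw [sub_mul, mul_sub, mul_sub, one_mul, mul_one, one_mul] at h2 h3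
    have h4 := h2.trans h3.symm
    have h5 : ∀ A B : Matrix (Fin (k + 1 + 1)) (Fin (k + 1 + 1)) ℤ,
        A * B - A - (B - 1) = B * A - B - (A - 1) → A * B = B * A := by
      intro A B h
      have h6 : A * B - B * A = (A * B - A - (B - 1)) - (B * A - B - (A - 1)) := by abel
      rw [← sub_eq_zero, h6, h, sub_self]
    exact h5 _ _ h4
  · refine potent_corner (toUT ρ hρ s) ?_ ?_
    · exact corner_of_not_big s hnot ρ hρ
    · intro h
      apply hne
      have h1 := congrArg (fun x : UT (k + 1) =>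
        ((x : (Matrix (Fin (k + 1 + 1)) (Fin (k + 1 + 1)) ℤ)ˣ) :
          Matrix (Fin (k + 1 + 1)) (Fin (k + 1 + 1)) ℤ)) h
      exact h1

/-- `potent_sep` for elements of a subgroup -/
theorem potent_sep' {G : Type} [Group G] (H : Subgroup G) (hH : Det H) {s : G} (hs : s ∈ H)
    (hp : Potent s) (b : G) (hbH : b ∈ H) (hb : ∀ i : ℤ, b ≠ s ^ i) :
    ∃ N : Subgroup G, N.Normal ∧ N.FiniteIndex ∧ ∀ i : ℤ, b * s ^ (-i) ∉ N := by
  obtain ⟨j, hj⟩ := hp b
  obtain ⟨M, hM1, hM2, hM3⟩ := hH (b * s ^ (-j)) (H.mul_mem hbH (H.zpow_mem hs _)) (fun h => hb j (by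
    rw [zpow_neg, mul_inv_eq_one] at h
    exact h))
  obtain ⟨N, hN1, hN2, hN3⟩ := hj M.index (Nat.pos_of_ne_zero hM2.index_ne_zero)
  refine ⟨M ⊓ N, inferInstance, inferInstance, fun i hi => hM3 ?_⟩
  obtain ⟨c, hc⟩ := hN3 i hi.2
  have h1 : s ^ (i - j) ∈ M := by
    rw [hc, zpow_mul, zpow_natCast]
    exact M.zpow_mem (M.pow_index_mem s) c
  have h2 := M.mul_mem hi.1 h1
  rw [mul_assoc, ← zpow_add] at h2
  have h3 : -i + (i - j) = -j := by ring
  rwa [h3] at h2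

end Main

end Pool.Agent.MP3f0e40.OS
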