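import Pool.Agent.Lib.MP_3f0e40_al.OS.Path
import Pool.Agent.Lib.MP_3f0e40_al.OS.Pot
import Pool.Agent.Lib.MP_3f0e40_al.OS.Univ

set_option autoImplicit false

/-!
# The step of the induction on rows (module ST of project OS)
-/

namespace Pool.Agent.MP3f0e40.OS

open scoped commutatorElement

section

variable {Y : Type} (a : Y) (v s : FreeGroup (Low a))

theorem Det.mono {G : Type} [Group G] {H K : Subgroup G} (h : Det K) (hHK : H ≤ K) : Det H :=
  fun g hg hne => h g (hHK hg) hne

/-- the base group with free letters in the place of the row `0` -/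
abbrev StE : Type := Monoid.Coprod (Gam a v s) (FreeGroup {b : Y // b ≠ a})

/-- the values of the letters of `Low a` in `StE` -/
noncomputable def stL : Low a → StE a v s := by
  classical
  exact join (fun y i => Monoid.Coprod.inl (gg a v s y i))
    (fun y => if h : y ≠ a then Monoid.Coprod.inr (FreeGroup.of ⟨y, h⟩) else 1)

theorem stL_zero (y : Y) (h : y ≠ a) (hp : (y, 0) ≠ (a, 0)) :
    stL a v s ⟨(y, 0), hp⟩ = Monoid.Coprod.inr (FreeGroup.of ⟨y, h⟩) := by
  classical
  exact dif_pos h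

theorem stL_succ (y : Y) (i : ℕ) (hp : (y, i + 1) ≠ (a, 0)) :
    stL a v s ⟨(y, i + 1), hp⟩ = Monoid.Coprod.inl (gg a v s y i) := rfl

/-- the subgroup of `StE` of stage A -/
def stH (n : ℕ) : Subgroup (StE a v s) :=
  Subgroup.closure ((Monoid.Coprod.inl : Gam a v s →* StE a v s) '' (rows a v s n : Set (Gam a v s)) ∪
    Set.range fun b : {b : Y // b ≠ a} =>
      (Monoid.Coprod.inr : FreeGroup {b : Y // b ≠ a} →* StE a v s) (FreeGroup.of b))

theorem inl_mem_stH (n : ℕ) (y : Y) (i : ℕ) (hi : i < n) :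
    (Monoid.Coprod.inl (gg a v s y i) : StE a v s) ∈ stH a v s n :=
  Subgroup.subset_closure (Or.inl ⟨_, Subgroup.subset_closure ⟨y, i, hi, rfl⟩, rfl⟩)

theorem inr_mem_stH (n : ℕ) (b : {b : Y // b ≠ a}) :
    (Monoid.Coprod.inr (FreeGroup.of b) : StE a v s) ∈ stH a v s n :=
  Subgroup.subset_closure (Or.inr ⟨b, rfl⟩)

theorem lift_stL_mem (m n : ℕ) (hn : m ≤ n) (w : FreeGroup (Low a)) (hw : w ∈ low a m) :
    FreeGroup.lift (stL a v s) w ∈ stH a v s n := by
  have h : low a m ≤ (stH a v s n).comap (FreeGroup.lift (stL a v s)) := by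
    unfold low
    rw [Subgroup.closure_le]
    rintro _ ⟨⟨⟨y, i⟩, hp⟩, hi, rfl⟩
    rw [SetLike.mem_coe, Subgroup.mem_comap, FreeGroup.lift_apply_of]
    cases i with
    | zero =>
      have hy : y ≠ a := fun e => hp (by rw [e])
      rw [stL_zero a v s y hy hp]
      exact inr_mem_stH a v s n _
    | succ i =>
      rw [stL_succ]
      have hi' : i + 1 ≤ m := hi
      exact inl_mem_stH a v s n y i (by omega)
  exact h hw

theorem det_stH (n : ℕ) (h : Det (rows a v s n)) : Det (stH a v s n) := by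
  refine path (G := Gam a v s) (I := StE a v s) (J := {b : Y // b ≠ a}) (rows a v s n) h
    (fun _ => 1) (fun _ => Subgroup.one_mem _) ?_ Monoid.Coprod.inl
    (fun b => Monoid.Coprod.inr (FreeGroup.of b)) ?_ ?_
  · intro j b hb hne
    obtain ⟨N, hN, hf, hbN⟩ := h b hb (fun e => hne 0 (by rw [e, zpow_zero]))
    exact ⟨N, hN, hf, fun i => by rwa [one_zpow, mul_one]⟩
  · intro j
    rw [map_one, mul_one, one_mul]
  · intro Ω _ ψ τ _
    exact ⟨Monoid.Coprod.lift ψ (FreeGroup.lift τ), fun b => Monoid.Coprod.lift_apply_inl _ _ _,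
      fun j => by rw [Monoid.Coprod.lift_apply_inr, FreeGroup.lift_apply_of]⟩

theorem potent_stL (hs1 : s ≠ 1) : Potent (FreeGroup.lift (stL a v s) s) := by
  obtain ⟨U, _, ρ, hU, hp⟩ := exists_potent s hs1
  have hne : ∀ (y : Y) (i : ℕ), ((y, i + 1) : Y × ℕ) ≠ (a, 0) := fun y i e =>
    Nat.succ_ne_zero i (congrArg Prod.snd e)
  have hne0 : ∀ b : {b : Y // b ≠ a}, ((b.1, 0) : Y × ℕ) ≠ (a, 0) := fun b e =>
    b.2 (congrArg Prod.fst e)
  obtain ⟨F, hF⟩ := exists_hom_of_central a v s hU
    (fun p => ρ (FreeGroup.of ⟨(p.1, p.2 + 1), hne p.1 p.2⟩))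
  let T : StE a v s →* U := Monoid.Coprod.lift F
    (FreeGroup.lift fun b : {b : Y // b ≠ a} => ρ (FreeGroup.of ⟨(b.1, 0), hne0 b⟩))
  have hT : T.comp (FreeGroup.lift (stL a v s)) = ρ := by
    refine FreeGroup.ext_hom _ _ ?_
    rintro ⟨⟨y, i⟩, hp'⟩
    rw [MonoidHom.comp_apply, FreeGroup.lift_apply_of]
    cases i with
    | zero =>
      have hy : y ≠ a := fun e => hp' (by rw [e])
      rw [stL_zero a v s y hy hp']
      exact (Monoid.Coprod.lift_apply_inr _ _ _).trans (FreeGroup.lift_apply_of)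
    | succ i =>
      rw [stL_succ]
      exact (Monoid.Coprod.lift_apply_inl _ _ _).trans (hF y i)
  refine Potent.comap T ?_
  have h2 : T (FreeGroup.lift (stL a v s) s) = ρ s := DFunLike.congr_fun hT s
  rw [h2]
  exact hp

theorem step (hs1 : s ≠ 1) (m : ℕ) (hv : v ∈ low a m) (hs : s ∈ low a m) (n : ℕ) (hn : m ≤ n)
    (h : Det (rows a v s n)) : Det (rows a v s (n + 1)) := by
  classical
  obtain ⟨sh, hsh⟩ := exists_sh a v s
  let ι : StE a v s →* Gam a v s := Monoid.Coprod.lift sh
    (FreeGroup.lift fun b : {b : Y // b ≠ a} => gg a v s b.1 0)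
  have hι1 : ∀ x, ι (Monoid.Coprod.inl x) = sh x := fun x => Monoid.Coprod.lift_apply_inl _ _ _
  have hι2 : ∀ b : {b : Y // b ≠ a}, ι (Monoid.Coprod.inr (FreeGroup.of b)) = gg a v s b.1 0 :=
    fun b => (Monoid.Coprod.lift_apply_inr _ _ _).trans FreeGroup.lift_apply_of
  have hιL : ∀ w, ι (FreeGroup.lift (stL a v s) w) =
      FreeGroup.lift (fun p : Low a => gg a v s p.1.1 p.1.2) w := by
    have h1 : ι.comp (FreeGroup.lift (stL a v s)) =
        FreeGroup.lift (fun p : Low a => gg a v s p.1.1 p.1.2) := by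
      refine FreeGroup.ext_hom _ _ ?_
      rintro ⟨⟨y, i⟩, hp'⟩
      rw [MonoidHom.comp_apply, FreeGroup.lift_apply_of, FreeGroup.lift_apply_of]
      cases i with
      | zero =>
        have hy : y ≠ a := fun e => hp' (by rw [e])
        rw [stL_zero a v s y hy hp', hι2]
      | succ i =>
        rw [stL_succ, hι1, hsh]
    exact fun w => DFunLike.congr_fun h1 w
  have hsE := lift_stL_mem a v s m n hn s hs
  have hvE := lift_stL_mem a v s m n hn v hv
  have hHE := det_stH a v s n h
  have hpot := potent_stL a v s hs1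
  have key : Det (Subgroup.closure (ι '' (stH a v s n : Set (StE a v s)) ∪
      Set.range fun _ : Unit => rr a v s)) := by
    refine path (G := StE a v s) (I := Gam a v s) (J := Unit) (stH a v s n) hHE
      (fun _ => FreeGroup.lift (stL a v s) s) (fun _ => hsE)
      (fun _ b hb hne => potent_sep' (stH a v s n) hHE hsE hpot b hb hne) ι
      (fun _ => rr a v s) ?_ ?_
    · intro _
      rw [hιL]
      exact rr_comm a v s
    · intro Ω _ ψ τ hτ
      have hψ : ∀ w, ψ (FreeGroup.lift (stL a v s) w) =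
          FreeGroup.lift (join (fun y i => (ψ.comp Monoid.Coprod.inl) (gg a v s y i))
            (fun y => if hy : y ≠ a then ψ (Monoid.Coprod.inr (FreeGroup.of ⟨y, hy⟩)) else 1)) w := by
        have h1 : ψ.comp (FreeGroup.lift (stL a v s)) =
            FreeGroup.lift (join (fun y i => (ψ.comp Monoid.Coprod.inl) (gg a v s y i))
              (fun y => if hy : y ≠ a then ψ (Monoid.Coprod.inr (FreeGroup.of ⟨y, hy⟩))
                else 1)) := by
          refine FreeGroup.ext_hom _ _ ?_
          rintro ⟨⟨y, i⟩, hp'⟩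
          rw [MonoidHom.comp_apply, FreeGroup.lift_apply_of, FreeGroup.lift_apply_of]
          cases i with
          | zero =>
            have hy : y ≠ a := fun e => hp' (by rw [e])
            rw [stL_zero a v s y hy hp']
            change _ = (if hy : y ≠ a then ψ (Monoid.Coprod.inr (FreeGroup.of ⟨y, hy⟩)) else 1)
            rw [dif_pos hy]
          | succ i =>
            rw [stL_succ]
            rfl
        exact fun w => DFunLike.congr_fun h1 w
      obtain ⟨Φ, hΦ1, hΦ2, hΦ3⟩ := up a v s (ψ.comp Monoid.Coprod.inl)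
        (fun y => if hy : y ≠ a then ψ (Monoid.Coprod.inr (FreeGroup.of ⟨y, hy⟩)) else 1) (τ ())
        (by rw [← hψ]; exact hτ ())
      refine ⟨Φ, ?_, fun _ => hΦ3⟩
      have h2 : Φ.comp ι = ψ := by
        refine Monoid.Coprod.hom_ext ?_ ?_
        · refine PresentedGroup.ext ?_
          rintro ⟨y, i⟩
          change Φ (ι (Monoid.Coprod.inl (gg a v s y i))) = ψ (Monoid.Coprod.inl (gg a v s y i))
          rw [hι1, hsh, hΦ1]
          rfl
        · refine FreeGroup.ext_hom _ _ fun b => ?_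
          change Φ (ι (Monoid.Coprod.inr (FreeGroup.of b))) = ψ (Monoid.Coprod.inr (FreeGroup.of b))
          rw [hι2, hΦ2 b.1 b.2]
          exact dif_pos b.2
      exact fun b => DFunLike.congr_fun h2 b
  refine key.mono ?_
  unfold rows
  rw [Subgroup.closure_le]
  rintro _ ⟨y, i, hi, rfl⟩
  rw [SetLike.mem_coe]
  cases i with
  | succ i =>
    refine Subgroup.subset_closure (Or.inl ⟨_, inl_mem_stH a v s n y i (by omega), ?_⟩)
    rw [hι1, hsh]
  | zero =>
    by_cases hy : y = a
    · subst hy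
      have h3 : gg y v s y 0 = rr y v s *
          (FreeGroup.lift (fun p : Low y => gg y v s p.1.1 p.1.2) v)⁻¹ := by
        rw [rr_eq, mul_inv_cancel_right]
      rw [h3]
      refine Subgroup.mul_mem _ (Subgroup.subset_closure (Or.inr ⟨(), rfl⟩))
        (Subgroup.inv_mem _ (Subgroup.subset_closure (Or.inl ⟨_, hvE, hιL v⟩)))
    · refine Subgroup.subset_closure (Or.inl ⟨_, inr_mem_stH a v s n ⟨y, hy⟩, ?_⟩)
      rw [hι2]

end

end Pool.Agent.MP3f0e40.OS
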