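import Pool.Agent.Lib.MP_3f0e40_al.OS.MainAux
import Pool.Agent.Lib.MP_3f0e40_al.OS.Step
import Pool.Agent.Lib.MP_3f0e40_al.OS.Base

set_option autoImplicit false

/-!
# The base group is residually finite
-/

namespace Pool.Agent.MP3f0e40.OS

section

variable {Y : Type} (a : Y) (v s : FreeGroup (Low a))

theorem gam_rf [Finite Y] : Group.ResiduallyFinite (Gam a v s) :=
  gam_rf_of a v s (step a v s) (base a v s)

end

end Pool.Agent.MP3f0e40.OS
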