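import Pool.Agent.Lib.MP_3f0e40_al.OS.Defs

set_option autoImplicit false

/-!
# The induction on the number of rows, with the two main steps as hypotheses
-/

namespace Pool.Agent.MP3f0e40.OS

open scoped commutatorElement

section

variable {Y : Type} (a : Y) (v s : FreeGroup (Low a))

theorem low_mono {m n : ℕ} (h : m ≤ n) : low a m ≤ low a n :=
  Subgroup.closure_mono (Set.image_mono fun _ hp => le_trans hp h)

theorem exists_low (w : FreeGroup (Low a)) : ∃ m, w ∈ low a m := by
  induction w using FreeGroup.induction_on with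
  | C1 => exact ⟨0, (low a 0).one_mem⟩
  | of p => exact ⟨p.1.2, Subgroup.subset_closure ⟨p, le_refl p.1.2, rfl⟩⟩
  | inv_of p ih =>
    obtain ⟨m, hm⟩ := ih
    exact ⟨m, (low a m).inv_mem hm⟩
  | mul x y hx hy =>
    obtain ⟨m, hm⟩ := hx
    obtain ⟨n, hn⟩ := hy
    exact ⟨max m n, (low a _).mul_mem (low_mono a (le_max_left m n) hm)
      (low_mono a (le_max_right m n) hn)⟩

theorem rows_mono {m n : ℕ} (h : m ≤ n) : rows a v s m ≤ rows a v s n :=
  Subgroup.closure_mono (by
    rintro x ⟨y, i, hi, rfl⟩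
    exact ⟨y, i, lt_of_lt_of_le hi h, rfl⟩)

theorem exists_rows (g : Gam a v s) : ∃ n, g ∈ rows a v s n := by
  obtain ⟨w, rfl⟩ := PresentedGroup.mk_surjective _ g
  induction w using FreeGroup.induction_on with
  | C1 => exact ⟨0, by rw [map_one]; exact (rows a v s 0).one_mem⟩
  | of p => exact ⟨p.2 + 1, Subgroup.subset_closure ⟨p.1, p.2, Nat.lt_succ_self _, rfl⟩⟩
  | inv_of p ih =>
    obtain ⟨m, hm⟩ := ih
    exact ⟨m, by rw [map_inv]; exact (rows a v s m).inv_mem hm⟩
  | mul x y hx hy =>
    obtain ⟨m, hm⟩ := hx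
    obtain ⟨n, hn⟩ := hy
    exact ⟨max m n, by
      rw [map_mul]
      exact (rows a v s _).mul_mem (rows_mono a v s (le_max_left m n) hm)
        (rows_mono a v s (le_max_right m n) hn)⟩

theorem gam_rf_of_one : Group.ResiduallyFinite (Gam a v 1) := by
  have h1 : ∀ r ∈ Set.range (rel a v 1), FreeGroup.lift (FreeGroup.of : Y × ℕ → _) r = 1 := by
    rintro r ⟨i, rfl⟩
    simp [rel]
  refine rf_of_injective (PresentedGroup.toGroup h1) ?_ (free_rf (Y × ℕ))
  rw [injective_iff_map_eq_one]
  intro g hg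
  obtain ⟨w, rfl⟩ := PresentedGroup.mk_surjective _ g
  have h2 : (PresentedGroup.toGroup h1) (PresentedGroup.mk _ w) =
      FreeGroup.lift (FreeGroup.of : Y × ℕ → _) w := rfl
  rw [h2, FreeGroup.lift_of_eq_id] at hg
  have h3 : w = 1 := hg
  rw [h3, map_one]

theorem det_zero : Det (rows a v s 0) := by
  intro g hg hne
  exfalso
  apply hne
  have h1 : {x | ∃ y i, i < 0 ∧ x = gg a v s y i} = (∅ : Set (Gam a v s)) := by
    ext x
    simp
  rw [rows, h1, Subgroup.closure_empty, Subgroup.mem_bot] at hg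
  exact hg

theorem rf_of_det (m : ℕ)
    (hst : ∀ n, m ≤ n → Det (rows a v s n) → Det (rows a v s (n + 1)))
    (h : Det (rows a v s m)) : Group.ResiduallyFinite (Gam a v s) := by
  have h1 : ∀ n, m ≤ n → Det (rows a v s n) := by
    intro n hn
    induction n, hn using Nat.le_induction with
    | base => exact h
    | succ n hn ih => exact hst n hn ih
  rw [rf_iff]
  intro g hg
  obtain ⟨n, hn⟩ := exists_rows a v s g
  exact h1 (max m n) (le_max_left m n) g (rows_mono a v s (le_max_right m n) hn) hg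

open Classical in
/-- the retraction killing the letter `x` -/
noncomputable def kil (x : Y × ℕ) : FreeGroup (Low a) →* FreeGroup (Low a) :=
  FreeGroup.lift fun p => if p.1 = x then 1 else FreeGroup.of p

theorem kil_fix (x : Y × ℕ) {w : FreeGroup (Low a)}
    (hw : w ∈ Subgroup.closure (FreeGroup.of '' {p : Low a | p.1 ≠ x})) : kil a x w = w := by
  induction hw using Subgroup.closure_induction with
  | mem w hw =>
    obtain ⟨p, hp, rfl⟩ := hw
    have hp' : p.1 ≠ x := hp
    rw [kil, FreeGroup.lift_apply_of, if_neg hp']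
  | one => exact map_one _
  | mul u w _ _ hu hw => rw [map_mul, hu, hw]
  | inv u _ hu => rw [map_inv, hu]

theorem low_pred [Finite Y] (m : ℕ) {w : FreeGroup (Low a)} (hw : w ∈ low a (m + 1))
    (h : ∀ c : Y, w ∈ Subgroup.closure (FreeGroup.of '' {p : Low a | p.1 ≠ (c, m + 1)})) :
    w ∈ low a m := by
  classical
  have key : ∀ A : Finset Y, w ∈ Subgroup.closure
      (FreeGroup.of '' {p : Low a | p.1.2 ≤ m + 1 ∧ (p.1.2 = m + 1 → p.1.1 ∉ A)}) := by
    intro A
    induction A using Finset.induction with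
    | empty =>
      refine Subgroup.closure_mono (Set.image_mono ?_) hw
      intro p hp
      exact ⟨hp, fun _ => Finset.notMem_empty _⟩
    | insert c A _ ih =>
      have h1 := Subgroup.mem_map_of_mem (kil a (c, m + 1)) ih
      rw [kil_fix a (c, m + 1) (h c), MonoidHom.map_closure] at h1
      refine (Subgroup.closure_le _).2 ?_ h1
      rintro _ ⟨_, ⟨p, hp, rfl⟩, rfl⟩
      by_cases hc : p.1 = (c, m + 1)
      · rw [kil, FreeGroup.lift_apply_of, if_pos hc]
        exact Subgroup.one_mem _
      · rw [kil, FreeGroup.lift_apply_of, if_neg hc]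
        refine Subgroup.subset_closure ⟨p, ⟨hp.1, fun h2 h3 => ?_⟩, rfl⟩
        rcases Finset.mem_insert.1 h3 with h4 | h4
        · exact hc (Prod.ext h4 h2)
        · exact hp.2 h2 h4
  have := Fintype.ofFinite Y
  refine Subgroup.closure_mono (Set.image_mono ?_) (key Finset.univ)
  rintro p ⟨h1, h2⟩
  by_contra h3
  have h4 : ¬ p.1.2 ≤ m := h3
  exact h2 (by omega) (Finset.mem_univ _)

theorem gam_rf_of [Finite Y]
    (hstep : s ≠ 1 → ∀ m, v ∈ low a m → s ∈ low a m → ∀ n, m ≤ n → Det (rows a v s n) →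
      Det (rows a v s (n + 1)))
    (hbase : ∀ m, v ∈ low a (m + 1) → s ∈ low a (m + 1) → ∀ (c : Y) (N : ℕ),
      s ^ N * v⁻¹ ∉ Subgroup.closure (FreeGroup.of '' {p : Low a | p.1 ≠ (c, m + 1)}) →
      Det (rows a v s (m + 1))) : Group.ResiduallyFinite (Gam a v s) := by
  by_cases hs1 : s = 1
  · subst hs1
    exact gam_rf_of_one a v
  have key : ∀ m, v ∈ low a m → s ∈ low a m → Group.ResiduallyFinite (Gam a v s) := by
    intro m
    induction m with
    | zero =>
      intro hv hs
      exact rf_of_det a v s 0 (hstep hs1 0 hv hs) (det_zero a v s)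
    | succ m ih =>
      intro hv hs
      by_cases h : ∃ (c : Y) (N : ℕ), s ^ N * v⁻¹ ∉
          Subgroup.closure (FreeGroup.of '' {p : Low a | p.1 ≠ (c, m + 1)})
      · obtain ⟨c, N, hN⟩ := h
        exact rf_of_det a v s (m + 1) (hstep hs1 (m + 1) hv hs) (hbase m hv hs c N hN)
      · push Not at h
        have h1 : ∀ c : Y, v ∈
            Subgroup.closure (FreeGroup.of '' {p : Low a | p.1 ≠ (c, m + 1)}) := by
          intro c
          have := h c 0
          rwa [pow_zero, one_mul, Subgroup.inv_mem_iff] at this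
        have h2 : ∀ c : Y, s ∈
            Subgroup.closure (FreeGroup.of '' {p : Low a | p.1 ≠ (c, m + 1)}) := by
          intro c
          have := Subgroup.mul_mem _ (h c 1) (h1 c)
          rwa [pow_one, inv_mul_cancel_right] at this
        exact ih (low_pred a m hv h1) (low_pred a m hs h2)
  obtain ⟨m, hm⟩ := exists_low a v
  obtain ⟨n, hn⟩ := exists_low a s
  exact key (max m n) (low_mono a (le_max_left m n) hm) (low_mono a (le_max_right m n) hn)

end

end Pool.Agent.MP3f0e40.OS
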