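import Pool.Agent.Lib.MP_3f0e40_al.OS.Defs

set_option autoImplicit false

/-!
# Separation in a multiple HNN extension with cyclic associated subgroups

The group `I` is given by a base group `G` and letters `z j` commuting with `s j`. No normal form
theorem is used.
-/

namespace Pool.Agent.MP3f0e40.OS

section Path

variable {G I J : Type} [Group G] [Group I]

/-- the value of the word `b 0 * z (l 0) ^ e 0 * b 1 * ... * b n` -/
def pval (ι : G →* I) (z : J → I) (b : ℕ → G) (l : ℕ → J) (e : ℕ → Bool) : ℕ → I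
  | 0 => ι (b 0)
  | n + 1 => pval ι z b l e n * sgn (z (l n)) (e n) * ι (b (n + 1))

/-- reduced words -/
def PRed (s : J → G) (b : ℕ → G) (l : ℕ → J) (e : ℕ → Bool) (n : ℕ) : Prop :=
  ∀ k, k + 1 < n → l k = l (k + 1) → e k ≠ e (k + 1) → ∀ i : ℤ, b (k + 1) ≠ s (l k) ^ i

theorem pval_congr (ι : G →* I) (z : J → I) {b b' : ℕ → G} {l l' : ℕ → J} {e e' : ℕ → Bool}
    (n : ℕ) (hb : ∀ k ≤ n, b k = b' k) (hl : ∀ k < n, l k = l' k) (he : ∀ k < n, e k = e' k) :
    pval ι z b l e n = pval ι z b' l' e' n := by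
  induction n with
  | zero => simp [pval, hb 0 le_rfl]
  | succ n ih =>
    rw [pval, pval, ih (fun k hk => hb k (by omega)) (fun k hk => hl k (by omega))
      (fun k hk => he k (by omega)), he n (by omega), hl n (by omega), hb (n + 1) le_rfl]

/-- the elements with a reduced form -/
def PHas (ι : G →* I) (z : J → I) (H : Subgroup G) (s : J → G) (g : I) : Prop :=
  ∃ n b l e, (∀ k, b k ∈ H) ∧ PRed s b l e n ∧ pval ι z b l e n = g

theorem phas_mul_base (ι : G →* I) (z : J → I) (H : Subgroup G) (s : J → G) (g : I) (x : G)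
    (hx : x ∈ H) (h : PHas ι z H s g) : PHas ι z H s (g * ι x) := by
  obtain ⟨n, b, l, e, hb, hr, rfl⟩ := h
  refine ⟨n, Function.update b n (b n * x), l, e, fun k => ?_, fun k hk h1 h2 i => ?_, ?_⟩
  · by_cases hk : k = n
    · subst hk
      rw [Function.update_self]
      exact H.mul_mem (hb k) hx
    · rw [Function.update_of_ne hk]
      exact hb k
  · rw [Function.update_of_ne (by omega)]
    exact hr k hk h1 h2 i
  · cases n with
    | zero => simp [pval]
    | succ n =>
      rw [pval, pval, Function.update_self, map_mul]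
      simp only [mul_assoc]
      congr 1
      exact pval_congr ι z n (fun k hk => by rw [Function.update_of_ne (by omega)])
        (fun _ _ => rfl) (fun _ _ => rfl)

theorem sgn_mul_sgn (t : I) {e ε : Bool} (h : e ≠ ε) : sgn t e * sgn t ε = 1 := by
  cases e <;> cases ε <;> simp [sgn] at h ⊢

theorem sgn_commute (t x : I) (h : Commute t x) (e : Bool) : Commute (sgn t e) x := by
  cases e
  · exact h.inv_left
  · exact h

theorem phas_mul_sgn (ι : G →* I) (z : J → I) (H : Subgroup G) (s : J → G) (hs : ∀ j, s j ∈ H)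
    (hrel : ∀ j, z j * ι (s j) = ι (s j) * z j) (g : I) (j : J) (ε : Bool)
    (h : PHas ι z H s g) : PHas ι z H s (g * sgn (z j) ε) := by
  obtain ⟨n, b, l, e, hb, hr, rfl⟩ := h
  have happ : (∀ m, n = m + 1 → l m = j → e m ≠ ε → ∀ i : ℤ, b (m + 1) ≠ s j ^ i) →
      PHas ι z H s (pval ι z b l e n * sgn (z j) ε) := by
    intro hm
    refine ⟨n + 1, Function.update b (n + 1) 1, Function.update l n j, Function.update e n ε,
      fun k => ?_, ?_, ?_⟩
    · by_cases hk : k = n + 1
      · subst hk
        rw [Function.update_self]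
        exact H.one_mem
      · rw [Function.update_of_ne hk]
        exact hb k
    · intro k hk
      rcases Nat.lt_or_ge (k + 1) n with h1 | h1
      · have := hr k h1
        rw [Function.update_of_ne (by omega), Function.update_of_ne (by omega),
          Function.update_of_ne (by omega), Function.update_of_ne (by omega),
          Function.update_of_ne (by omega)]
        exact this
      · have h2 : n = k + 1 := by omega
        subst h2
        rw [Function.update_self, Function.update_self, Function.update_of_ne (by omega : k ≠ k + 1),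
          Function.update_of_ne (by omega : k ≠ k + 1),
          Function.update_of_ne (by omega : k + 1 ≠ k + 1 + 1)]
        intro h3 h4 i
        rw [h3]
        exact hm k rfl h3 h4 i
    · rw [pval, Function.update_self, Function.update_self, Function.update_self, map_one, mul_one]
      congr 1
      exact pval_congr ι z n (fun k hk => by rw [Function.update_of_ne (by omega)])
        (fun k hk => by rw [Function.update_of_ne (by omega)])
        (fun k hk => by rw [Function.update_of_ne (by omega)])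
  cases n with
  | zero => exact happ (fun m hm => by omega)
  | succ m =>
    by_cases h1 : l m = j ∧ e m ≠ ε ∧ ∃ i : ℤ, b (m + 1) = s j ^ i
    · obtain ⟨h1, h2, i, h3⟩ := h1
      have h4 : sgn (z (l m)) (e m) * ι (b (m + 1)) * sgn (z j) ε = ι (s j ^ i) := by
        have hc : Commute (sgn (z j) ε) (ι (s j ^ i)) := by
          rw [map_zpow]
          exact (sgn_commute _ _ (hrel j) ε).zpow_right i
        rw [h1, h3, mul_assoc, ← hc.eq, ← mul_assoc, sgn_mul_sgn _ h2, one_mul]
      have h5 : PHas ι z H s (pval ι z b l e m) := ⟨m, b, l, e, hb, fun k hk => hr k (by omega), rfl⟩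
      have h6 := phas_mul_base ι z H s _ (s j ^ i) (H.zpow_mem (hs j) i) h5
      have h7 : pval ι z b l e m * ι (s j ^ i) = pval ι z b l e (m + 1) * sgn (z j) ε := by
        rw [← h4, pval]
        simp only [mul_assoc]
      rwa [← h7]
    · refine happ (fun m' hm' => ?_)
      obtain rfl : m = m' := by omega
      exact fun h3 h4 i h5 => h1 ⟨h3, h4, i, h5⟩

theorem phas_all [Nonempty J] (ι : G →* I) (z : J → I) (H : Subgroup G) (s : J → G)
    (hs : ∀ j, s j ∈ H) (hrel : ∀ j, z j * ι (s j) = ι (s j) * z j) (g : I)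
    (hg : g ∈ Subgroup.closure (ι '' H ∪ Set.range z)) : PHas ι z H s g := by
  induction hg using Subgroup.closure_induction_right with
  | one => exact ⟨0, fun _ => 1, fun _ => Classical.arbitrary J, fun _ => true,
      fun _ => H.one_mem, fun k hk => by omega, by simp [pval]⟩
  | mul_right x hx y hy ih =>
    rcases hy with ⟨b, hb, rfl⟩ | ⟨j, rfl⟩
    · exact phas_mul_base ι z H s x b hb ih
    · exact phas_mul_sgn ι z H s hs hrel x j true ih
  | mul_inv_cancel x hx y hy ih =>
    rcases hy with ⟨b, hb, rfl⟩ | ⟨j, rfl⟩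
    · rw [← map_inv]
      exact phas_mul_base ι z H s x b⁻¹ (H.inv_mem hb) ih
    · exact phas_mul_sgn ι z H s hs hrel x j false ih

theorem exists_common_nat {B : Type} [Group B] {P : ℕ → Subgroup B → Prop}
    (hanti : ∀ k N N', N' ≤ N → P k N → P k N')
    (h : ∀ k, ∃ N : Subgroup B, N.Normal ∧ N.FiniteIndex ∧ P k N) (n : ℕ) :
    ∃ N : Subgroup B, N.Normal ∧ N.FiniteIndex ∧ ∀ k < n, P k N := by
  induction n with
  | zero => exact ⟨⊤, inferInstance, inferInstance, fun k hk => by omega⟩
  | succ n ih =>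
    obtain ⟨N, h1, h2, h3⟩ := ih
    obtain ⟨N', h1', h2', h3'⟩ := h n
    refine ⟨N ⊓ N', inferInstance, inferInstance, fun k hk => ?_⟩
    rcases Nat.lt_succ_iff_lt_or_eq.1 hk with hk | rfl
    · exact hanti _ _ _ inf_le_left (h3 k hk)
    · exact hanti _ _ _ inf_le_right h3'

/-- a homomorphism to a finite group in which an element survives -/
theorem det_of_hom {I Q : Type} [Group I] [Group Q] [Finite Q] (Φ : I →* Q) (g : I)
    (h : Φ g ≠ 1) : ∃ N : Subgroup I, N.Normal ∧ N.FiniteIndex ∧ g ∉ N := by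
  refine ⟨Φ.ker, inferInstance, ?_, fun hg => h (MonoidHom.mem_ker.1 hg)⟩
  have : (Subgroup.comap Φ ⊥).FiniteIndex := finIdx_comap Φ ⊥
  exact this

theorem path (H : Subgroup G) (hH : Det H) (s : J → G)
    (hs : ∀ j, s j ∈ H)
    (hsep : ∀ j, ∀ b ∈ H, (∀ i : ℤ, b ≠ s j ^ i) →
      ∃ N : Subgroup G, N.Normal ∧ N.FiniteIndex ∧ ∀ i : ℤ, b * s j ^ (-i) ∉ N)
    (ι : G →* I) (z : J → I) (hrel : ∀ j, z j * ι (s j) = ι (s j) * z j)
    (huniv : ∀ (Ω : Type) [Finite Ω] (ψ : G →* Equiv.Perm Ω) (τ : J → Equiv.Perm Ω),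
      (∀ j, τ j * ψ (s j) = ψ (s j) * τ j) →
        ∃ Φ : I →* Equiv.Perm Ω, (∀ b, Φ (ι b) = ψ b) ∧ ∀ j, Φ (z j) = τ j) :
    Det (Subgroup.closure (ι '' H ∪ Set.range z)) := by
  classical
  intro g hgc hg
  rcases isEmpty_or_nonempty J with hJ | hJ
  · -- no letters
    have h1 : g ∈ H.map ι := by
      have h2 : Subgroup.closure (ι '' H ∪ Set.range z) ≤ H.map ι := by
        rw [Subgroup.closure_le]
        rintro x (⟨b, hb, rfl⟩ | ⟨j, rfl⟩)
        · exact ⟨b, hb, rfl⟩
        · exact isEmptyElim j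
      exact h2 hgc
    obtain ⟨b, hb, rfl⟩ := h1
    obtain ⟨N, hN, hfin, hbN⟩ := hH b hb (fun h => hg (by rw [h, map_one]))
    have : Finite (G ⧸ N) := inferInstance
    obtain ⟨Φ, hΦ, -⟩ := huniv ((G ⧸ N) × Fin 1) (cop N 1) (fun j => isEmptyElim j)
      (fun j => isEmptyElim j)
    refine det_of_hom Φ _ (fun h => hbN ?_)
    rw [hΦ] at h
    have h2 := DFunLike.congr_fun h (((1 : G) : G ⧸ N), (0 : Fin 1))
    rw [cop_apply, Equiv.Perm.one_apply, Prod.mk.injEq, smul_eq_iff] at h2
    exact h2.1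
  obtain ⟨n, b, l, e, hb, hr, rfl⟩ := phas_all ι z H s hs hrel g hgc
  obtain ⟨N, hN, hfin, hT⟩ := exists_common_nat
    (P := fun k N => (b k ≠ 1 → b k ∉ N) ∧ ((∀ i : ℤ, b (k + 1) ≠ s (l k) ^ i) →
      ∀ i : ℤ, b (k + 1) * s (l k) ^ (-i) ∉ N))
    (fun k N N' hN hP => ⟨fun hb hb' => hP.1 hb (hN hb'), fun hb i hi => hP.2 hb i (hN hi)⟩)
    (fun k => by
      have hA : ∃ N : Subgroup G, N.Normal ∧ N.FiniteIndex ∧ (b k ≠ 1 → b k ∉ N) := by
        by_cases h : b k = 1
        · exact ⟨⊤, inferInstance, inferInstance, fun h' => absurd h h'⟩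
        · obtain ⟨N, h1, h2, h3⟩ := hH (b k) (hb k) h
          exact ⟨N, h1, h2, fun _ => h3⟩
      have hB : ∃ N : Subgroup G, N.Normal ∧ N.FiniteIndex ∧
          ((∀ i : ℤ, b (k + 1) ≠ s (l k) ^ i) → ∀ i : ℤ, b (k + 1) * s (l k) ^ (-i) ∉ N) := by
        by_cases h : ∀ i : ℤ, b (k + 1) ≠ s (l k) ^ i
        · obtain ⟨N, h1, h2, h3⟩ := hsep (l k) (b (k + 1)) (hb _) h
          exact ⟨N, h1, h2, fun _ => h3⟩
        · exact ⟨⊤, inferInstance, inferInstance, fun h' => absurd h' h⟩
      obtain ⟨N, h1, h2, h3⟩ := hA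
      obtain ⟨N', h1', h2', h3'⟩ := hB
      exact ⟨N ⊓ N', inferInstance, inferInstance, fun hb hb' => h3 hb hb'.1,
        fun hb i hi => h3' hb i hi.2⟩) (n + 1)
  have : Finite (G ⧸ N) := inferInstance
  let Ω := (G ⧸ N) × Fin (n + 1)
  let ψ : G →* Equiv.Perm Ω := cop N (n + 1)
  let x : Fin n → Ω := fun k => if e k then (((b (k + 1) : G) : G ⧸ N), k.succ)
    else (((1 : G) : G ⧸ N), k.castSucc)
  let y : Fin n → Ω := fun k => if e k then (((1 : G) : G ⧸ N), k.castSucc)
    else (((b (k + 1) : G) : G ⧸ N), k.succ)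
  have hfix : ∀ (a : G) (v : Ω), ψ a v = v ↔ a ∈ N := by
    rintro a ⟨q, i⟩
    rw [show ψ a (q, i) = (a • q, i) from rfl, Prod.mk.injEq]
    simp [smul_eq_iff]
  -- the basic incompatibility
  have key : ∀ (k : ℕ), k ≤ n → (∀ i : ℤ, b (k + 1) ≠ s (l k) ^ i) →
      (∀ i : ℤ, (s (l k) ^ i) • ((b (k + 1) : G) : G ⧸ N) ≠ ((1 : G) : G ⧸ N)) ∧
      (∀ i : ℤ, (s (l k) ^ i) • ((1 : G) : G ⧸ N) ≠ ((b (k + 1) : G) : G ⧸ N)) := by
    intro k hk h
    refine ⟨fun i hi => ?_, fun i hi => ?_⟩
    · rw [MulAction.Quotient.smul_coe, smul_eq_mul, eq_comm, QuotientGroup.eq, inv_one,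
        one_mul] at hi
      have h1 := notMem_comm hi
      have h2 := (hT k (by omega)).2 h (-i)
      rw [neg_neg] at h2
      exact h2 h1
    · rw [MulAction.Quotient.smul_coe, smul_eq_mul, mul_one, QuotientGroup.eq] at hi
      have h2 := (hT k (by omega)).2 h i
      rw [zpow_neg] at h2
      exact h2 (notMem_comm hi)
  -- two points with an element of the cyclic group between them
  have hxx : ∀ (j k : Fin n) (i : ℤ), l j = l k →
      ψ (s (l j) ^ i) (x j) = x k → j = k := by
    intro j k i hjk h'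
    by_cases hj : e j = true <;> by_cases hk : e k = true
    · simp only [x, hj, hk, if_true] at h'
      rw [show ψ (s (l j) ^ i) (((b (j + 1) : G) : G ⧸ N), j.succ) =
        ((s (l j) ^ i) • ((b (j + 1) : G) : G ⧸ N), j.succ) from rfl, Prod.mk.injEq] at h'
      exact Fin.succ_injective _ h'.2
    · simp only [x, hj, hk, if_true, if_false, Bool.false_eq_true] at h'
      rw [show ψ (s (l j) ^ i) (((b (j + 1) : G) : G ⧸ N), j.succ) =
        ((s (l j) ^ i) • ((b (j + 1) : G) : G ⧸ N), j.succ) from rfl, Prod.mk.injEq] at h'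
      have h2 : (j : ℕ) + 1 = k := by
        have := congrArg Fin.val h'.2
        simpa using this
      have h3 := hr j (by have := k.2; omega) (by rw [h2]; exact hjk)
        (by rw [h2, hj]; exact fun h => hk h.symm)
      exact absurd h'.1 ((key j (by have := j.2; omega) h3).1 i)
    · simp only [x, hj, hk, if_true, if_false, Bool.false_eq_true] at h'
      rw [show ψ (s (l j) ^ i) (((1 : G) : G ⧸ N), j.castSucc) =
        ((s (l j) ^ i) • ((1 : G) : G ⧸ N), j.castSucc) from rfl, Prod.mk.injEq] at h'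
      have h2 : (k : ℕ) + 1 = j := by
        have := congrArg Fin.val h'.2
        simpa using this.symm
      have h3 := hr k (by have := j.2; omega) (by rw [h2]; exact hjk.symm)
        (by rw [h2, hk]; exact fun h => hj h.symm)
      rw [hjk] at h'
      exact absurd h'.1 ((key k (by have := k.2; omega) h3).2 i)
    · simp only [x, hj, hk, if_false, Bool.false_eq_true] at h'
      rw [show ψ (s (l j) ^ i) (((1 : G) : G ⧸ N), j.castSucc) =
        ((s (l j) ^ i) • ((1 : G) : G ⧸ N), j.castSucc) from rfl, Prod.mk.injEq] at h'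
      exact Fin.castSucc_injective _ h'.2
  have hyy : ∀ (j k : Fin n) (i : ℤ), l j = l k →
      ψ (s (l j) ^ i) (y j) = y k → j = k := by
    intro j k i hjk h'
    by_cases hj : e j = true <;> by_cases hk : e k = true
    · simp only [y, hj, hk, if_true] at h'
      rw [show ψ (s (l j) ^ i) (((1 : G) : G ⧸ N), j.castSucc) =
        ((s (l j) ^ i) • ((1 : G) : G ⧸ N), j.castSucc) from rfl, Prod.mk.injEq] at h'
      exact Fin.castSucc_injective _ h'.2
    · simp only [y, hj, hk, if_true, if_false, Bool.false_eq_true] at h'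
      rw [show ψ (s (l j) ^ i) (((1 : G) : G ⧸ N), j.castSucc) =
        ((s (l j) ^ i) • ((1 : G) : G ⧸ N), j.castSucc) from rfl, Prod.mk.injEq] at h'
      have h2 : (k : ℕ) + 1 = j := by
        have := congrArg Fin.val h'.2
        simpa using this.symm
      have h3 := hr k (by have := j.2; omega) (by rw [h2]; exact hjk.symm)
        (by rw [h2, hj]; exact hk)
      rw [hjk] at h'
      exact absurd h'.1 ((key k (by have := k.2; omega) h3).2 i)
    · simp only [y, hj, hk, if_true, if_false, Bool.false_eq_true] at h'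
      rw [show ψ (s (l j) ^ i) (((b (j + 1) : G) : G ⧸ N), j.succ) =
        ((s (l j) ^ i) • ((b (j + 1) : G) : G ⧸ N), j.succ) from rfl, Prod.mk.injEq] at h'
      have h2 : (j : ℕ) + 1 = k := by
        have := congrArg Fin.val h'.2
        simpa using this
      have h3 := hr j (by have := k.2; omega) (by rw [h2]; exact hjk)
        (by rw [h2, hk]; exact hj)
      exact absurd h'.1 ((key j (by have := j.2; omega) h3).1 i)
    · simp only [y, hj, hk, if_false, Bool.false_eq_true] at h'
      rw [show ψ (s (l j) ^ i) (((b (j + 1) : G) : G ⧸ N), j.succ) =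
        ((s (l j) ^ i) • ((b (j + 1) : G) : G ⧸ N), j.succ) from rfl, Prod.mk.injEq] at h'
      exact Fin.succ_injective _ h'.2
  have hτ : ∀ j : J, ∃ τ : Equiv.Perm Ω, τ * ψ (s j) = ψ (s j) * τ ∧
      ∀ k : Fin n, l k = j → τ (x k) = y k := by
    intro j
    obtain ⟨τ, hτ1, hτ2⟩ := ext_equivariant (J := {k : Fin n // l k = j})
      (ψ.comp (zpowersHom G (s j))) (ψ.comp (zpowersHom G (s j)))
      (fun c v w => by
        show ψ _ v = v ↔ ψ _ w = w
        rw [hfix, hfix]) (fun k => x k.1) (fun k => y k.1)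
      (by
        rintro ⟨p, hp⟩ ⟨q, hq⟩ c h
        rw [Subtype.mk.injEq]
        refine hxx p q (Multiplicative.toAdd c) (hp.trans hq.symm) ?_
        rw [hp, ← zpowersHom_apply]
        exact h)
      (by
        rintro ⟨p, hp⟩ ⟨q, hq⟩ c h
        rw [Subtype.mk.injEq]
        refine hyy p q (Multiplicative.toAdd c) (hp.trans hq.symm) ?_
        rw [hp, ← zpowersHom_apply]
        exact h)
    refine ⟨τ, ?_, fun k hk => hτ2 ⟨k, hk⟩⟩
    ext1 v
    have h := hτ1 (Multiplicative.ofAdd 1) v
    rw [MonoidHom.comp_apply, zpowersHom_apply, toAdd_ofAdd, zpow_one] at h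
    exact h
  choose τ hτ1 hτ2 using hτ
  obtain ⟨Φ, hΦ1, hΦ2⟩ := huniv Ω ψ τ hτ1
  refine det_of_hom Φ _ ?_
  have hpath : ∀ k (hk : k ≤ n), Φ (pval ι z b l e k) (((1 : G) : G ⧸ N), ⟨k, by omega⟩) =
      (((b 0 : G) : G ⧸ N), (0 : Fin (n + 1))) := by
    intro k
    induction k with
    | zero =>
      intro _
      rw [pval, hΦ1]
      show (b 0 • ((1 : G) : G ⧸ N), _) = _
      rw [MulAction.Quotient.smul_coe, smul_eq_mul, mul_one]
      rfl
    | succ k ih =>
      intro hk
      rw [pval, map_mul, map_mul, hΦ1, Equiv.Perm.mul_apply, Equiv.Perm.mul_apply]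
      have h1 : ψ (b (k + 1)) (((1 : G) : G ⧸ N), (⟨k + 1, by omega⟩ : Fin (n + 1))) =
          (((b (k + 1) : G) : G ⧸ N), (⟨k + 1, by omega⟩ : Fin (n + 1))) := by
        show (b (k + 1) • ((1 : G) : G ⧸ N), _) = _
        rw [MulAction.Quotient.smul_coe, smul_eq_mul, mul_one]
        rfl
      rw [h1]
      have h2 : Φ (sgn (z (l k)) (e k))
          (((b (k + 1) : G) : G ⧸ N), (⟨k + 1, by omega⟩ : Fin (n + 1))) =
          (((1 : G) : G ⧸ N), (⟨k, by omega⟩ : Fin (n + 1))) := by
        have h3 := hτ2 (l k) ⟨k, by omega⟩ rfl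
        by_cases he : e k = true
        · simp only [x, y, he, if_true] at h3
          rw [he]
          show Φ (z (l k)) _ = _
          rw [hΦ2]
          exact h3
        · simp only [x, y, he, if_false, Bool.false_eq_true] at h3
          have he' : e k = false := by simpa using he
          rw [he']
          show Φ (z (l k))⁻¹ _ = _
          rw [map_inv, hΦ2, Equiv.Perm.inv_eq_iff_eq]
          exact h3.symm
      rw [h2]
      exact ih (by omega)
  have hfinal := hpath n le_rfl
  intro hcon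
  rw [hcon, Equiv.Perm.one_apply, Prod.mk.injEq] at hfinal
  have hn : n = 0 := by
    have := congrArg Fin.val hfinal.2
    simpa using this
  subst hn
  apply hg
  have h1 : b 0 ∈ N := by
    have := hfinal.1
    rw [QuotientGroup.eq, inv_one, one_mul] at this
    exact this
  have h2 : b 0 = 1 := by
    by_contra h
    exact (hT 0 (by omega)).1 h h1
  rw [pval, h2, map_one]

end Path

end Pool.Agent.MP3f0e40.OS
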