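import Mathlib

set_option autoImplicit false

/-!
# No element of degree below `Q` in the ideal `(X_i ^ Q - f_i)` (module PA of project OS)
-/

namespace Pool.Agent.MP3f0e40.OS

namespace PolyA

open MvPolynomial

variable {K σ : Type} [Field K]

/-- polynomials all whose monomials have degree below `n` -/
def W (K σ : Type) [Field K] (n : ℕ) : Submodule K (MvPolynomial σ K) where
  carrier := {h | ∀ m : σ →₀ ℕ, n ≤ m.degree → coeff m h = 0}
  zero_mem' := by intro m _; simp
  add_mem' := by
    intro a b ha hb m hm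
    rw [coeff_add, ha m hm, hb m hm, add_zero]
  smul_mem' := by
    intro c a ha m hm
    rw [coeff_smul, ha m hm, smul_zero]

theorem mem_W {n : ℕ} {h : MvPolynomial σ K} :
    h ∈ W K σ n ↔ ∀ m : σ →₀ ℕ, n ≤ m.degree → coeff m h = 0 := Iff.rfl

theorem W_mono {n n' : ℕ} (hn : n ≤ n') : W K σ n ≤ W K σ n' :=
  fun _ hh m hm => hh m (hn.trans hm)

theorem W_of_totalDegree {n : ℕ} {h : MvPolynomial σ K} (hd : h.totalDegree < n) :
    h ∈ W K σ n := by
  intro m hm
  apply coeff_eq_zero_of_totalDegree_lt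
  have : ∑ i ∈ m.support, m i = m.degree := rfl
  omega

theorem W_mul {a b : ℕ} {h₁ h₂ : MvPolynomial σ K} (h₁a : h₁ ∈ W K σ a)
    (h₂b : h₂ ∈ W K σ (b + 1)) : h₁ * h₂ ∈ W K σ (a + b) := by
  classical
  intro m hm
  rw [coeff_mul]
  apply Finset.sum_eq_zero
  rintro ⟨m₁, m₂⟩ hmm
  rw [Finset.HasAntidiagonal.mem_antidiagonal] at hmm
  dsimp only at hmm ⊢
  have hdeg : m₁.degree + m₂.degree = m.degree := by rw [← hmm, map_add]
  by_cases h : a ≤ m₁.degree
  · rw [h₁a m₁ h, zero_mul]
  · rw [h₂b m₂ (by omega), mul_zero]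

/-- `A` is the monomial `α` plus terms of lower degree -/
def T (α : σ →₀ ℕ) (A : MvPolynomial σ K) : Prop := A - monomial α 1 ∈ W K σ α.degree

theorem mon_mem (α : σ →₀ ℕ) : (monomial α (1 : K)) ∈ W K σ (α.degree + 1) := by
  classical
  intro m hm
  rw [coeff_monomial, if_neg]
  rintro rfl
  omega

theorem T.mem {α : σ →₀ ℕ} {A : MvPolynomial σ K} (h : T α A) : A ∈ W K σ (α.degree + 1) := by
  have := (W K σ (α.degree + 1)).add_mem (W_mono (Nat.le_succ _) h) (mon_mem α)
  simpa using this

theorem T.mul {α β : σ →₀ ℕ} {A B : MvPolynomial σ K} (hA : T α A) (hB : T β B) :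
    T (α + β) (A * B) := by
  have h1 : A * B - monomial (α + β) (1 : K) =
      (A - monomial α 1) * B + (B - monomial β 1) * monomial α 1 := by
    have : monomial (α + β) (1 : K) = monomial α 1 * monomial β 1 := by
      rw [monomial_mul, one_mul]
    rw [this]
    ring
  rw [T, h1, map_add]
  refine (W K σ _).add_mem (W_mul hA hB.mem) ?_
  rw [add_comm]
  exact W_mul hB (mon_mem α)

theorem T.one : T (0 : σ →₀ ℕ) (1 : MvPolynomial σ K) := by
  rw [T, monomial_zero', C_1, sub_self]
  exact (W K σ _).zero_mem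

theorem T.pow {α : σ →₀ ℕ} {A : MvPolynomial σ K} (hA : T α A) (n : ℕ) : T (n • α) (A ^ n) := by
  induction n with
  | zero => rw [zero_smul, pow_zero]; exact T.one
  | succ n ih => rw [succ_nsmul, pow_succ]; exact ih.mul hA

theorem T.prod {ι : Type} (s : Finset ι) (α : ι → σ →₀ ℕ) (A : ι → MvPolynomial σ K)
    (h : ∀ i, T (α i) (A i)) : T (∑ i ∈ s, α i) (∏ i ∈ s, A i) := by
  classical
  induction s using Finset.induction_on with
  | empty => simpa using T.one
  | insert a s ha ih =>
    rw [Finset.sum_insert ha, Finset.prod_insert ha]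
    exact (h a).mul ih

section

variable [Fintype σ] (Q : ℕ) (f : σ → MvPolynomial σ K)

/-- the value of `Lam` at a monomial -/
noncomputable def lm (m : σ →₀ ℕ) : MvPolynomial σ K :=
  ∏ i, (X i ^ Q - f i) ^ (m i / Q) * X i ^ (m i % Q)

theorem T_lm (hf : ∀ i, (f i).totalDegree < Q) (m : σ →₀ ℕ) : T m (lm Q f m) := by
  classical
  have h := T.prod Finset.univ
    (fun i => (m i / Q) • Finsupp.single i Q + (m i % Q) • Finsupp.single i 1)
    (fun i => (X i ^ Q - f i) ^ (m i / Q) * X i ^ (m i % Q)) (fun i => by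
      refine T.mul (T.pow ?_ _) (T.pow ?_ _)
      · rw [T, X_pow_eq_monomial, sub_right_comm, sub_self, zero_sub, Finsupp.degree_single]
        exact (W K σ Q).neg_mem (W_of_totalDegree (hf i))
      · rw [T, X, sub_self]
        exact (W K σ _).zero_mem)
  have hm : ∑ i, ((m i / Q) • Finsupp.single i Q + (m i % Q) • Finsupp.single i 1) = m := by
    conv_rhs => rw [← Finsupp.univ_sum_single m]
    apply Finset.sum_congr rfl
    intro i _
    rw [Finsupp.smul_single, Finsupp.smul_single, ← Finsupp.single_add]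
    congr 1
    rw [smul_eq_mul, smul_eq_mul, mul_one, mul_comm]
    exact Nat.div_add_mod _ _
  rw [hm] at h
  exact h

theorem lm_add (hQ : 0 < Q) (i : σ) (m : σ →₀ ℕ) :
    lm Q f (Finsupp.single i Q + m) = (X i ^ Q - f i) * lm Q f m := by
  classical
  have h : ∀ j, (X j ^ Q - f j) ^ ((Finsupp.single i Q + m) j / Q) *
      X j ^ ((Finsupp.single i Q + m) j % Q) = (if j = i then (X i ^ Q - f i) else 1) *
      ((X j ^ Q - f j) ^ (m j / Q) * X j ^ (m j % Q)) := by
    intro j
    rw [Finsupp.add_apply, Finsupp.single_apply]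
    by_cases hj : j = i
    · subst hj
      rw [if_pos rfl, if_pos rfl, Nat.add_div_left _ hQ, Nat.add_mod_left, pow_succ]
      ring
    · rw [if_neg (fun h => hj h.symm), if_neg hj, zero_add, one_mul]
  rw [lm, Finset.prod_congr rfl (fun j _ => h j), Finset.prod_mul_distrib,
    Finset.prod_ite_eq' Finset.univ i, if_pos (Finset.mem_univ i), lm]

/-- the linear map `Lam` -/
noncomputable def Lam : MvPolynomial σ K →ₗ[K] MvPolynomial σ K :=
  (basisMonomials σ K).constr K (lm Q f)

theorem Lam_monomial (m : σ →₀ ℕ) : Lam Q f (monomial m 1) = lm Q f m := by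
  have h := (basisMonomials σ K).constr_basis K (lm Q f) m
  rwa [coe_basisMonomials] at h

theorem Lam_sub (hf : ∀ i, (f i).totalDegree < Q) (n : ℕ) (h : MvPolynomial σ K)
    (hh : h ∈ W K σ (n + 1)) : Lam Q f h - h ∈ W K σ n := by
  classical
  have h1 : Lam Q f h - h = ∑ m ∈ h.support, coeff m h • (lm Q f m - monomial m 1) := by
    conv_lhs => rw [as_sum h]
    rw [map_sum, ← Finset.sum_sub_distrib]
    apply Finset.sum_congr rfl
    intro m _
    have : monomial m (coeff m h) = coeff m h • monomial m (1 : K) := by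
      rw [smul_monomial, smul_eq_mul, mul_one]
    rw [this, map_smul, Lam_monomial, smul_sub]
  rw [h1]
  apply (W K σ n).sum_mem
  intro m hm
  apply (W K σ n).smul_mem
  refine W_mono ?_ (T_lm Q f hf m)
  by_contra hcon
  exact (mem_support_iff.mp hm) (hh m (by omega))

theorem Lam_surj (hf : ∀ i, (f i).totalDegree < Q) (n : ℕ) :
    ∀ h : MvPolynomial σ K, h ∈ W K σ n → ∃ h', Lam Q f h' = h := by
  induction n with
  | zero =>
    intro h hh
    refine ⟨0, ?_⟩
    rw [map_zero]
    ext m
    rw [hh m (Nat.zero_le _), coeff_zero]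
  | succ n ih =>
    intro h hh
    obtain ⟨h', hh'⟩ := ih _ (Lam_sub Q f hf n h hh)
    refine ⟨h - h', ?_⟩
    rw [map_sub, hh']
    ring

theorem Lam_mul (hQ : 0 < Q) (i : σ) (h : MvPolynomial σ K) :
    Lam Q f (X i ^ Q * h) = (X i ^ Q - f i) * Lam Q f h := by
  induction h using MvPolynomial.induction_on' with
  | monomial m a =>
    have h1 : (monomial m a : MvPolynomial σ K) = a • monomial m 1 := by
      rw [smul_monomial, smul_eq_mul, mul_one]
    rw [h1, mul_smul_comm, map_smul, map_smul, X_pow_eq_monomial, monomial_mul, one_mul,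
      Lam_monomial, Lam_monomial, lm_add Q f hQ, mul_smul_comm, X_pow_eq_monomial]
  | add p q hp hq => rw [mul_add, map_add, hp, hq, map_add, mul_add]

end

end PolyA

open PolyA MvPolynomial in
theorem eq_zero_of_mem_span {K σ : Type} [Field K] [Finite σ] (Q : ℕ) (f : σ → MvPolynomial σ K)
    (hf : ∀ i, (f i).totalDegree < Q) (g : MvPolynomial σ K)
    (hg : g ∈ Ideal.span (Set.range fun i => MvPolynomial.X i ^ Q - f i))
    (hd : g.totalDegree < Q) : g = 0 := by
  classical
  have : Fintype σ := Fintype.ofFinite σ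
  have hQ : 0 < Q := by omega
  obtain ⟨c, hc⟩ := (Ideal.mem_span_range_iff_exists_fun).mp hg
  choose h hh using fun i => Lam_surj Q f hf ((c i).totalDegree + 1) (c i)
    (W_of_totalDegree (Nat.lt_succ_self _))
  set g' : MvPolynomial σ K := ∑ i, X i ^ Q * h i with hg'
  have hL : Lam Q f g' = g := by
    rw [hg', map_sum, ← hc]
    apply Finset.sum_congr rfl
    intro i _
    rw [Lam_mul Q f hQ, hh, mul_comm]
  have hJ : ∀ m : σ →₀ ℕ, coeff m g' ≠ 0 → Q ≤ m.degree := by
    intro m hm
    by_contra hcon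
    apply hm
    rw [hg', coeff_sum]
    apply Finset.sum_eq_zero
    intro i _
    rw [X_pow_eq_monomial, coeff_monomial_mul', if_neg]
    intro hle
    apply hcon
    have h1 : Q ≤ m i := by simpa using hle i
    exact h1.trans (Finsupp.le_degree i m)
  by_contra hne
  have hg0 : g' ≠ 0 := by
    rintro h0
    apply hne
    rw [← hL, h0, map_zero]
  obtain ⟨m, hm, hmax⟩ := Finset.exists_max_image g'.support (fun m => m.degree)
    (Finset.nonempty_of_ne_empty (fun h => hg0 (support_eq_empty.mp h)))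
  have hW : g' ∈ W K σ (m.degree + 1) := by
    intro m' hm'
    by_contra hc'
    have := hmax m' (mem_support_iff.mpr hc')
    omega
  have h2 := Lam_sub Q f hf m.degree g' hW m le_rfl
  rw [hL, coeff_sub, sub_eq_zero] at h2
  have h3 : coeff m g ≠ 0 := by
    rw [h2]
    exact mem_support_iff.mp hm
  have h4 := hJ m (mem_support_iff.mp hm)
  exact h3 (W_of_totalDegree (lt_of_lt_of_le hd h4) m le_rfl)

end Pool.Agent.MP3f0e40.OS
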