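import Mathlib

set_option autoImplicit false

/-!
# Algebraic dependence of `n + 1` polynomials in `n` variables; powers of elements of an ideal
-/

namespace Pool.Agent.MP3f0e40.OS

theorem exists_algDep {k σ : Type} [Field k] [Finite σ]
    (g : Fin (Nat.card σ + 1) → MvPolynomial σ k) :
    ∃ T : MvPolynomial (Fin (Nat.card σ + 1)) k, T ≠ 0 ∧ MvPolynomial.aeval g T = 0 := by
  by_contra hcon
  push Not at hcon
  have hind : AlgebraicIndependent k g := by
    rw [algebraicIndependent_iff]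
    intro T hT
    by_contra hne
    exact hcon T hne hT
  have h1 := hind.cardinalMk_le_trdeg
  rw [MvPolynomial.trdeg_of_isDomain, Cardinal.lift_id, Cardinal.mk_fin] at h1
  have h2 : (Cardinal.mk σ) = ((Nat.card σ : ℕ) : Cardinal) := by
    rw [Nat.cast_card]
  rw [h2] at h1
  have h3 : Nat.card σ + 1 ≤ Nat.card σ := by exact_mod_cast h1
  omega

theorem sum_pow_mem_aux {B ι : Type} [CommRing B] (J : Ideal B) (y : ι → B) (d : ι → ℕ)
    (hy : ∀ i, y i ^ d i ∈ J) (S : Finset ι) :
    (∑ i ∈ S, y i) ^ (∑ i ∈ S, d i + 1) ∈ J := by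
  classical
  induction S using Finset.induction_on with
  | empty => simp
  | insert a S ha ih =>
    rw [Finset.sum_insert ha, Finset.sum_insert ha]
    refine J.add_pow_mem_of_pow_mem_of_le (m := d a) (n := ∑ i ∈ S, d i + 1) (hy a) ih ?_
    omega

theorem sum_pow_mem {B ι : Type} [CommRing B] [Fintype ι] (J : Ideal B) (c : ι → B) (d : ι → ℕ)
    (hc : ∀ i, c i ^ d i ∈ J) (x : B) (hx : x ∈ Ideal.span (Set.range c)) :
    x ^ (∑ i, d i + 1) ∈ J := by
  obtain ⟨b, hb⟩ := (Ideal.mem_span_range_iff_exists_fun).1 hx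
  rw [← hb]
  refine sum_pow_mem_aux J (fun i => b i * c i) d (fun i => ?_) Finset.univ
  rw [mul_pow]
  exact J.mul_mem_left _ (hc i)

end Pool.Agent.MP3f0e40.OS
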