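import Mathlib

set_option autoImplicit false

/-!
# Local nilpotency from an algebraic relation
-/

namespace Pool.Agent.MP3f0e40.OS

/-- digits in base `Q` are unique -/
theorem PC_digits {Q : ℕ} : ∀ {k : ℕ} (a b : Fin k → ℕ), (∀ j, a j < Q) → (∀ j, b j < Q) →
    ∑ j, a j * Q ^ (j : ℕ) = ∑ j, b j * Q ^ (j : ℕ) → a = b
  | 0, a, b, _, _, _ => funext fun j => j.elim0
  | k + 1, a, b, ha, hb, h => by
    have hs : ∀ c : Fin (k + 1) → ℕ, ∑ j, c j * Q ^ (j : ℕ) =
        c 0 + Q * ∑ j : Fin k, c j.succ * Q ^ (j : ℕ) := by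
      intro c
      rw [Fin.sum_univ_succ, Finset.mul_sum]
      congr 1
      · simp
      · refine Finset.sum_congr rfl fun j _ => ?_
        rw [Fin.val_succ, pow_succ]
        ring
    rw [hs a, hs b] at h
    have h0 : a 0 = b 0 := by
      have h1 := congrArg (· % Q) h
      simp only [Nat.add_mul_mod_self_left] at h1
      rwa [Nat.mod_eq_of_lt (ha 0), Nat.mod_eq_of_lt (hb 0)] at h1
    have hQ : 0 < Q := lt_of_le_of_lt (Nat.zero_le _) (ha 0)
    have h2 : ∑ j : Fin k, a j.succ * Q ^ (j : ℕ) = ∑ j : Fin k, b j.succ * Q ^ (j : ℕ) := by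
      rw [h0] at h
      exact Nat.eq_of_mul_eq_mul_left hQ (Nat.add_left_cancel h)
    have h3 := PC_digits (fun j => a j.succ) (fun j => b j.succ) (fun j => ha _) (fun j => hb _) h2
    funext j
    refine Fin.cases h0 (fun i => congrFun h3 i) j

/-- the translate of a polynomial -/
theorem PC_translate {K : Type} [Field K] {n : ℕ} (T : MvPolynomial (Fin n) K) (α : Fin n → K) :
    (MvPolynomial.aeval (fun j => MvPolynomial.C (α j) + MvPolynomial.X j) T :
      MvPolynomial (Fin n) K).totalDegree ≤ T.totalDegree := by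
  rw [MvPolynomial.aeval_def, MvPolynomial.eval₂_eq']
  refine (MvPolynomial.totalDegree_finsetSum _ _).trans (Finset.sup_le fun m hm => ?_)
  have h1 : ((algebraMap K (MvPolynomial (Fin n) K)) (MvPolynomial.coeff m T) *
      ∏ i, (MvPolynomial.C (α i) + MvPolynomial.X i) ^ m i).totalDegree ≤ ∑ i, m i := by
    refine (MvPolynomial.totalDegree_mul _ _).trans ?_
    rw [MvPolynomial.algebraMap_eq, MvPolynomial.totalDegree_C, zero_add]
    refine (MvPolynomial.totalDegree_finsetProd _ _).trans (Finset.sum_le_sum fun i _ => ?_)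
    refine (MvPolynomial.totalDegree_pow _ _).trans ?_
    have h2 : (MvPolynomial.C (α i) + MvPolynomial.X i : MvPolynomial (Fin n) K).totalDegree ≤ 1 := by
      refine (MvPolynomial.totalDegree_add _ _).trans ?_
      rw [MvPolynomial.totalDegree_C, MvPolynomial.totalDegree_X]
      simp
    calc m i * (MvPolynomial.C (α i) + MvPolynomial.X i : MvPolynomial (Fin n) K).totalDegree
        ≤ m i * 1 := Nat.mul_le_mul_left _ h2
      _ = m i := Nat.mul_one _
  refine h1.trans ?_
  have h3 := MvPolynomial.le_totalDegree hm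
  rwa [Finsupp.sum_fintype _ _ (fun _ => rfl)] at h3

theorem PC_translate_ne {K : Type} [Field K] {n : ℕ} {T : MvPolynomial (Fin n) K} (hT : T ≠ 0)
    (α : Fin n → K) :
    (MvPolynomial.aeval (fun j => MvPolynomial.C (α j) + MvPolynomial.X j) T :
      MvPolynomial (Fin n) K) ≠ 0 := by
  intro h0
  apply hT
  have h1 : (MvPolynomial.aeval (fun j => MvPolynomial.C (-α j) + MvPolynomial.X j) :
      MvPolynomial (Fin n) K →ₐ[K] MvPolynomial (Fin n) K).comp
      (MvPolynomial.aeval (fun j => MvPolynomial.C (α j) + MvPolynomial.X j)) =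
      AlgHom.id K (MvPolynomial (Fin n) K) := by
    apply MvPolynomial.algHom_ext
    intro j
    rw [AlgHom.comp_apply, MvPolynomial.aeval_X, map_add, MvPolynomial.aeval_X,
      MvPolynomial.aeval_C, MvPolynomial.algebraMap_eq, AlgHom.id_apply, ← add_assoc, ← map_add,
      add_neg_cancel, map_zero, zero_add]
  have h2 := congrArg (fun f : MvPolynomial (Fin n) K →ₐ[K] MvPolynomial (Fin n) K => f T) h1
  simp only [AlgHom.comp_apply, AlgHom.id_apply] at h2
  rw [← h2, h0, map_zero]

theorem local_nilpotent {K B : Type} [Field K] [CommRing B] [Algebra K B] (P : Ideal B)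
    (hP : P ≠ ⊤) (n Q : ℕ) (T : MvPolynomial (Fin (n + 1)) K) (hT : T ≠ 0)
    (hQ : T.totalDegree < Q) (α : Fin (n + 1) → K) (u : B) (hu : u ∈ P)
    (h0 : MvPolynomial.aeval (fun j => algebraMap K B (α j) + u ^ (Q ^ (j : ℕ))) T = 0) :
    ∃ b, b ∉ P ∧ b * (u ^ (Q ^ n)) ^ T.totalDegree = 0 := by
  classical
  set T' : MvPolynomial (Fin (n + 1)) K :=
    MvPolynomial.aeval (fun j => MvPolynomial.C (α j) + MvPolynomial.X j) T with hT'
  have hne : T' ≠ 0 := PC_translate_ne hT α
  have hdeg : T'.totalDegree ≤ T.totalDegree := PC_translate T α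
  have hz : MvPolynomial.aeval (fun j : Fin (n + 1) => u ^ (Q ^ (j : ℕ))) T' = 0 := by
    have h1 : (MvPolynomial.aeval (fun j : Fin (n + 1) => u ^ (Q ^ (j : ℕ))) :
        MvPolynomial (Fin (n + 1)) K →ₐ[K] B).comp
        (MvPolynomial.aeval (fun j => MvPolynomial.C (α j) + MvPolynomial.X j)) =
        MvPolynomial.aeval (fun j => algebraMap K B (α j) + u ^ (Q ^ (j : ℕ))) := by
      apply MvPolynomial.algHom_ext
      intro j
      rw [AlgHom.comp_apply, MvPolynomial.aeval_X, map_add, MvPolynomial.aeval_X,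
        MvPolynomial.aeval_C, MvPolynomial.aeval_X]
    have h2 := congrArg (fun f : MvPolynomial (Fin (n + 1)) K →ₐ[K] B => f T) h1
    simp only [AlgHom.comp_apply] at h2
    rw [hT', h2, h0]
  -- exponents
  let E : (Fin (n + 1) →₀ ℕ) → ℕ := fun m => ∑ j, m j * Q ^ (j : ℕ)
  have hsum : ∑ m ∈ T'.support, algebraMap K B (T'.coeff m) * u ^ E m = 0 := by
    rw [MvPolynomial.aeval_def, MvPolynomial.eval₂_eq'] at hz
    rw [← hz]
    refine Finset.sum_congr rfl fun m _ => ?_
    congr 1
    rw [← Finset.prod_pow_eq_pow_sum]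
    refine Finset.prod_congr rfl fun j _ => ?_
    rw [← pow_mul, mul_comm]
  have hmd : ∀ m ∈ T'.support, ∑ j, m j ≤ T.totalDegree := by
    intro m hm
    have h3 := MvPolynomial.le_totalDegree hm
    rw [Finsupp.sum_fintype _ _ (fun _ => rfl)] at h3
    exact h3.trans hdeg
  have hmq : ∀ m ∈ T'.support, ∀ j, m j < Q := by
    intro m hm j
    have h3 : m j ≤ ∑ j, m j := Finset.single_le_sum (f := fun j => m j) (fun _ _ => Nat.zero_le _)
      (Finset.mem_univ j)
    exact lt_of_le_of_lt (h3.trans (hmd m hm)) hQ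
  have hinj : ∀ m ∈ T'.support, ∀ m' ∈ T'.support, E m = E m' → m = m' := by
    intro m hm m' hm' h
    exact DFunLike.coe_injective (PC_digits (⇑m) (⇑m') (hmq m hm) (hmq m' hm') h)
  obtain ⟨m0, hm0, hmin⟩ := Finset.exists_min_image T'.support E
    (MvPolynomial.support_nonempty.2 hne)
  have hlt : ∀ m ∈ T'.support.erase m0, E m0 + 1 ≤ E m := by
    intro m hm
    rw [Finset.mem_erase] at hm
    exact lt_of_le_of_ne (hmin m hm.2) fun h => hm.1 (hinj m hm.2 m0 hm0 h.symm)
  set w : B := ∑ m ∈ T'.support.erase m0, algebraMap K B (T'.coeff m) * u ^ (E m - E m0 - 1) with hw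
  have hfac : (algebraMap K B (T'.coeff m0) + u * w) * u ^ E m0 = 0 := by
    rw [← hsum, ← Finset.add_sum_erase _ _ hm0, add_mul, hw, Finset.mul_sum, Finset.sum_mul]
    congr 1
    refine Finset.sum_congr rfl fun m hm => ?_
    have h4 := hlt m hm
    have h5 : u ^ E m = u * u ^ (E m - E m0 - 1) * u ^ E m0 := by
      rw [← pow_succ', ← pow_add]
      congr 1
      omega
    rw [h5]
    ring
  refine ⟨algebraMap K B (T'.coeff m0) + u * w, fun hb => hP ?_, ?_⟩
  · have h6 : algebraMap K B (T'.coeff m0) ∈ P := by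
      have := P.sub_mem hb (P.mul_mem_right w hu)
      rwa [add_sub_cancel_right] at this
    refine Ideal.eq_top_of_isUnit_mem P h6 ?_
    exact (IsUnit.mk0 _ (MvPolynomial.mem_support_iff.1 hm0)).map (algebraMap K B)
  · have h7 : E m0 ≤ Q ^ n * T.totalDegree := by
      have hQ1 : 1 ≤ Q := by omega
      calc E m0 ≤ ∑ j, m0 j * Q ^ n := Finset.sum_le_sum fun j _ =>
            Nat.mul_le_mul_left _ (Nat.pow_le_pow_right hQ1 (Nat.lt_succ_iff.1 j.2))
        _ = (∑ j, m0 j) * Q ^ n := by rw [Finset.sum_mul]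
        _ ≤ T.totalDegree * Q ^ n := Nat.mul_le_mul_right _ (hmd m0 hm0)
        _ = Q ^ n * T.totalDegree := Nat.mul_comm _ _
    rw [← pow_mul, ← Nat.add_sub_of_le h7, pow_add, ← mul_assoc, hfac, zero_mul]

end Pool.Agent.MP3f0e40.OS
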