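import Mathlib

/-!
# Frobenius iteration and a local-global form of the Nullstellensatz
-/

set_option autoImplicit false

namespace Pool.Agent.MP3f0e40.OS

/-- one step of `frob_iter` -/
theorem frob_step {p : ℕ} [Fact p.Prime] {σ B : Type} [CommRing B] [Algebra (ZMod p) B] (k : ℕ)
    (f : MvPolynomial σ (ZMod p) →ₐ[ZMod p] MvPolynomial σ (ZMod p)) (x : σ → B)
    (hx : ∀ i, x i ^ (p ^ k) = MvPolynomial.aeval x (f (MvPolynomial.X i)))
    (g : MvPolynomial σ (ZMod p)) :
    MvPolynomial.aeval x (f g) = (MvPolynomial.aeval x g) ^ (p ^ k) := by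
  rcases subsingleton_or_nontrivial B with hB | hB
  · exact Subsingleton.elim _ _
  · have hchar : CharP B p := charP_of_injective_algebraMap (algebraMap (ZMod p) B).injective p
    have hexp : ExpChar B p := ExpChar.prime Fact.out
    have h : ((MvPolynomial.aeval x).comp f : MvPolynomial σ (ZMod p) →ₐ[ZMod p] B).toRingHom
        = (iterateFrobenius B p k).comp
          (MvPolynomial.aeval x : MvPolynomial σ (ZMod p) →ₐ[ZMod p] B).toRingHom := by
      apply MvPolynomial.ringHom_ext
      · intro r
        change MvPolynomial.aeval x (f (MvPolynomial.C r))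
          = iterateFrobenius B p k (MvPolynomial.aeval x (MvPolynomial.C r))
        rw [MvPolynomial.algHom_C, MvPolynomial.algHom_C, iterateFrobenius_def]
        rw [MvPolynomial.algebraMap_eq, MvPolynomial.algHom_C, ← map_pow, ZMod.pow_card_pow]
      · intro i
        change MvPolynomial.aeval x (f (MvPolynomial.X i))
          = iterateFrobenius B p k (MvPolynomial.aeval x (MvPolynomial.X i))
        rw [iterateFrobenius_def, MvPolynomial.aeval_X, hx]
    have h1 := congrArg (fun φ : MvPolynomial σ (ZMod p) →+* B => φ g) h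
    exact h1

theorem frob_iter {p : ℕ} [Fact p.Prime] {σ B : Type} [CommRing B] [Algebra (ZMod p) B] (k : ℕ)
    (f : MvPolynomial σ (ZMod p) →ₐ[ZMod p] MvPolynomial σ (ZMod p)) (x : σ → B)
    (hx : ∀ i, x i ^ (p ^ k) = MvPolynomial.aeval x (f (MvPolynomial.X i))) (j : ℕ)
    (g : MvPolynomial σ (ZMod p)) :
    MvPolynomial.aeval x (f^[j] g) = (MvPolynomial.aeval x g) ^ ((p ^ k) ^ j) := by
  induction j generalizing g with
  | zero => rw [Function.iterate_zero_apply, pow_zero, pow_one]
  | succ j ih => rw [Function.iterate_succ_apply, ih, frob_step k f x hx, ← pow_mul, ← pow_succ']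

theorem mem_of_local {K σ : Type} [Field K] [IsAlgClosed K] [Finite σ]
    (I : Ideal (MvPolynomial σ K)) (g : MvPolynomial σ K)
    (h : ∀ a : σ → K, (∀ q ∈ I, MvPolynomial.eval a q = 0) →
      ∃ b, MvPolynomial.eval a b ≠ 0 ∧ b * g ∈ I) : g ∈ I := by
  classical
  let C : Ideal (MvPolynomial σ K) :=
    { carrier := {b | b * g ∈ I}
      add_mem' := by
        intro a b ha hb
        change (a + b) * g ∈ I
        rw [add_mul]
        exact I.add_mem ha hb
      zero_mem' := by
        change 0 * g ∈ I
        rw [zero_mul]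
        exact I.zero_mem
      smul_mem' := by
        intro c b hb
        change c * b * g ∈ I
        rw [mul_assoc]
        exact I.mul_mem_left c hb }
  by_cases h1 : C = ⊤
  · have h2 : (1 : MvPolynomial σ K) ∈ C := by
      rw [h1]
      trivial
    have h3 : 1 * g ∈ I := h2
    rwa [one_mul] at h3
  · obtain ⟨M, hM, hCM⟩ := Ideal.exists_le_maximal C h1
    obtain ⟨a, ha⟩ := MvPolynomial.isMaximal_iff_eq_vanishingIdeal_singleton.1 hM
    have hmem : ∀ q ∈ M, MvPolynomial.eval a q = 0 := by
      intro q hq
      rw [ha, MvPolynomial.mem_vanishingIdeal_singleton_iff] at hq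
      rwa [MvPolynomial.aeval_eq_eval] at hq
    obtain ⟨b, hb, hbg⟩ := h a fun q hq => hmem q (hCM (I.mul_mem_right g hq))
    exact absurd (hmem b (hCM hbg)) hb

end Pool.Agent.MP3f0e40.OS
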