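import Pool.Agent.Lib.MP_3f0e40_al.OS.Defs
import Pool.Agent.Lib.MP_3f0e40_al.OS.PolyA
import Pool.Agent.Lib.MP_3f0e40_al.OS.PolyB
import Pool.Agent.Lib.MP_3f0e40_al.OS.PolyC
import Pool.Agent.Lib.MP_3f0e40_al.OS.PolyD

set_option autoImplicit false

namespace Pool.Agent.MP3f0e40.OS

/-! # Module PE: quasi-fixed points of polynomial maps (elementary Borisov-Sapir theorem) -/

namespace PE

open MvPolynomial

/-- Frobenius powers of elements of a span -/
theorem pow_mem_span {B ι : Type} [CommRing B] (p : ℕ) [Fact p.Prime] [CharP B p] (m : ℕ)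
    (u : ι → B) (z : B) (hz : z ∈ Ideal.span (Set.range u)) :
    z ^ p ^ m ∈ Ideal.span (Set.range fun i => u i ^ p ^ m) := by
  have : ExpChar B p := ExpChar.prime Fact.out
  have h : Ideal.span (Set.range u) ≤
      (Ideal.span (Set.range fun i => u i ^ p ^ m)).comap (iterateFrobenius B p m) := by
    rw [Ideal.span_le]
    rintro _ ⟨i, rfl⟩
    rw [SetLike.mem_coe, Ideal.mem_comap, iterateFrobenius_def]
    exact Ideal.subset_span ⟨i, rfl⟩
  have h' := h hz
  rwa [Ideal.mem_comap, iterateFrobenius_def] at h'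

/-- an element which is killed by an element outside of `P` -/
def locZero {B : Type} [CommRing B] (P : Ideal B) [hP : P.IsPrime] : Ideal B where
  carrier := {z | ∃ b, b ∉ P ∧ b * z = 0}
  zero_mem' := ⟨1, fun h => hP.ne_top ((Ideal.eq_top_iff_one P).2 h), mul_zero _⟩
  add_mem' := by
    rintro z w ⟨b, hb, hz⟩ ⟨c, hc, hw⟩
    refine ⟨b * c, fun h => (hP.mem_or_mem h).elim hb hc, ?_⟩
    linear_combination c * hz + b * hw
  smul_mem' := by
    rintro r z ⟨b, hb, hz⟩
    refine ⟨b, hb, ?_⟩
    rw [smul_eq_mul]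
    linear_combination r * hz

theorem sub_mem_span {K σ : Type} [Field K] (I : Ideal (MvPolynomial σ K)) (a : σ → K)
    (q : MvPolynomial σ K) :
    Ideal.Quotient.mk I q - algebraMap K (MvPolynomial σ K ⧸ I) (eval a q) ∈
      Ideal.span (Set.range fun i => Ideal.Quotient.mk I (MvPolynomial.X i) -
        algebraMap K (MvPolynomial σ K ⧸ I) (a i)) := by
  induction q using MvPolynomial.induction_on with
  | C c =>
    rw [eval_C]
    have : algebraMap K (MvPolynomial σ K ⧸ I) c = Ideal.Quotient.mk I (C c) := rfl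
    rw [this, sub_self]
    exact Ideal.zero_mem _
  | add f g hf hg =>
    have e : Ideal.Quotient.mk I (f + g) - algebraMap K (MvPolynomial σ K ⧸ I) (eval a (f + g)) =
        (Ideal.Quotient.mk I f - algebraMap K (MvPolynomial σ K ⧸ I) (eval a f)) +
        (Ideal.Quotient.mk I g - algebraMap K (MvPolynomial σ K ⧸ I) (eval a g)) := by
      rw [map_add, map_add, map_add]
      ring
    rw [e]
    exact Ideal.add_mem _ hf hg
  | mul_X f i hf =>
    have e : Ideal.Quotient.mk I (f * MvPolynomial.X i) -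
        algebraMap K (MvPolynomial σ K ⧸ I) (eval a (f * MvPolynomial.X i)) =
        Ideal.Quotient.mk I f * (Ideal.Quotient.mk I (MvPolynomial.X i) -
          algebraMap K (MvPolynomial σ K ⧸ I) (a i)) +
        algebraMap K (MvPolynomial σ K ⧸ I) (a i) *
          (Ideal.Quotient.mk I f - algebraMap K (MvPolynomial σ K ⧸ I) (eval a f)) := by
      rw [map_mul, map_mul, map_mul, eval_X]
      ring
    rw [e]
    exact Ideal.add_mem _ (Ideal.mul_mem_left _ _ (Ideal.subset_span ⟨i, rfl⟩))
      (Ideal.mul_mem_left _ _ hf)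

theorem aeval_mk {p : ℕ} [Fact p.Prime] {σ K : Type} [Field K] [Algebra (ZMod p) K]
    (I : Ideal (MvPolynomial σ K)) (g : MvPolynomial σ (ZMod p)) :
    aeval (fun i => Ideal.Quotient.mk I (MvPolynomial.X i)) g =
      Ideal.Quotient.mk I (map (algebraMap (ZMod p) K) g) := by
  induction g using MvPolynomial.induction_on with
  | C c =>
    rw [map_C, ← algebraMap_eq, AlgHom.commutes]
    rfl
  | add f g hf hg => rw [map_add, hf, hg, map_add, map_add]
  | mul_X f i hf => rw [map_mul, hf, aeval_X, map_mul, map_mul, map_X]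

/-- the local step -/
theorem local_step {p : ℕ} [Fact p.Prime] {σ : Type} [Finite σ] {K : Type} [Field K]
    [Algebra (ZMod p) K]
    (f : MvPolynomial σ (ZMod p) →ₐ[ZMod p] MvPolynomial σ (ZMod p))
    (D : MvPolynomial σ (ZMod p)) (T : σ → MvPolynomial (Fin (Nat.card σ + 1)) (ZMod p))
    (hT0 : ∀ i, T i ≠ 0)
    (hT : ∀ i, aeval (fun j : Fin (Nat.card σ + 1) => f^[j] (MvPolynomial.X i)) (T i) = 0) (k : ℕ)
    (hk : ∀ i, (map (algebraMap (ZMod p) K) (T i)).totalDegree < p ^ k)
    (I : Ideal (MvPolynomial σ K))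
    (hI : I = Ideal.span (Set.range fun i => MvPolynomial.X i ^ (p ^ k) -
      map (algebraMap (ZMod p) K) (f (MvPolynomial.X i)))) (a : σ → K)
    (ha : ∀ q ∈ I, eval a q = 0) (haD : eval a (map (algebraMap (ZMod p) K) D) = 0) [Fintype σ] :
    ∃ b, eval a b ≠ 0 ∧ b * (map (algebraMap (ZMod p) K) (f^[Nat.card σ] D)) ^
      (∑ i, (map (algebraMap (ZMod p) K) (T i)).totalDegree + 1) ∈ I := by
  let B : Type := MvPolynomial σ K ⧸ I
  let x : σ → B := fun i => Ideal.Quotient.mk I (MvPolynomial.X i)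
  let ε : B →+* K := Ideal.Quotient.lift I (eval a) ha
  have hε : ∀ q, ε (Ideal.Quotient.mk I q) = eval a q := fun q => Ideal.Quotient.lift_mk _ _ _
  have hnt : Nontrivial B := ε.domain_nontrivial
  have hchar : CharP B p :=
    charP_of_injective_algebraMap (algebraMap (ZMod p) B).injective p
  let P : Ideal B := RingHom.ker ε
  have hP : P.IsPrime := RingHom.ker_isPrime ε
  have hx : ∀ i, x i ^ (p ^ k) = aeval x (f (MvPolynomial.X i)) := by
    intro i
    rw [aeval_mk I (f (MvPolynomial.X i))]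
    have h : MvPolynomial.X i ^ (p ^ k) - map (algebraMap (ZMod p) K) (f (MvPolynomial.X i)) ∈ I := by
      rw [hI]
      exact Ideal.subset_span ⟨i, rfl⟩
    have h' := Ideal.Quotient.eq_zero_iff_mem.2 h
    rw [map_sub, map_pow, sub_eq_zero] at h'
    exact h'
  let u : σ → B := fun i => x i - algebraMap K B (a i)
  have hu : ∀ i, u i ∈ P := by
    intro i
    have h1 : ε (x i) = a i := by rw [hε, eval_X]
    have h2 : ε (algebraMap K B (a i)) = a i := by
      have : algebraMap K B (a i) = Ideal.Quotient.mk I (C (a i)) := rfl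
      rw [this, hε, eval_C]
    rw [RingHom.mem_ker, map_sub, h1, h2, sub_self]
  have hpw : ∀ i j, x i ^ ((p ^ k) ^ j) =
      algebraMap K B (a i ^ ((p ^ k) ^ j)) + u i ^ ((p ^ k) ^ j) := by
    intro i j
    have e : x i = algebraMap K B (a i) + u i := by
      simp only [u]
      ring
    rw [← pow_mul]
    conv_lhs => rw [e]
    rw [add_pow_char_pow, map_pow]
  have hloc : ∀ i, (u i ^ ((p ^ k) ^ Nat.card σ)) ^
      (map (algebraMap (ZMod p) K) (T i)).totalDegree ∈ locZero P := by
    intro i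
    have h0 : aeval (fun j : Fin (Nat.card σ + 1) => algebraMap K B (a i ^ ((p ^ k) ^ (j : ℕ))) +
        u i ^ ((p ^ k) ^ (j : ℕ))) (map (algebraMap (ZMod p) K) (T i)) = 0 := by
      rw [aeval_map_algebraMap]
      have h1 := congrArg (aeval x) (hT i)
      rw [map_zero, ← AlgHom.comp_apply, comp_aeval] at h1
      rw [← h1]
      congr 2
      funext j
      rw [← hpw, frob_iter k f x hx, aeval_X]
    exact local_nilpotent P hP.ne_top (Nat.card σ) (p ^ k) _
      (fun h => hT0 i ((map_injective _ (algebraMap (ZMod p) K).injective)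
        (by rw [h, map_zero]))) (hk i) (fun j => a i ^ ((p ^ k) ^ (j : ℕ))) (u i) (hu i) h0
  have hDu : aeval x D ∈ Ideal.span (Set.range u) := by
    have h := sub_mem_span I a (map (algebraMap (ZMod p) K) D)
    rw [haD, map_zero, sub_zero, ← aeval_mk] at h
    exact h
  have hy : aeval x (f^[Nat.card σ] D) ∈
      Ideal.span (Set.range fun i => u i ^ ((p ^ k) ^ Nat.card σ)) := by
    rw [frob_iter k f x hx]
    simp only [← pow_mul]
    exact pow_mem_span p (k * Nat.card σ) u _ hDu
  obtain ⟨b, hb, hb0⟩ := sum_pow_mem (locZero P) (fun i => u i ^ ((p ^ k) ^ Nat.card σ))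
    (fun i => (map (algebraMap (ZMod p) K) (T i)).totalDegree) hloc _ hy
  obtain ⟨b, rfl⟩ := Ideal.Quotient.mk_surjective b
  refine ⟨b, fun h => hb ?_, ?_⟩
  · rw [RingHom.mem_ker, hε, h]
  · rw [← Ideal.Quotient.eq_zero_iff_mem, map_mul, map_pow, ← aeval_mk]
    exact hb0

theorem exists_point (p : ℕ) [Fact p.Prime] (σ : Type) [Finite σ] (K : Type) [Field K]
    [IsAlgClosed K] [Algebra (ZMod p) K]
    (f : MvPolynomial σ (ZMod p) →ₐ[ZMod p] MvPolynomial σ (ZMod p))
    (D : MvPolynomial σ (ZMod p)) (hD : (f^[Nat.card σ]) D ≠ 0) :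
    ∃ (k : ℕ) (a : σ → K), (∀ i, a i ^ (p ^ k) = aeval a (f (MvPolynomial.X i))) ∧ aeval a D ≠ 0 := by
  classical
  have : Fintype σ := Fintype.ofFinite σ
  choose T hT0 hT using fun i : σ => exists_algDep (k := ZMod p) (σ := σ)
    (fun j : Fin (Nat.card σ + 1) => f^[j] (MvPolynomial.X i))
  have hinj := map_injective (σ := σ) (algebraMap (ZMod p) K) (algebraMap (ZMod p) K).injective
  let G : MvPolynomial σ K := map (algebraMap (ZMod p) K) (f^[Nat.card σ] D)
  have hG : G ≠ 0 := fun h => hD (hinj (by rw [map_zero]; exact h))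
  let dT : σ → ℕ := fun i => (map (algebraMap (ZMod p) K) (T i)).totalDegree
  let dF : σ → ℕ := fun i => (map (algebraMap (ZMod p) K) (f (MvPolynomial.X i))).totalDegree
  let k : ℕ := ∑ i, dT i + ∑ i, dF i + (G ^ (∑ i, dT i + 1)).totalDegree
  have hk : k < p ^ k := Nat.lt_pow_self (Fact.out : p.Prime).one_lt
  have h1 : ∀ i, dT i < p ^ k := fun i => by
    have := Finset.single_le_sum (f := dT) (fun _ _ => Nat.zero_le _) (Finset.mem_univ i)
    omega
  have h2 : ∀ i, dF i < p ^ k := fun i => by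
    have := Finset.single_le_sum (f := dF) (fun _ _ => Nat.zero_le _) (Finset.mem_univ i)
    omega
  have h3 : (G ^ (∑ i, dT i + 1)).totalDegree < p ^ k := by omega
  by_contra hcon
  push Not at hcon
  let I : Ideal (MvPolynomial σ K) := Ideal.span (Set.range fun i => MvPolynomial.X i ^ (p ^ k) -
      map (algebraMap (ZMod p) K) (f (MvPolynomial.X i)))
  have hmem : G ^ (∑ i, dT i + 1) ∈ I := by
    apply mem_of_local
    intro a ha
    have ha' : ∀ i, a i ^ (p ^ k) = aeval a (f (MvPolynomial.X i)) := by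
      intro i
      have h := ha (MvPolynomial.X i ^ (p ^ k) - map (algebraMap (ZMod p) K) (f (MvPolynomial.X i)))
        (Ideal.subset_span ⟨i, rfl⟩)
      rw [map_sub, map_pow, eval_X, sub_eq_zero, eval_map] at h
      rw [h, aeval_def]
    have haD : eval a (map (algebraMap (ZMod p) K) D) = 0 := by
      rw [eval_map, ← aeval_def]
      exact hcon k a ha'
    exact local_step f D T hT0 hT k h1 I rfl a ha haD
  exact pow_ne_zero _ hG (eq_zero_of_mem_span (p ^ k) _ h2 _ hmem h3)

end PE

open PE in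
theorem quasi_fixed (p : ℕ) [Fact p.Prime] (σ : Type) [Finite σ]
    (f : MvPolynomial σ (ZMod p) →ₐ[ZMod p] MvPolynomial σ (ZMod p))
    (D : MvPolynomial σ (ZMod p)) (hD : (f^[Nat.card σ]) D ≠ 0) :
    ∃ (L : Type) (_ : Field L) (_ : Finite L) (_ : CharP L p) (k : ℕ)
      (e : MvPolynomial σ (ZMod p) →+* L), (∀ g, e (f g) = (e g) ^ (p ^ k)) ∧ e D ≠ 0 := by
  obtain ⟨k, a, ha, haD⟩ := exists_point p σ (AlgebraicClosure (ZMod p)) f D hD
  let L := IntermediateField.adjoin (ZMod p) (Set.range a)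
  have hfd : FiniteDimensional (ZMod p) L := by
    have : Finite (Set.range a) := Set.finite_range a
    apply IntermediateField.finiteDimensional_adjoin
    intro x _
    exact Algebra.IsIntegral.isIntegral x
  have hfin : Finite L := Module.finite_of_finite (ZMod p)
  have hchar : CharP L p := charP_of_injective_algebraMap (algebraMap (ZMod p) L).injective p
  let e : MvPolynomial σ (ZMod p) →ₐ[ZMod p] L :=
    MvPolynomial.aeval fun i => (⟨a i, IntermediateField.subset_adjoin _ _ ⟨i, rfl⟩⟩ : L)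
  have he : ∀ g, ((e g : L) : AlgebraicClosure (ZMod p)) = MvPolynomial.aeval a g := by
    intro g
    have h : (L.val.comp e) = MvPolynomial.aeval a := by
      apply MvPolynomial.algHom_ext
      intro i
      rw [AlgHom.comp_apply, MvPolynomial.aeval_X, MvPolynomial.aeval_X]
      rfl
    rw [← h]
    rfl
  refine ⟨L, inferInstance, hfin, hchar, k, e.toRingHom, fun g => ?_, fun h => haD ?_⟩
  · apply Subtype.val_injective
    change ((e (f g) : L) : AlgebraicClosure (ZMod p)) = (((e g) ^ (p ^ k) : L) : _)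
    rw [he, SubmonoidClass.coe_pow, he]
    have := frob_iter k f a ha 1 g
    rwa [Function.iterate_one, pow_one] at this
  · rw [← he]
    have h' : e D = 0 := h
    rw [h']
    rfl

end Pool.Agent.MP3f0e40.OS
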